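import Pool.Agent.Lib.MP_06caae_pr.OpenTri
import Pool.Agent.Lib.MP_566bac_pr.Zd.Erg

/-!
# The expected size of a sphere at the critical point
-/

open Finset SimpleGraph MeasureTheory ProbabilityTheory unitInterval
open Pool.Agent.Lib.MP_566bac_pr.Zd

namespace Pool.Agent.Lib.MP_06caae_pr

variable {d : ℕ} {p : ℝ}

/-! ### volumes and spheres -/

lemma card_ball_eq (S : Set (Ed d)) (x : V d) (r : ℕ) :
    (ball S x r).card = ∑ k ∈ range (r + 1), (sph S x k).card := by
  classical
  rw [← card_biUnion]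
  · congr 1
    ext y
    rw [mem_ball, ball_eq_sph, mem_biUnion]
    constructor
    · rintro ⟨k, hk, h⟩
      exact ⟨k, mem_range.mpr (by omega), h⟩
    · rintro ⟨k, hk, h⟩
      exact ⟨k, by have := mem_range.mp hk; omega, h⟩
  · intro j _ k _ hjk
    rw [Function.onFun, Finset.disjoint_left]
    intro y hj hk
    exact hjk (sph_unique hj hk)

/-- spheres are determined by the edges in the box -/
lemma dp_sph (x : V d) (r : ℕ) :
    DpF ((Ein (Lam x r) : Finset (Ed d)) : Set (Ed d)) (fun S => sph S x r) := by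
  intro S S' h
  ext y
  have h2 : ∀ k ≤ r, (Rch S x k y ↔ Rch S' x k y) := by
    intro k hk
    exact det_iff (det_Rch x k y) fun e he => h e (Ein_mono (Lam_mono x hk) he)
  rw [mem_sph, mem_sph]
  constructor
  · rintro ⟨h3, h4⟩
    refine ⟨(h2 r le_rfl).mp h3, fun k hk => ?_⟩
    by_contra hcon
    exact hcon (h4 k ((h2 k (by omega)).mpr hk))
  · rintro ⟨h3, h4⟩
    refine ⟨(h2 r le_rfl).mpr h3, fun k hk => ?_⟩
    by_contra hcon
    exact hcon (h4 k ((h2 k (by omega)).mp hk))

lemma EE_sph_box {j n : ℕ} (h : j ≤ n) :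
    EE p (Ein (Lam 0 n)) (fun S => ((sph S (0 : V d) j).card : ℝ)) =
      EE p (Ein (Lam 0 j)) (fun S => ((sph S (0 : V d) j).card : ℝ)) := by
  refine Ex_eq_of_dp (Ein_mono (Lam_mono 0 h))
    (K := ((Ein (Lam 0 j) : Finset (Ed d)) : Set (Ed d))) ?_ fun e _ he => he
  intro S S' hS
  have := dp_sph (0 : V d) j S S' hS
  simp only at this
  simp only [this]

/-- the expected volume, after an exploration -/
theorem GG_rec (h0 : 0 ≤ p) (h1 : p ≤ 1) (j s : ℕ) :
    GG d p (j + s) ≤ GG d p j +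
      EE p (Ein (Lam 0 j)) (fun S => ((sph S (0 : V d) j).card : ℝ)) * GG d p s := by
  set E := Ein (Lam (0 : V d) (j + s)) with hE
  have h2 : GG d p (j + s) ≤ EE p E (fun S => ((ball S (0 : V d) j).card : ℝ) +
      ∑ u ∈ sph S 0 j, ((ball (S \ tb 0 j S) u s).card : ℝ)) := by
    rw [← EE_ball_eq]
    apply Ex_mono (wt_p h0 h1)
    intro S
    exact_mod_cast card_ball_rest S 0 j s
  refine h2.trans ?_
  rw [EE, Ex_add]
  have h3 : Ex (fun _ => p) E (fun S => ((ball S (0 : V d) j).card : ℝ)) ≤ GG d p j :=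
    EE_ball_le h0 h1 E 0 j
  have h4 : Ex (fun _ => p) E
      (fun S => ∑ u ∈ sph S (0 : V d) j, ((ball (S \ tb 0 j S) u s).card : ℝ)) ≤
      Ex (fun _ => p) E (fun S => GG d p s * ((sph S (0 : V d) j).card : ℝ)) := by
    refine Ex_fresh_le (wt_p h0 h1) E (stop_tb (0 : V d) j)
      (φ := fun S T => ∑ u ∈ sph S 0 j, ((ball T u s).card : ℝ)) ?_ ?_
    · intro S S' hS
      have := rev_sph (0 : V d) (le_refl j) S S' hS
      simp only at this
      simp only [this]
    · intro S E' _
      rw [Ex_sum]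
      have : ∑ u ∈ sph S (0 : V d) j, Ex (fun _ => p) E' (fun T => ((ball T u s).card : ℝ)) ≤
          ∑ u ∈ sph S (0 : V d) j, GG d p s :=
        sum_le_sum fun u _ => EE_ball_le h0 h1 E' u s
      rw [sum_const, nsmul_eq_mul, mul_comm] at this
      exact this
  rw [Ex_mul] at h4
  have h5 : Ex (fun _ => p) E (fun S => ((sph S (0 : V d) j).card : ℝ)) =
      EE p (Ein (Lam 0 j)) (fun S => ((sph S (0 : V d) j).card : ℝ)) :=
    EE_sph_box (Nat.le_add_right j s)
  rw [h5] at h4
  linarith [mul_comm (GG d p s)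
    (EE p (Ein (Lam 0 j)) (fun S => ((sph S (0 : V d) j).card : ℝ)))]

/-- a small sphere gives bounded volumes -/
lemma GG_bounded (h0 : 0 ≤ p) (h1 : p ≤ 1) {j : ℕ}
    (h : EE p (Ein (Lam 0 j)) (fun S => ((sph S (0 : V d) j).card : ℝ)) < 1) :
    ∃ M, ∀ n, GG d p n ≤ M := by
  set ε := EE p (Ein (Lam 0 j)) (fun S => ((sph S (0 : V d) j).card : ℝ)) with hε
  have hε0 : 0 ≤ ε := Ex_nonneg (wt_p h0 h1) fun S => Nat.cast_nonneg _
  refine ⟨GG d p j / (1 - ε), fun n => ?_⟩
  rw [le_div_iff₀ (by linarith)]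
  have h2 := GG_rec (d := d) h0 h1 j n
  rw [← hε] at h2
  have h3 := GG_mono (d := d) h0 h1 (show n ≤ j + n by omega)
  nlinarith

/-! ### infinite clusters -/

lemma inf_sph {S : Set (Ed d)} {x : V d} (h : Inf S x) (n : ℕ) : (sph S x n).Nonempty := by
  by_contra hcon
  rw [Finset.not_nonempty_iff_eq_empty] at hcon
  apply h
  refine Set.Finite.subset (ball S x n).finite_toSet ?_
  intro y hy
  obtain ⟨r, hr⟩ := con_iff.mp (show Con S x y from hy)
  obtain ⟨k, _, hk⟩ := ball_eq_sph.mp hr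
  rcases lt_or_ge k n with h2 | h2
  · rw [Finset.mem_coe, mem_ball]
    exact (mem_sph.mp hk).1.mono subset_rfl h2.le
  · obtain ⟨m, rfl⟩ := Nat.exists_eq_add_of_le h2
    obtain ⟨u, hu, _⟩ := box_cut hk
    rw [hcon] at hu
    exact absurd hu (notMem_empty _)

lemma loc_sph (n : ℕ) : Loc {S : Set (Ed d) | (sph S (0 : V d) n).Nonempty} := by
  refine ⟨Ein (Lam 0 n), lat_Ein _, ?_⟩
  intro S S' h h2
  have := dp_sph (0 : V d) n S S' h
  simp only at this
  rw [Set.mem_ofPred_eq] at h2 ⊢
  rwa [← this]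

/-- bounded volumes exclude infinite clusters -/
theorem no_inf (q : I) {M : ℝ} (hM : ∀ n, GG d (q : ℝ) n ≤ M) :
    perc q {S : Set (Ed d) | ∃ C, IsInfiniteCluster S C} = 0 := by
  have h0 := q.2.1
  have h1 := q.2.2
  have key : (perc q).real {S : Set (Ed d) | Inf S 0} = 0 := by
    set θ := (perc q).real {S : Set (Ed d) | Inf S 0} with hθ
    have hθ0 : 0 ≤ θ := measureReal_nonneg
    have h2 : ∀ n : ℕ, ((n : ℝ) + 1) * θ ≤ M := by
      intro n
      refine le_trans ?_ (hM n)
      rw [← EE_ball_eq]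
      simp_rw [card_ball_eq]
      push_cast
      rw [EE, Ex_sum]
      have h3 : ∀ k ∈ range (n + 1), θ ≤
          Ex (fun _ => (q : ℝ)) (Ein (Lam 0 n)) (fun S => ((sph S (0 : V d) k).card : ℝ)) := by
        intro k hk
        have hk' : k ≤ n := by
          have := mem_range.mp hk
          omega
        have h4 : θ ≤ (perc q).real {S : Set (Ed d) | (sph S (0 : V d) k).Nonempty} :=
          perc_mono q fun S hS => inf_sph hS k
        refine h4.trans ?_
        rw [perc_det q (lat_Ein (Lam 0 n)) (A := {S : Set (Ed d) | (sph S (0 : V d) k).Nonempty})]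
        · rw [P0, ← Ex_ind]
          apply Ex_mono (wt_p h0 h1)
          intro S
          by_cases h5 : (sph S (0 : V d) k).Nonempty
          · refine (ind_le_one _).trans ?_
            exact_mod_cast Finset.card_pos.mpr h5
          · rw [ind_false (P := S ∈ {S : Set (Ed d) | (sph S (0 : V d) k).Nonempty}) h5]
            exact Nat.cast_nonneg _
        · intro S S' hS h5
          have := dp_sph (0 : V d) k S S' fun e he => hS e (Ein_mono (Lam_mono 0 hk') he)
          simp only at this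
          rw [Set.mem_ofPred_eq] at h5 ⊢
          rwa [← this]
      have h5 := sum_le_sum h3
      rw [sum_const, card_range, nsmul_eq_mul] at h5
      push_cast at h5
      exact h5
    by_contra hne
    have hpos : 0 < θ := lt_of_le_of_ne hθ0 (Ne.symm hne)
    obtain ⟨n, hn⟩ := exists_nat_gt (M / θ)
    rw [div_lt_iff₀ hpos] at hn
    have := h2 n
    nlinarith
  have h2 : ∀ x : V d, perc q {S : Set (Ed d) | Inf S x} = 0 := by
    intro x
    have h3 := perc_inf_shift q x
    rw [key] at h3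
    exact (measureReal_eq_zero_iff (by finiteness)).mp h3
  have h3 : {S : Set (Ed d) | ∃ C, IsInfiniteCluster S C} = ⋃ x : V d, {S | Inf S x} := by
    ext S
    rw [Set.mem_ofPred_eq, hasCluster_iff, Set.mem_iUnion]
    rfl
  rw [h3]
  exact measure_iUnion_null h2

/-! ### the critical point -/

lemma crit_set_nonempty (hd : 0 < d) : (1 : ℝ) ∈ {q : ℝ | ∃ hq : q ∈ Set.Icc (0 : ℝ) 1,
    0 < setBernoulli (lattice d).edgeSet ⟨q, hq⟩ {S | ∃ C, IsInfiniteCluster S C}} :=
  ⟨⟨zero_le_one, le_rfl⟩, perc_one hd⟩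

lemma crit_nonneg : 0 ≤ criticalProbability d :=
  Real.sInf_nonneg fun _ hq => hq.1.1

lemma crit_le_one (hd : 0 < d) : criticalProbability d ≤ 1 :=
  csInf_le ⟨0, fun _ hq => hq.1.1⟩ (crit_set_nonempty hd)

/-- expectations in finite volume are continuous in the parameter -/
lemma EE_continuous (E : Finset (Ed d)) (f : Set (Ed d) → ℝ) :
    Continuous fun q : ℝ => EE q E f := by
  unfold EE Ex wt
  simp only [prod_const]
  fun_prop

/-- **The expected size of every sphere is at least one at the critical point.** -/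
theorem lev_crit (hd : 0 < d) (j : ℕ) :
    1 ≤ EE (criticalProbability d) (Ein (Lam 0 j))
      (fun S => ((sph S (0 : V d) j).card : ℝ)) := by
  by_contra hcon
  push Not at hcon
  have h2 : ∀ᶠ q in nhds (criticalProbability d),
      EE q (Ein (Lam 0 j)) (fun S => ((sph S (0 : V d) j).card : ℝ)) < 1 :=
    (EE_continuous _ _).continuousAt.eventually (gt_mem_nhds hcon)
  obtain ⟨δ, hδ, hδ2⟩ := Metric.eventually_nhds_iff.mp h2
  obtain ⟨q, hq, hqlt⟩ := exists_lt_of_csInf_lt ⟨1, crit_set_nonempty hd⟩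
    (show sInf {q : ℝ | ∃ hq : q ∈ Set.Icc (0 : ℝ) 1,
      0 < setBernoulli (lattice d).edgeSet ⟨q, hq⟩ {S | ∃ C, IsInfiniteCluster S C}} <
      criticalProbability d + δ by
        change criticalProbability d < _
        linarith)
  obtain ⟨hq01, hqpos⟩ := hq
  have h3 : criticalProbability d ≤ q := csInf_le ⟨0, fun _ hq => hq.1.1⟩ ⟨hq01, hqpos⟩
  have h4 := hδ2 (y := q) (by
    rw [Real.dist_eq, abs_of_nonneg (by linarith)]
    linarith)
  obtain ⟨M, hM⟩ := GG_bounded hq01.1 hq01.2 h4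
  have h5 := no_inf (d := d) ⟨q, hq01⟩ hM
  rw [h5] at hqpos
  exact lt_irrefl _ hqpos

theorem crit_pos (hd : 0 < d) : 0 < criticalProbability d := by
  rcases (crit_nonneg (d := d)).lt_or_eq with h | h
  · exact h
  · exfalso
    have h2 := lev_crit hd 1
    rw [← h] at h2
    have h3 : EE (0 : ℝ) (Ein (Lam 0 1)) (fun S => ((sph S (0 : V d) 1).card : ℝ)) = 0 := by
      unfold EE Ex
      apply sum_eq_zero
      intro ω _
      rcases ω.eq_empty_or_nonempty with rfl | hne
      · have : sph ((∅ : Finset (Ed d)) : Set (Ed d)) (0 : V d) 1 = ∅ := by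
          rw [Finset.eq_empty_iff_forall_notMem]
          intro y hy
          rw [mem_sph_succ, rch_succ, rch_zero] at hy
          rcases hy.1 with h4 | ⟨z, _, _, h4⟩
          · exact hy.2 h4
          · simp at h4
        simp only [this]
        simp
      · have : wt (fun _ : Ed d => (0 : ℝ)) (Ein (Lam 0 1)) ω = 0 := by
          unfold wt
          rw [prod_const, zero_pow (Finset.card_pos.mpr hne).ne', zero_mul]
        rw [this, zero_mul]
    rw [h3] at h2
    linarith

lemma tau_line (h0 : 0 ≤ p) (h1 : p ≤ 1) (i : Fin d) (n : ℕ) :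
    p ^ n ≤ tau p ((n : ℤ) • uv i : V d) := by
  induction n with
  | zero =>
    simp only [pow_zero, Nat.cast_zero, zero_smul]
    rw [tau_zero h0 h1]
  | succ n ih =>
    have a1 : p ≤ tau p (uv i : V d) := tau_adj h0 h1 (by
      have := adj_add (0 : V d) i
      rwa [zero_add] at this)
    have a2 := tau_mul_le h0 h1 ((n : ℤ) • uv i : V d) (uv i)
    have a3 : (((n + 1 : ℕ) : ℤ) • uv i : V d) = (n : ℤ) • uv i + uv i := by
      push_cast
      rw [add_smul, one_smul]
    rw [a3, pow_succ]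
    exact (mul_le_mul ih a1 h0 (tau_nonneg h0 h1 _)).trans a2

theorem crit_lt_one (hd : 0 < d) (hT : Tri d (criticalProbability d)) :
    criticalProbability d < 1 := by
  rcases (crit_le_one hd).lt_or_eq with h | h
  · exact h
  · exfalso
    rw [h] at hT
    obtain ⟨R, hR⟩ := tau_small (d := d) zero_le_one le_rfl hT (show (0 : ℝ) < 1 / 2 by norm_num)
    have h2 := tau_line (d := d) (p := 1) zero_le_one le_rfl ⟨0, hd⟩ R
    have h3 := hR ((R : ℤ) • uv ⟨0, hd⟩) (by
      have := le_dst (0 : V d) ((R : ℤ) • uv ⟨0, hd⟩) ⟨0, hd⟩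
      rw [Pi.zero_apply, Pi.smul_apply, uv_same, smul_eq_mul, mul_one, zero_sub, abs_neg,
        Nat.abs_cast] at this
      exact_mod_cast this)
    rw [one_pow] at h2
    linarith

end Pool.Agent.Lib.MP_06caae_pr
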