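import Pool.Agent.Lib.MP_06caae_pr.Psd

/-!
# The open triangle diagram
-/

open Finset SimpleGraph
open Pool.Agent.Lib.MP_566bac_pr.Zd

namespace Pool.Agent.Lib.MP_06caae_pr

variable {d : ℕ} {p : ℝ}

/-- the terms of the triangle diagram -/
noncomputable def triF (p : ℝ) (q : V d × V d) : ℝ := tau p q.1 * tau p (q.2 - q.1) * tau p q.2

lemma triF_nonneg (h0 : 0 ≤ p) (h1 : p ≤ 1) (q : V d × V d) : 0 ≤ triF p q :=
  mul_nonneg (mul_nonneg (tau_nonneg h0 h1 _) (tau_nonneg h0 h1 _)) (tau_nonneg h0 h1 _)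

open Classical in
/-- the tail of the triangle diagram -/
noncomputable def tl (d : ℕ) (p : ℝ) (K : ℕ) : ℝ :=
  ∑' q : V d × V d, if K < dst 0 q.1 ∧ K < dst 0 q.2 then triF p q else 0

lemma nab_zero (h0 : 0 ≤ p) (h1 : p ≤ 1) : nab p (0 : V d) = ∑' q : V d × V d, triF p q := by
  unfold nab triF
  congr 1
  ext q
  rw [zero_sub, tau_neg h0 h1]

lemma nab_zero_nonneg (h0 : 0 ≤ p) (h1 : p ≤ 1) : 0 ≤ nab p (0 : V d) := by
  rw [nab_zero h0 h1]
  exact tsum_nonneg fun q => triF_nonneg h0 h1 q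

/-- partial sums of the triangle diagram -/
lemma sum_triF_le (h0 : 0 ≤ p) (h1 : p ≤ 1) (hT : Tri d p) (Q : Finset (V d × V d)) :
    ∑ q ∈ Q, triF p q ≤ nab p (0 : V d) := by
  rw [nab_zero h0 h1]
  exact hT.sum_le_tsum Q fun q _ => triF_nonneg h0 h1 q

lemma tl_summable (h0 : 0 ≤ p) (h1 : p ≤ 1) (hT : Tri d p) (K : ℕ) :
    Summable fun q : V d × V d => if K < dst 0 q.1 ∧ K < dst 0 q.2 then triF p q else 0 := by
  refine Summable.of_nonneg_of_le (fun q => ?_) (fun q => ?_) hT
  · split_ifs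
    · exact triF_nonneg h0 h1 q
    · exact le_rfl
  · split_ifs
    · exact le_rfl
    · exact triF_nonneg h0 h1 q

open Classical in
lemma sum_tl_le (h0 : 0 ≤ p) (h1 : p ≤ 1) (hT : Tri d p) (K : ℕ) (Q : Finset (V d × V d)) :
    ∑ q ∈ Q, (if K < dst 0 q.1 ∧ K < dst 0 q.2 then triF p q else 0) ≤ tl d p K := by
  have h2 := tl_summable h0 h1 hT K
  unfold tl
  refine le_trans (le_of_eq ?_) ((h2.sum_le_tsum Q fun q _ => ?_).trans (le_of_eq ?_))
  · apply sum_congr rfl
    intro q _
    by_cases h : K < dst 0 q.1 ∧ K < dst 0 q.2 <;> simp [h]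
  · split_ifs
    · exact triF_nonneg h0 h1 q
    · exact le_rfl
  · rfl

lemma tl_nonneg (h0 : 0 ≤ p) (h1 : p ≤ 1) (K : ℕ) : 0 ≤ tl d p K := by
  classical
  unfold tl
  refine tsum_nonneg fun q => ?_
  split_ifs
  · exact triF_nonneg h0 h1 q
  · exact le_rfl

lemma tl_tendsto (h0 : 0 ≤ p) (h1 : p ≤ 1) (hT : Tri d p) :
    Filter.Tendsto (fun K => tl d p K) Filter.atTop (nhds 0) := by
  classical
  have h2 : (0 : ℝ) = ∑' _ : V d × V d, (0 : ℝ) := by simp
  rw [h2]
  refine tendsto_tsum_of_dominated_convergence (bound := fun q => triF p q) hT ?_ ?_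
  · intro q
    refine tendsto_const_nhds.congr' ?_
    filter_upwards [Filter.eventually_ge_atTop (dst 0 q.1)] with K hK
    rw [if_neg]
    rintro ⟨h3, _⟩
    omega
  · filter_upwards with K q
    rw [Real.norm_eq_abs]
    split_ifs
    · rw [abs_of_nonneg (triF_nonneg h0 h1 q)]
    · rw [abs_zero]
      exact triF_nonneg h0 h1 q

/-- the two-point function is square summable -/
lemma tau_sq_summable (h0 : 0 ≤ p) (h1 : p ≤ 1) (hT : Tri d p) :
    Summable fun x : V d => tau p x ^ 2 := by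
  have h2 : Function.Injective fun x : V d => (x, x) := fun x y h => congrArg Prod.fst h
  have h3 := hT.comp_injective h2
  refine h3.congr fun x => ?_
  simp only [Function.comp, sub_self, tau_zero h0 h1]
  ring

/-- the two-point function vanishes at infinity -/
lemma tau_small (h0 : 0 ≤ p) (h1 : p ≤ 1) (hT : Tri d p) {ε : ℝ} (hε : 0 < ε) :
    ∃ R : ℕ, ∀ x : V d, R ≤ dst 0 x → tau p x ≤ ε := by
  classical
  have h2 := (tau_sq_summable h0 h1 hT).tendsto_cofinite_zero
  have h3 : ∀ᶠ x : V d in Filter.cofinite, tau p x ^ 2 < ε ^ 2 :=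
    h2.eventually (gt_mem_nhds (by positivity))
  rw [Filter.eventually_cofinite] at h3
  refine ⟨h3.toFinset.sup (fun x => dst 0 x) + 1, fun x hx => ?_⟩
  by_contra hcon
  push Not at hcon
  have h4 : x ∈ h3.toFinset := by
    rw [Set.Finite.mem_toFinset, Set.mem_ofPred_eq, not_lt]
    exact pow_le_pow_left₀ hε.le hcon.le 2
  have h5 : dst 0 x ≤ h3.toFinset.sup (fun x => dst 0 x) :=
    Finset.le_sup (f := fun x => dst 0 x) h4
  omega

/-! ### the open diagram -/

/-- a factor seen from the other end -/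
lemma BB_reflect (h0 : 0 ≤ p) (h1 : p ≤ 1) [DecidableEq (V d)] (A : Finset (V d)) (e : V d)
    (g : V d → ℝ) :
    BB p A (fun x => g (e - x)) (fun x => g (e - x)) =
      BB p (A.image fun x => e - x) g g := by
  unfold BB
  have hinj : Set.InjOn (fun x : V d => e - x) (A : Set (V d)) := fun a _ b _ h => by
    simpa using h
  rw [sum_image hinj]
  apply sum_congr rfl
  intro x _
  rw [sum_image hinj]
  apply sum_congr rfl
  intro y _
  rw [show (e - y) - (e - x) = x - y by abel, tau_sub_comm h0 h1 x y]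

open Classical in
/-- the two-point function beyond distance `K` -/
noncomputable def tOut (p : ℝ) (K : ℕ) (x : V d) : ℝ := if K < dst 0 x then tau p x else 0

open Classical in
/-- the two-point function up to distance `K` -/
noncomputable def tIn (p : ℝ) (K : ℕ) (x : V d) : ℝ := if K < dst 0 x then 0 else tau p x

lemma tIn_add_tOut (K : ℕ) (x : V d) : tIn p K x + tOut p K x = tau p x := by
  unfold tIn tOut
  split_ifs <;> simp

lemma tIn_nonneg (h0 : 0 ≤ p) (h1 : p ≤ 1) (K : ℕ) (x : V d) : 0 ≤ tIn p K x := by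
  unfold tIn
  split_ifs
  · exact le_rfl
  · exact tau_nonneg h0 h1 x

lemma tOut_nonneg (h0 : 0 ≤ p) (h1 : p ≤ 1) (K : ℕ) (x : V d) : 0 ≤ tOut p K x := by
  unfold tOut
  split_ifs
  · exact tau_nonneg h0 h1 x
  · exact le_rfl

lemma tIn_le (h0 : 0 ≤ p) (h1 : p ≤ 1) (K : ℕ) (x : V d) : tIn p K x ≤ tau p x := by
  have := tIn_add_tOut (p := p) K x
  have := tOut_nonneg h0 h1 K x
  linarith

lemma BB_tOut (h0 : 0 ≤ p) (h1 : p ≤ 1) (hT : Tri d p) (K : ℕ) (A : Finset (V d)) :
    BB p A (tOut p K) (tOut p K) ≤ tl d p K := by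
  classical
  refine le_trans (le_of_eq ?_) (sum_tl_le h0 h1 hT K (A ×ˢ A))
  unfold BB
  rw [sum_product]
  apply sum_congr rfl
  intro x _
  apply sum_congr rfl
  intro y _
  unfold tOut triF
  by_cases h2 : K < dst 0 x <;> by_cases h3 : K < dst 0 y <;> simp [h2, h3]
  ring

lemma BB_tau (h0 : 0 ≤ p) (h1 : p ≤ 1) (hT : Tri d p) (A : Finset (V d)) :
    BB p A (tau p) (tau p) ≤ nab p (0 : V d) := by
  refine le_trans (le_of_eq ?_) (sum_triF_le h0 h1 hT (A ×ˢ A))
  unfold BB
  rw [sum_product]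
  apply sum_congr rfl
  intro x _
  apply sum_congr rfl
  intro y _
  unfold triF
  ring

lemma BB_mono (h0 : 0 ≤ p) (h1 : p ≤ 1) (A : Finset (V d)) {f f' g g' : V d → ℝ}
    (hf : ∀ x, 0 ≤ f x) (hg : ∀ x, 0 ≤ g x) (hff : ∀ x, f x ≤ f' x) (hgg : ∀ x, g x ≤ g' x) :
    BB p A f g ≤ BB p A f' g' := by
  unfold BB
  apply sum_le_sum
  intro x _
  apply sum_le_sum
  intro y _
  apply mul_le_mul_of_nonneg_right _ (tau_nonneg h0 h1 _)
  exact mul_le_mul (hff x) (hgg y) (hg y) ((hf x).trans (hff x))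

/-- partial sums of the open diagram -/
lemma open_le (h0 : 0 ≤ p) (h1 : p ≤ 1) (hT : Tri d p) (A : Finset (V d)) (e : V d) :
    ∑ x ∈ A, ∑ y ∈ A, tau p x * tau p (y - x) * tau p (e - y) ≤ nab p (0 : V d) := by
  classical
  have h2 : ∑ x ∈ A, ∑ y ∈ A, tau p x * tau p (y - x) * tau p (e - y) =
      BB p A (tau p) (fun y => tau p (e - y)) := by
    unfold BB
    apply sum_congr rfl
    intro x _
    apply sum_congr rfl
    intro y _
    ring
  rw [h2]
  have h3 := BB_le_sqrt h0 h1 A (tau p) (fun y => tau p (e - y)) (BB_tau h0 h1 hT A)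
    (b := nab p (0 : V d)) (by
      rw [BB_reflect h0 h1 A e (tau p)]
      exact BB_tau h0 h1 hT _)
  rwa [Real.sqrt_mul_self (nab_zero_nonneg h0 h1)] at h3

/-- the terms of the open diagram are summable -/
lemma nab_summable (h0 : 0 ≤ p) (h1 : p ≤ 1) (hT : Tri d p) (e : V d) :
    Summable fun q : V d × V d => tau p q.1 * tau p (q.2 - q.1) * tau p (e - q.2) := by
  classical
  refine summable_of_sum_le (c := nab p (0 : V d)) (fun q => ?_) (fun Q => ?_)
  · exact mul_nonneg (mul_nonneg (tau_nonneg h0 h1 _) (tau_nonneg h0 h1 _))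
      (tau_nonneg h0 h1 _)
  · set A : Finset (V d) := Q.image Prod.fst ∪ Q.image Prod.snd with hA
    refine le_trans ?_ (open_le h0 h1 hT A e)
    rw [← sum_product']
    apply sum_le_sum_of_subset_of_nonneg
    · intro q hq
      rw [mem_product, hA]
      exact ⟨mem_union_left _ (mem_image_of_mem _ hq), mem_union_right _ (mem_image_of_mem _ hq)⟩
    · intro q _ _
      exact mul_nonneg (mul_nonneg (tau_nonneg h0 h1 _) (tau_nonneg h0 h1 _))
        (tau_nonneg h0 h1 _)

lemma nab_nonneg (h0 : 0 ≤ p) (h1 : p ≤ 1) (e : V d) : 0 ≤ nab p e :=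
  tsum_nonneg fun _ => mul_nonneg (mul_nonneg (tau_nonneg h0 h1 _) (tau_nonneg h0 h1 _))
    (tau_nonneg h0 h1 _)

/-- how to bound the open diagram -/
lemma nab_le_of (h0 : 0 ≤ p) (h1 : p ≤ 1) (hT : Tri d p) (e : V d) {c : ℝ}
    (h : ∀ A : Finset (V d), BB p A (tau p) (fun y => tau p (e - y)) ≤ c) : nab p e ≤ c := by
  classical
  refine (nab_summable h0 h1 hT e).tsum_le_of_sum_le fun Q => ?_
  set A : Finset (V d) := Q.image Prod.fst ∪ Q.image Prod.snd with hA
  refine le_trans ?_ (h A)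
  have h2 : BB p A (tau p) (fun y => tau p (e - y)) =
      ∑ q ∈ A ×ˢ A, tau p q.1 * tau p (q.2 - q.1) * tau p (e - q.2) := by
    unfold BB
    rw [sum_product]
    apply sum_congr rfl
    intro x _
    apply sum_congr rfl
    intro y _
    ring
  rw [h2]
  apply sum_le_sum_of_subset_of_nonneg
  · intro q hq
    rw [mem_product, hA]
    exact ⟨mem_union_left _ (mem_image_of_mem _ hq), mem_union_right _ (mem_image_of_mem _ hq)⟩
  · intro q _ _
    exact mul_nonneg (mul_nonneg (tau_nonneg h0 h1 _) (tau_nonneg h0 h1 _))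
      (tau_nonneg h0 h1 _)

theorem nab_le_zero (h0 : 0 ≤ p) (h1 : p ≤ 1) (hT : Tri d p) (e : V d) :
    nab p e ≤ nab p (0 : V d) := by
  refine nab_le_of h0 h1 hT e fun A => ?_
  refine le_trans (le_of_eq ?_) (open_le h0 h1 hT A e)
  unfold BB
  apply sum_congr rfl
  intro x _
  apply sum_congr rfl
  intro y _
  ring

/-- use of the open diagram: partial sums with any end points -/
theorem sum_le_nab (h0 : 0 ≤ p) (h1 : p ≤ 1) (hT : Tri d p) (A B : Finset (V d)) (a b : V d) :
    ∑ x ∈ A, ∑ y ∈ B, tau p (x - a) * tau p (y - x) * tau p (b - y) ≤ nab p (b - a) := by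
  classical
  have h2 : ∑ x ∈ A, ∑ y ∈ B, tau p (x - a) * tau p (y - x) * tau p (b - y) =
      ∑ q ∈ (A.image fun x => x - a) ×ˢ (B.image fun y => y - a),
        tau p q.1 * tau p (q.2 - q.1) * tau p (b - a - q.2) := by
    have hA : Set.InjOn (fun x : V d => x - a) (A : Set (V d)) := fun u _ v _ h => by
      simpa using h
    have hB : Set.InjOn (fun x : V d => x - a) (B : Set (V d)) := fun u _ v _ h => by
      simpa using h
    rw [sum_product, sum_image hA]
    apply sum_congr rfl
    intro x _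
    rw [sum_image hB]
    apply sum_congr rfl
    intro y _
    simp only
    rw [sub_sub_sub_cancel_right, sub_sub_sub_cancel_right]
  rw [h2]
  exact (nab_summable h0 h1 hT (b - a)).sum_le_tsum _ fun q _ =>
    mul_nonneg (mul_nonneg (tau_nonneg h0 h1 _) (tau_nonneg h0 h1 _)) (tau_nonneg h0 h1 _)

/-- the convolution of two two-point functions -/
theorem sum_conv_le (h0 : 0 ≤ p) (h1 : p ≤ 1) (hT : Tri d p) (A : Finset (V d)) (a b : V d) :
    ∑ x ∈ A, tau p (x - a) * tau p (b - x) ≤ nab p (b - a) := by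
  refine le_trans ?_ (sum_le_nab h0 h1 hT A A a b)
  apply sum_le_sum
  intro x hx
  refine le_trans (le_of_eq ?_) (single_le_sum (f := fun y =>
    tau p (x - a) * tau p (y - x) * tau p (b - y)) (fun y _ =>
      mul_nonneg (mul_nonneg (tau_nonneg h0 h1 _) (tau_nonneg h0 h1 _)) (tau_nonneg h0 h1 _)) hx)
  rw [sub_self, tau_zero h0 h1]
  ring

/-- **The open triangle diagram vanishes at infinity.** -/
theorem nab_small (h0 : 0 ≤ p) (h1 : p ≤ 1) (hT : Tri d p) {ε : ℝ} (hε : 0 < ε) :
    ∃ R : ℕ, ∀ e : V d, R ≤ dst 0 e → nab p e ≤ ε := by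
  classical
  set N0 := nab p (0 : V d) with hN0
  have hN0' : 0 ≤ N0 := nab_zero_nonneg h0 h1
  -- the tail
  set δ : ℝ := min (ε / 4) ((ε / 4) ^ 2 / (N0 + 1)) with hδ
  have hδ0 : 0 < δ := lt_min (by positivity) (by positivity)
  obtain ⟨K, hK⟩ := ((tl_tendsto h0 h1 hT).eventually (gt_mem_nhds hδ0)).exists
  have hK1 : tl d p K ≤ ε / 4 := hK.le.trans (min_le_left _ _)
  have hK2 : tl d p K * N0 ≤ (ε / 4) ^ 2 := by
    have h2 : tl d p K ≤ (ε / 4) ^ 2 / (N0 + 1) := hK.le.trans (min_le_right _ _)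
    rw [le_div_iff₀ (by positivity)] at h2
    have := tl_nonneg (d := d) h0 h1 K
    nlinarith
  -- the middle part
  set n : ℝ := ((Lam (0 : V d) K).card : ℝ) with hn
  have hn0 : 0 ≤ n := Nat.cast_nonneg _
  obtain ⟨R, hR⟩ := tau_small (d := d) h0 h1 hT (show 0 < ε / 4 / (n ^ 2 + 1) by positivity)
  refine ⟨R + 2 * K, fun e he => ?_⟩
  refine nab_le_of h0 h1 hT e fun A => ?_
  have e1 : (fun y => tau p (e - y)) = fun y => tIn p K (e - y) + tOut p K (e - y) := by
    ext y
    rw [tIn_add_tOut]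
  have e2 : (tau p : V d → ℝ) = fun x => tIn p K x + tOut p K x := by
    ext x
    rw [tIn_add_tOut]
  have hout : BB p A (fun y => tOut p K (e - y)) (fun y => tOut p K (e - y)) ≤ tl d p K := by
    rw [BB_reflect h0 h1 A e (tOut p K)]
    exact BB_tOut h0 h1 hT K _
  have hin : BB p A (fun y => tIn p K (e - y)) (fun y => tIn p K (e - y)) ≤ N0 := by
    rw [BB_reflect h0 h1 A e (tIn p K)]
    exact (BB_mono h0 h1 _ (tIn_nonneg h0 h1 K) (tIn_nonneg h0 h1 K) (tIn_le h0 h1 K)
      (tIn_le h0 h1 K)).trans (BB_tau h0 h1 hT _)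
  have hin' : BB p A (tIn p K) (tIn p K) ≤ N0 :=
    (BB_mono h0 h1 _ (tIn_nonneg h0 h1 K) (tIn_nonneg h0 h1 K) (tIn_le h0 h1 K)
      (tIn_le h0 h1 K)).trans (BB_tau h0 h1 hT _)
  have b1 : BB p A (tOut p K) (fun y => tOut p K (e - y)) ≤ ε / 4 := by
    refine (BB_le_sqrt h0 h1 A _ _ (BB_tOut h0 h1 hT K A) hout).trans ?_
    rw [Real.sqrt_mul_self (tl_nonneg h0 h1 K)]
    exact hK1
  have b2 : BB p A (tOut p K) (fun y => tIn p K (e - y)) ≤ ε / 4 := by
    refine (BB_le_sqrt h0 h1 A _ _ (BB_tOut h0 h1 hT K A) hin).trans ?_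
    rw [show ε / 4 = Real.sqrt ((ε / 4) ^ 2) by rw [Real.sqrt_sq (by positivity)]]
    exact Real.sqrt_le_sqrt hK2
  have b3 : BB p A (tIn p K) (fun y => tOut p K (e - y)) ≤ ε / 4 := by
    refine (BB_le_sqrt h0 h1 A _ _ hin' hout).trans ?_
    rw [show ε / 4 = Real.sqrt ((ε / 4) ^ 2) by rw [Real.sqrt_sq (by positivity)], mul_comm]
    exact Real.sqrt_le_sqrt hK2
  have b4 : BB p A (tIn p K) (fun y => tIn p K (e - y)) ≤ ε / 4 := by
    have c1 : ∀ x ∈ A, ∀ y ∈ A, tIn p K x * tIn p K (e - y) * tau p (y - x) ≤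
        if x ∈ Lam 0 K ∧ y ∈ (Lam 0 K).image (fun z => e - z) then ε / 4 / (n ^ 2 + 1)
        else 0 := by
      intro x _ y _
      by_cases hx : K < dst 0 x
      · have : tIn p K x = 0 := by
          unfold tIn
          rw [if_pos hx]
        rw [this, zero_mul, zero_mul]
        split_ifs
        · positivity
        · exact le_rfl
      · by_cases hy : K < dst 0 (e - y)
        · have : tIn p K (e - y) = 0 := by
            unfold tIn
            rw [if_pos hy]
          rw [this, mul_zero, zero_mul]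
          split_ifs
          · positivity
          · exact le_rfl
        · rw [if_pos]
          · have c2 : tIn p K x ≤ 1 := (tIn_le h0 h1 K x).trans (tau_le_one h0 h1 x)
            have c3 : tIn p K (e - y) ≤ 1 :=
              (tIn_le h0 h1 K _).trans (tau_le_one h0 h1 _)
            have c4 : tau p (y - x) ≤ ε / 4 / (n ^ 2 + 1) := by
              apply hR
              have d1 := dst_tri 0 y e
              have d2 := dst_tri 0 x y
              have d3 : dst y e = dst 0 (e - y) := by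
                unfold dst
                congr 1
                ext i
                simp only [Pi.sub_apply, Pi.zero_apply]
                congr 1
                ring
              have d4 : dst x y = dst 0 (y - x) := by
                unfold dst
                congr 1
                ext i
                simp only [Pi.sub_apply, Pi.zero_apply]
                congr 1
                ring
              rw [d3] at d1
              rw [d4] at d2
              omega
            calc tIn p K x * tIn p K (e - y) * tau p (y - x)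
                ≤ 1 * 1 * tau p (y - x) := by
                  apply mul_le_mul_of_nonneg_right _ (tau_nonneg h0 h1 _)
                  exact mul_le_mul c2 c3 (tIn_nonneg h0 h1 K _) zero_le_one
              _ ≤ _ := by rw [one_mul, one_mul]; exact c4
          · constructor
            · rw [mem_Lam, dst_comm]
              omega
            · rw [mem_image]
              refine ⟨e - y, ?_, by abel⟩
              rw [mem_Lam, dst_comm]
              omega
    have c5 : BB p A (tIn p K) (fun y => tIn p K (e - y)) ≤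
        ∑ x ∈ A, ∑ y ∈ A, if x ∈ Lam 0 K ∧ y ∈ (Lam 0 K).image (fun z => e - z)
          then ε / 4 / (n ^ 2 + 1) else 0 :=
      sum_le_sum fun x hx => sum_le_sum fun y hy => c1 x hx y hy
    refine c5.trans ?_
    have c6 : ∑ x ∈ A, ∑ y ∈ A, (if x ∈ Lam 0 K ∧ y ∈ (Lam 0 K).image (fun z => e - z)
        then ε / 4 / (n ^ 2 + 1) else 0) ≤
        ∑ x ∈ Lam (0 : V d) K, ∑ y ∈ (Lam (0 : V d) K).image (fun z => e - z),
          ε / 4 / (n ^ 2 + 1) := by
      rw [← sum_product', ← sum_product', ← sum_filter]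
      apply sum_le_sum_of_subset_of_nonneg
      · intro q hq
        rw [mem_filter] at hq
        rw [mem_product]
        exact hq.2
      · intro q _ _
        positivity
    refine c6.trans ?_
    rw [sum_const, sum_const, nsmul_eq_mul, nsmul_eq_mul]
    have c7 : (((Lam (0 : V d) K).image (fun z => e - z)).card : ℝ) ≤ n := by
      rw [hn]
      exact_mod_cast card_image_le
    have c8 : (0 : ℝ) ≤ ε / 4 / (n ^ 2 + 1) := by positivity
    calc n * ((((Lam (0 : V d) K).image (fun z => e - z)).card : ℝ) * (ε / 4 / (n ^ 2 + 1)))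
        ≤ n * (n * (ε / 4 / (n ^ 2 + 1))) :=
          mul_le_mul_of_nonneg_left (mul_le_mul_of_nonneg_right c7 c8) hn0
      _ = (ε / 4) * (n ^ 2 / (n ^ 2 + 1)) := by ring
      _ ≤ (ε / 4) * 1 := by
          apply mul_le_mul_of_nonneg_left _ (by positivity)
          rw [div_le_one (by positivity)]
          linarith
      _ = ε / 4 := mul_one _
  rw [e1, BB_add_right]
  rw [e2] at *
  rw [BB_add_left, BB_add_left]
  linarith

/-- the tail of the open diagram, for a fixed end point -/
theorem nabt_small (h0 : 0 ≤ p) (h1 : p ≤ 1) (hT : Tri d p) (e : V d) {ε : ℝ} (hε : 0 < ε) :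
    ∃ l0 : ℕ, ∀ l ≥ l0, nabt p l e ≤ ε := by
  classical
  have h2 : Filter.Tendsto (fun l => nabt p l e) Filter.atTop (nhds 0) := by
    have h3 : (0 : ℝ) = ∑' _ : V d × V d, (0 : ℝ) := by simp
    rw [h3]
    refine tendsto_tsum_of_dominated_convergence
      (bound := fun q => tau p q.1 * tau p (q.2 - q.1) * tau p (e - q.2))
      (nab_summable h0 h1 hT e) ?_ ?_
    · intro q
      refine tendsto_const_nhds.congr' ?_
      filter_upwards [Filter.eventually_ge_atTop (dst 0 (e - q.2))] with l hl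
      rw [if_neg (by omega)]
    · filter_upwards with l q
      have h4 : 0 ≤ tau p q.1 * tau p (q.2 - q.1) * tau p (e - q.2) :=
        mul_nonneg (mul_nonneg (tau_nonneg h0 h1 _) (tau_nonneg h0 h1 _)) (tau_nonneg h0 h1 _)
      rw [Real.norm_eq_abs]
      split_ifs
      · rw [abs_of_nonneg h4]
      · rw [abs_zero]
        exact h4
  obtain ⟨l0, hl0⟩ := (Filter.eventually_atTop.mp (h2.eventually (gt_mem_nhds hε)))
  exact ⟨l0, fun l hl => (hl0 l hl).le⟩

end Pool.Agent.Lib.MP_06caae_pr
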