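import Pool.Agent.Lib.MP_06caae_pr.Lev1

/-!
# Finite volumes and the infinite volume measure
-/

open Finset SimpleGraph MeasureTheory ProbabilityTheory unitInterval
open Pool.Agent.Lib.MP_566bac_pr.Zd

namespace Pool.Agent.Lib.MP_06caae_pr

variable {d : ℕ}

/-- increasing events are more likely in infinite volume -/
theorem PE_le_perc (q : I) (E : Finset (Ed d)) {A : Set (Set (Ed d))} (hA : Inc A)
    (hd : Dp (lattice d).edgeSet A) : PE q E A ≤ (perc q).real A := by
  classical
  set F := E.filter fun e => e ∈ (lattice d).edgeSet with hF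
  have hF1 : Lat F := fun e he => (mem_filter.mp he).2
  have h1 : PE q E A = PE q F A := by
    rw [PE, PE, ← Ex_ind, ← Ex_ind]
    refine Ex_eq_of_dp (filter_subset _ _) (dpF_ind hd) ?_
    intro e he hl
    exact mem_filter.mpr ⟨he, hl⟩
  have h2 : Det F {S : Set (Ed d) | S ∩ (F : Set (Ed d)) ∈ A} := by
    intro S S' h h3
    have : S' ∩ (F : Set (Ed d)) = S ∩ (F : Set (Ed d)) := by
      ext e
      constructor
      · rintro ⟨h4, h5⟩
        exact ⟨(h e h5).mpr h4, h5⟩
      · rintro ⟨h4, h5⟩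
        exact ⟨(h e h5).mp h4, h5⟩
    rw [Set.mem_ofPred_eq] at h3 ⊢
    rwa [this]
  have h3 : PE q F A = (perc q).real {S : Set (Ed d) | S ∩ (F : Set (Ed d)) ∈ A} := by
    rw [perc_det q hF1 h2, P0, PE]
    apply Pr_congr
    intro ω hω
    rw [Set.mem_ofPred_eq]
    have : (ω : Set (Ed d)) ∩ (F : Set (Ed d)) = ω := by
      rw [Set.inter_eq_left]
      exact_mod_cast hω
    rw [this]
  rw [h1, h3]
  exact perc_mono q fun S hS => hA _ _ Set.inter_subset_left hS

/-- the limit of large boxes, for events with finite certificates -/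
theorem perc_le_of (q : I) {A : Set (Set (Ed d))} (hA : Inc A) (hd : Dp (lattice d).edgeSet A)
    (hfin : ∀ S ∈ A, ∃ J : Finset (Ed d), (J : Set (Ed d)) ⊆ S ∧ (J : Set (Ed d)) ∈ A) {c : ℝ}
    (hc : ∀ N : ℕ, PE q (Ein (Lam 0 N)) A ≤ c) : (perc q).real A ≤ c := by
  classical
  set B : ℕ → Set (Set (Ed d)) := fun N => {S | S ∩ (Ein (Lam (0 : V d) N) : Set (Ed d)) ∈ A}
    with hB
  have hmono : Monotone B := by
    intro m n hmn S hS
    refine hA _ _ ?_ hS
    rintro e ⟨h1, h2⟩
    exact ⟨h1, Ein_mono (Lam_mono 0 hmn) h2⟩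
  have hU : A ⊆ ⋃ N, B N := by
    intro S hS
    obtain ⟨J, hJ, hJA⟩ := hfin S hS
    obtain ⟨N, hN⟩ := exists_box J (0 : V d)
    rw [Set.mem_iUnion]
    refine ⟨N, ?_⟩
    have h2 : (J : Set (Ed d)) ∩ (Ein (Lam (0 : V d) N) : Set (Ed d)) ∈ A := by
      refine (hd (J : Set (Ed d)) _ ?_).mp hJA
      intro e he
      constructor
      · intro h3
        exact ⟨h3, hN e h3 he⟩
      · exact fun h3 => h3.1
    exact hA _ _ (Set.inter_subset_inter_left _ hJ) h2
  have hdet : ∀ N, Det (Ein (Lam (0 : V d) N)) (B N) := by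
    intro N S S' h h3
    have : S' ∩ (Ein (Lam (0 : V d) N) : Set (Ed d)) = S ∩ (Ein (Lam (0 : V d) N) : Set (Ed d)) := by
      ext e
      constructor
      · rintro ⟨h4, h5⟩
        exact ⟨(h e h5).mpr h4, h5⟩
      · rintro ⟨h4, h5⟩
        exact ⟨(h e h5).mp h4, h5⟩
    rw [hB, Set.mem_ofPred_eq] at h3 ⊢
    rwa [this]
  have hBc : ∀ N, (perc q).real (B N) ≤ c := by
    intro N
    rw [perc_det q (lat_Ein _) (hdet N)]
    refine le_trans (le_of_eq ?_) (hc N)
    rw [P0, PE]
    apply Pr_congr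
    intro ω hω
    rw [hB, Set.mem_ofPred_eq]
    have : (ω : Set (Ed d)) ∩ (Ein (Lam (0 : V d) N) : Set (Ed d)) = ω := by
      rw [Set.inter_eq_left]
      exact_mod_cast hω
    rw [this]
  have h1 : Filter.Tendsto (fun N => (perc q).real (B N)) Filter.atTop
      (nhds ((perc q).real (⋃ N, B N))) := by
    have h2 := tendsto_measure_iUnion_atTop (μ := perc q) hmono
    have h3 := (ENNReal.tendsto_toReal (measure_ne_top (perc q) (⋃ N, B N))).comp h2
    exact h3
  exact (perc_mono q hU).trans (le_of_tendsto' h1 hBc)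

/-- the two-point function in infinite volume -/
theorem perc_con (q : I) (x y : V d) :
    (perc q).real {S : Set (Ed d) | Con S x y} = tau q (y - x) := by
  apply le_antisymm
  · refine perc_le_of q (inc_Con x y) (dp_con x y) ?_ fun N => PE_le_tau q.2.1 q.2.2 _ x y
    intro S hS
    obtain ⟨r, hr⟩ := con_iff.mp (show Con S x y from hS)
    obtain ⟨J, hJ, hJr⟩ := rch_fin hr
    exact ⟨J, hJ, hJr.con⟩
  · apply le_of_forall_pos_le_add
    intro ε hε
    obtain ⟨N, hN⟩ := tau_approx q.2.1 q.2.2 x y hε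
    have h1 := hN N le_rfl
    have h2 := PE_le_perc q (Ein (Lam (0 : V d) N)) (inc_Con x y) (dp_con x y)
    linarith

/-- the truncated two-point function in infinite volume -/
theorem perc_rch (q : I) (x y : V d) (r : ℕ) :
    (perc q).real {S : Set (Ed d) | Rch S x r y} = ppi q r (y - x) := by
  rw [← qpi_eq q.2.1 q.2.2 r x y, qpi, perc_det q (lat_Ein _) (det_Rch x r y)]
  rfl

/-! ### large clusters -/

/-- the cluster of `x` has at least `n` vertices -/
def Big (d : ℕ) (x : V d) (n : ℕ) : Set (Set (Ed d)) :=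
  {S | ∃ A : Finset (V d), (A : Set (V d)) ⊆ clu S x ∧ n ≤ A.card}

lemma inc_Big (x : V d) (n : ℕ) : Inc (Big d x n) := by
  rintro S S' h ⟨A, hA, hn⟩
  exact ⟨A, fun y hy => Con.mono (hA hy) h, hn⟩

lemma dp_Big (x : V d) (n : ℕ) : Dp (lattice d).edgeSet (Big d x n) := by
  have key : ∀ S S' : Set (Ed d), (∀ e ∈ (lattice d).edgeSet, (e ∈ S ↔ e ∈ S')) →
      S ∈ Big d x n → S' ∈ Big d x n := by
    rintro S S' h ⟨A, hA, hn⟩
    exact ⟨A, fun y hy => (dp_con x y S S' h).mp (hA hy), hn⟩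
  intro S S' h
  exact ⟨key S S' h, key S' S fun e he => (h e he).symm⟩

lemma Big_anti (x : V d) {m n : ℕ} (h : m ≤ n) : Big d x n ⊆ Big d x m := by
  rintro S ⟨A, hA, hn⟩
  exact ⟨A, hA, h.trans hn⟩

lemma measurable_Big (x : V d) (n : ℕ) : MeasurableSet (Big d x n) := by
  have h1 : Big d x n = ⋃ A : Finset (V d), ⋃ _ : n ≤ A.card, ⋂ y ∈ A,
      {S : Set (Ed d) | (openGraph S).Reachable x y} := by
    ext S
    simp only [Set.mem_iUnion, Set.mem_iInter, exists_prop]
    constructor
    · rintro ⟨A, hA, hn⟩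
      exact ⟨A, hn, fun y hy => hA hy⟩
    · rintro ⟨A, hn, hA⟩
      exact ⟨A, fun y hy => hA y hy, hn⟩
  rw [h1]
  refine MeasurableSet.iUnion fun A => MeasurableSet.iUnion fun _ => ?_
  exact Finset.measurableSet_biInter _ fun y _ => measurableSet_reachable x y

lemma iInter_Big (x : V d) : ⋂ n, Big d x n = {S : Set (Ed d) | Inf S x} := by
  ext S
  rw [Set.mem_iInter, Set.mem_ofPred_eq]
  constructor
  · intro h hfin
    obtain ⟨A, hA, hn⟩ := h (hfin.toFinset.card + 1)
    have h2 : A ⊆ hfin.toFinset := by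
      intro y hy
      rw [Set.Finite.mem_toFinset]
      exact hA hy
    have := card_le_card h2
    omega
  · intro h n
    obtain ⟨A, hA, hn⟩ := Set.Infinite.exists_subset_card_eq h n
    exact ⟨A, hA, hn.ge⟩

/-- below the critical point the clusters are finite -/
theorem inf_zero {q : I} (h : (q : ℝ) < criticalProbability d) (x : V d) :
    (perc q).real {S : Set (Ed d) | Inf S x} = 0 := by
  have h1 : ¬ 0 < perc q {S : Set (Ed d) | ∃ C, IsInfiniteCluster S C} := by
    intro h2
    have h3 : criticalProbability d ≤ (q : ℝ) :=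
      csInf_le ⟨0, fun _ hq => hq.1.1⟩ ⟨q.2, h2⟩
    linarith
  rw [pos_iff_ne_zero, not_not] at h1
  have h2 : perc q {S : Set (Ed d) | Inf S x} = 0 := by
    refine measure_mono_null ?_ h1
    intro S hS
    exact (hasCluster_iff S).mpr ⟨x, hS⟩
  rw [measureReal_def, h2, ENNReal.toReal_zero]

theorem Big_tendsto {q : I} (h : (q : ℝ) < criticalProbability d) (x : V d) :
    Filter.Tendsto (fun n => (perc q).real (Big d x n)) Filter.atTop (nhds 0) := by
  have h1 := tendsto_measure_iInter_atTop (μ := perc q) (s := fun n => Big d x n)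
    (fun n => (measurable_Big x n).nullMeasurableSet) (fun m n hmn => Big_anti x hmn)
    ⟨0, measure_ne_top _ _⟩
  rw [iInter_Big] at h1
  have h2 := (ENNReal.tendsto_toReal (measure_ne_top (perc q) {S : Set (Ed d) | Inf S x})).comp h1
  have h3 := inf_zero h x
  rw [measureReal_def] at h3
  rw [h3] at h2
  exact h2

end Pool.Agent.Lib.MP_06caae_pr
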