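import Pool.Agent.Lib.MP_06caae_pr.IIC

/-!
# Transfer to the IIC; the fields `deg`, `up`, `lane0`, `lane` of `IICGood`
-/

open Finset SimpleGraph MeasureTheory Filter Topology
open Pool.Agent.Lib.MP_566bac_pr.Zd
open Pool.Agent.Lib.IICQ

namespace Pool.Agent.Lib.MP_06caae_pr

variable {d : ℕ}

/-- Cauchy-Schwarz in finite volume -/
lemma EE_cs {p : ℝ} (hp : 0 ≤ p) (hp1 : p ≤ 1) (E : Finset (Ed d)) (f g : Set (Ed d) → ℝ) :
    EE p E (fun S => f S * g S) ^ 2 ≤ EE p E (fun S => f S ^ 2) * EE p E (fun S => g S ^ 2) := by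
  have h : ∀ t : ℝ, 0 ≤ EE p E (fun S => g S ^ 2) * (t * t) + (-2 * EE p E (fun S => f S * g S)) * t +
      EE p E (fun S => f S ^ 2) := by
    intro t
    have h1 : 0 ≤ EE p E (fun S => (f S - t * g S) ^ 2) := Ex_nonneg (wt_p hp hp1) fun S => sq_nonneg _
    have h2 : EE p E (fun S => (f S - t * g S) ^ 2) = EE p E (fun S => g S ^ 2) * (t * t) +
        (-2 * EE p E (fun S => f S * g S)) * t + EE p E (fun S => f S ^ 2) := by
      unfold EE Ex
      simp only [mul_sum, sum_mul]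
      rw [← sum_add_distrib, ← sum_add_distrib]
      refine sum_congr rfl fun ω _ => ?_
      ring
    rw [← h2]
    exact h1
  have h3 := discrim_le_zero h
  unfold discrim at h3
  nlinarith

lemma sum_sph_le' (S : Set (Ed d)) (x : V d) {a b n : ℕ} (h : b ≤ n + 1) :
    ∑ j ∈ Ico a b, (sph S x j).card ≤ (ball S x n).card := by
  classical
  rw [← card_biUnion]
  · refine card_le_card fun y hy => ?_
    rw [mem_biUnion] at hy
    obtain ⟨j, hj, hyj⟩ := hy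
    rw [mem_Ico] at hj
    exact ball_mono subset_rfl (by omega) (sph_subset S x j hyj)
  · intro i _ j _ hij
    rw [Function.onFun, Finset.disjoint_left]
    intro y h1 h2
    exact hij (sph_unique h1 h2)

lemma sph_ne_mono {S : Set (Ed d)} {x : V d} {r j : ℕ} (h : r ≤ j) (hj : (sph S x j).Nonempty) :
    (sph S x r).Nonempty := by
  obtain ⟨y, hy⟩ := hj
  refine sph_nonempty (mem_sph.1 hy).1.con fun k hk => ?_
  have := (mem_sph.1 hy).2 k hk
  omega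

section
variable {p : unitInterval} {ν : Measure (Set (Ed d))}

/-- D2, averaged over the levels -/
theorem transferE (hν : IsIIC p ν) (hp : 0 < (p : ℝ)) (hd : 0 < d) {C : ℝ}
    (hmom : ∀ (E : Finset (Ed d)) (r : ℕ), 1 ≤ r → EE (p : ℝ) E (fun S => (vol S (0 : V d) r : ℝ) ^ 2) ≤ C * (r : ℝ) ^ 3)
    {K : Set (Set (Ed d))} (hK : Loc K) {r : ℕ} (hr : 1 ≤ r) (hB : BDet 0 r K) :
    ∃ E : Finset (Ed d), ν.real K ≤ √(8 * C * r * PE (p : ℝ) E (K ∩ {S | (sph S (0 : V d) r).Nonempty})) := by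
  classical
  have hr0 : (0 : ℝ) < r := by exact_mod_cast hr
  have hp0 := p.2.1
  have hp1 := p.2.2
  obtain ⟨E0, hE0, hKdet⟩ := hK
  obtain ⟨E, hEdef⟩ : ∃ E, E = E0 ∪ Ein (Lam (0 : V d) (2 * r + 1)) := ⟨_, rfl⟩
  have hE : Lat E := by rw [hEdef]; exact lat_union hE0 (lat_Ein _)
  refine ⟨E, ?_⟩
  obtain ⟨c, hcdef⟩ : ∃ c, c = PE (p : ℝ) E (K ∩ {S | (sph S (0 : V d) r).Nonempty}) := ⟨_, rfl⟩
  have hc : PE (p : ℝ) E (K ∩ {S | (sph S (0 : V d) r).Nonempty}) ≤ c := le_of_eq hcdef.symm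
  rw [← hcdef]
  have d1 : Det E K := det_mono (by rw [hEdef]; exact subset_union_left) hKdet
  have d2 : ∀ j < 2 * r, ∀ u, Det E {S : Set (Ed d) | u ∈ sph S 0 j} := by
    intro j hj u
    refine det_mono ?_ (det_sph 0 u j)
    rw [hEdef]
    refine subset_union_right.trans' ?_
    intro e he
    induction e using Sym2.ind with
    | _ a b =>
      rw [mem_Ein] at he ⊢
      exact ⟨Lam_mono 0 (by omega) he.1, Lam_mono 0 (by omega) he.2.1, he.2.2⟩
  -- at one level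
  have h1 : ∀ j ∈ Ico r (2 * r), ν.real K ≤ EE (p : ℝ) E (fun S => ind (S ∈ K ∩ {S | (sph S (0 : V d) r).Nonempty}) *
      ((sph S (0 : V d) j).card : ℝ)) := by
    intro j hj
    rw [mem_Ico] at hj
    refine (transfer0 hν hp hd ⟨E0, hE0, hKdet⟩ (hB.mono hj.1)).trans (le_of_eq ?_)
    have h2 : ∀ S : Set (Ed d), ind (S ∈ K ∩ {S | (sph S (0 : V d) r).Nonempty}) * ((sph S (0 : V d) j).card : ℝ) =
        ∑ u ∈ (Lam 0 j : Finset (V d)), ind (S ∈ K ∩ {S | u ∈ sph S 0 j}) := by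
      intro S
      have h3 : ∑ u ∈ (Lam 0 j : Finset (V d)), ind (u ∈ sph S 0 j) = ((sph S (0 : V d) j).card : ℝ) :=
        sum_ind fun u => ⟨fun h4 => ⟨ball_sub_Lam S 0 j (sph_subset S 0 j h4), h4⟩, fun h4 => h4.2⟩
      rw [← h3, mul_sum]
      refine sum_congr rfl fun u _ => ?_
      by_cases h5 : u ∈ sph S 0 j
      · have h6 : (sph S (0 : V d) r).Nonempty := sph_ne_mono hj.1 ⟨u, h5⟩
        rw [ind_true h5, mul_one]
        by_cases h7 : S ∈ K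
        · rw [ind_true ⟨h7, h6⟩, ind_true ⟨h7, h5⟩]
        · rw [ind_false fun h => h7 h.1, ind_false fun h => h7 h.1]
      · rw [ind_false h5, mul_zero, ind_false fun h => h5 h.2]
    unfold EE
    simp only [h2]
    rw [Ex_sum]
    refine sum_congr rfl fun u _ => ?_
    rw [Ex_ind]
    exact perc_loc p hE (det_inter d1 (d2 j hj.2 u))
  have h2 : (r : ℝ) * ν.real K ≤ EE (p : ℝ) E (fun S => ind (S ∈ K ∩ {S | (sph S (0 : V d) r).Nonempty}) *
      (vol S (0 : V d) (2 * r) : ℝ)) := by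
    have h3 := sum_le_sum h1
    rw [sum_const, Nat.card_Ico, nsmul_eq_mul] at h3
    have h4 : ((2 * r - r : ℕ) : ℝ) = r := by
      congr 1
      omega
    rw [h4] at h3
    refine h3.trans ?_
    unfold EE
    rw [← Ex_sum]
    refine Ex_mono (wt_p hp0 hp1) fun S => ?_
    rw [← mul_sum]
    refine mul_le_mul_of_nonneg_left ?_ (ind_nonneg _)
    have := sum_sph_le' S (0 : V d) (a := r) (b := 2 * r) (n := 2 * r) (by omega)
    unfold vol
    exact_mod_cast this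
  have h3 := EE_cs hp0 hp1 E (fun S => ind (S ∈ K ∩ {S | (sph S (0 : V d) r).Nonempty})) (fun S => (vol S (0 : V d) (2 * r) : ℝ))
  have h4 : EE (p : ℝ) E (fun S => ind (S ∈ K ∩ {S | (sph S (0 : V d) r).Nonempty}) ^ 2) ≤ c := by
    have h5 : ∀ S : Set (Ed d), ind (S ∈ K ∩ {S | (sph S (0 : V d) r).Nonempty}) ^ 2 =
        ind (S ∈ K ∩ {S | (sph S (0 : V d) r).Nonempty}) := by
      intro S
      by_cases h6 : S ∈ K ∩ {S | (sph S (0 : V d) r).Nonempty}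
      · rw [ind_true h6, one_pow]
      · rw [ind_false h6]
        norm_num
    simp only [h5]
    unfold EE
    rw [Ex_ind]
    exact hc
  have h5 := hmom E (2 * r) (by omega)
  have h6 : 0 ≤ EE (p : ℝ) E (fun S => (vol S (0 : V d) (2 * r) : ℝ) ^ 2) := Ex_nonneg (wt_p hp0 hp1) fun S => sq_nonneg _
  have h7 : 0 ≤ EE (p : ℝ) E (fun S => ind (S ∈ K ∩ {S | (sph S (0 : V d) r).Nonempty}) ^ 2) :=
    Ex_nonneg (wt_p hp0 hp1) fun S => sq_nonneg _
  have h8 : 0 ≤ (r : ℝ) * ν.real K := mul_nonneg hr0.le measureReal_nonneg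
  have h9 : ((r : ℝ) * ν.real K) ^ 2 ≤ c * (C * ((2 * r : ℕ) : ℝ) ^ 3) := by
    calc ((r : ℝ) * ν.real K) ^ 2 ≤ (EE (p : ℝ) E (fun S => ind (S ∈ K ∩ {S | (sph S (0 : V d) r).Nonempty}) *
          (vol S (0 : V d) (2 * r) : ℝ))) ^ 2 := pow_le_pow_left₀ h8 h2 2
      _ ≤ _ := h3
      _ ≤ c * (C * ((2 * r : ℕ) : ℝ) ^ 3) := mul_le_mul h4 h5 h6 (h7.trans h4)
  refine Real.le_sqrt_of_sq_le ?_
  push_cast at h9
  have h10 : (r : ℝ) ^ 2 * ν.real K ^ 2 ≤ (r : ℝ) ^ 2 * (8 * C * r * c) := by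
    calc (r : ℝ) ^ 2 * ν.real K ^ 2 = ((r : ℝ) * ν.real K) ^ 2 := by ring
      _ ≤ c * (C * (2 * r) ^ 3) := h9
      _ = (r : ℝ) ^ 2 * (8 * C * r * c) := by ring
  exact le_of_mul_le_mul_left h10 (by positivity)

/-- D2 -/
theorem transfer (hν : IsIIC p ν) (hp : 0 < (p : ℝ)) (hd : 0 < d) {C : ℝ} (hC : 0 ≤ C)
    (hmom : ∀ (E : Finset (Ed d)) (r : ℕ), 1 ≤ r → EE (p : ℝ) E (fun S => (vol S (0 : V d) r : ℝ) ^ 2) ≤ C * (r : ℝ) ^ 3)
    {K : Set (Set (Ed d))} (hK : Loc K) {r : ℕ} (hr : 1 ≤ r) (hB : BDet 0 r K) {c : ℝ}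
    (hc : ∀ E : Finset (Ed d), PE (p : ℝ) E (K ∩ {S | (sph S (0 : V d) r).Nonempty}) ≤ c) :
    ν.real K ≤ √(8 * C * r * c) := by
  obtain ⟨E, hE⟩ := transferE hν hp hd hmom hK hr hB
  refine hE.trans (Real.sqrt_le_sqrt (mul_le_mul_of_nonneg_left (hc E) (by positivity)))

/-! ### local volume events -/

lemma bdet_vol (x : V d) (r : ℕ) (P : ℕ → Prop) : BDet x r {S : Set (Ed d) | P (vol S x r)} := by
  rw [bdet_iff]
  exact (rev_ball x le_rfl).comp fun s => P s.card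

lemma loc_vol (x : V d) (r : ℕ) (P : ℕ → Prop) : Loc {S : Set (Ed d) | P (vol S x r)} :=
  loc_of_bdet (bdet_vol x r P) fun S S' h hS => by
    show P (vol S' x r)
    unfold vol
    rw [← ball_congr h]
    exact hS

/-! ### `deg` -/

theorem iic_deg (hν : IsIIC p ν) (hd : 0 < d) : ν.real {S | sph S (0 : V d) 1 = ∅} = 0 := by
  have := infinite_V hd
  have hloc : Loc {S : Set (Ed d) | sph S (0 : V d) 1 = ∅} := by
    have h1 := (loc_sph_ne (0 : V d) 1).compl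
    have h2 : {S : Set (Ed d) | (sph S (0 : V d) 1).Nonempty}ᶜ = {S | sph S (0 : V d) 1 = ∅} := by
      ext S
      simp only [Set.mem_compl_iff, Set.mem_setOf_eq, not_nonempty_iff_eq_empty]
    rwa [h2] at h1
  have hlim := hν.lim _ hloc
  have h0 : Tendsto (fun _ : V d => (0 : ℝ)) cofinite (𝓝 0) := tendsto_const_nhds
  refine tendsto_nhds_unique hlim (h0.congr' ?_)
  have h2 : ∀ᶠ x : V d in cofinite, x ≠ 0 := by
    have := (Set.finite_singleton (0 : V d)).compl_mem_cofinite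
    filter_upwards [this] with x hx
    exact hx
  filter_upwards [h2] with x hx
  have h3 : {S : Set (Ed d) | sph S (0 : V d) 1 = ∅} ∩ {S | Con S 0 x} = ∅ := by
    rw [Set.eq_empty_iff_forall_notMem]
    rintro S ⟨h4, h5⟩
    have h6 : (sph S (0 : V d) 1).Nonempty := by
      refine sph_nonempty h5 fun k hk => ?_
      by_contra hcon
      have : k = 0 := by omega
      subst this
      exact hx (rch_zero.1 hk).symm
    rw [show sph S (0 : V d) 1 = ∅ from h4] at h6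
    exact absurd h6 not_nonempty_empty
  rw [h3, measureReal_empty, zero_div]

/-! ### `up` -/

theorem iic_up (hν : IsIIC p ν) (hp : 0 < (p : ℝ)) (hd : 0 < d) {C : ℝ} (hC : 0 ≤ C)
    (hmom : ∀ (E : Finset (Ed d)) (r : ℕ), 1 ≤ r → EE (p : ℝ) E (fun S => (vol S (0 : V d) r : ℝ) ^ 2) ≤ C * (r : ℝ) ^ 3)
    {R : ℕ} (hR : 1 ≤ R) {L : ℝ} (hL : 0 < L) :
    ν.real {S | L * (R : ℝ) ^ 2 < (vol S (0 : V d) R : ℝ)} ≤ 3 * C / L := by
  have hR0 : (0 : ℝ) < R := by exact_mod_cast hR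
  have hp0 := p.2.1
  have hp1 := p.2.2
  have h1 := transfer hν hp hd hC hmom (K := {S : Set (Ed d) | L * (R : ℝ) ^ 2 < (vol S (0 : V d) R : ℝ)})
    (loc_vol 0 R fun n => L * (R : ℝ) ^ 2 < (n : ℝ)) hR (bdet_vol 0 R fun n => L * (R : ℝ) ^ 2 < (n : ℝ))
    (c := C / (L ^ 2 * R)) (fun E => ?_)
  · refine h1.trans ?_
    rw [Real.sqrt_le_iff]
    refine ⟨by positivity, ?_⟩
    have h2 : 8 * C * (R : ℝ) * (C / (L ^ 2 * R)) = 8 * C ^ 2 / L ^ 2 := by
      field_simp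
    rw [h2, div_pow]
    refine div_le_div_of_nonneg_right ?_ (by positivity)
    nlinarith [sq_nonneg C]
  · have h2 : PE (p : ℝ) E ({S : Set (Ed d) | L * (R : ℝ) ^ 2 < (vol S (0 : V d) R : ℝ)} ∩ {S | (sph S (0 : V d) R).Nonempty}) ≤
        PE (p : ℝ) E {S | (L * (R : ℝ) ^ 2) ^ 2 < (vol S (0 : V d) R : ℝ) ^ 2} := by
      refine PE_mono hp0 hp1 E ?_
      rintro S ⟨h3, _⟩
      have h4 : L * (R : ℝ) ^ 2 < (vol S (0 : V d) R : ℝ) := h3
      show (L * (R : ℝ) ^ 2) ^ 2 < (vol S (0 : V d) R : ℝ) ^ 2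
      exact pow_lt_pow_left₀ h4 (by positivity) two_ne_zero
    refine h2.trans ((PE_markov hp0 hp1 E (fun S => sq_nonneg _) (by positivity)).trans ?_)
    rw [div_le_div_iff₀ (by positivity) (by positivity)]
    have h5 := hmom E R hR
    calc EE (p : ℝ) E (fun S => (vol S (0 : V d) R : ℝ) ^ 2) * (L ^ 2 * R) ≤ (C * (R : ℝ) ^ 3) * (L ^ 2 * R) :=
          mul_le_mul_of_nonneg_right h5 (by positivity)
      _ = C * (L * (R : ℝ) ^ 2) ^ 2 := by ring

/-! ### `lane0` -/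

theorem iic_lane0 (hν : IsIIC p ν) (hp : 0 < (p : ℝ)) (hd : 0 < d) {C C1 C2 : ℝ} (hC : 0 ≤ C) (hC10 : 0 ≤ C1) (hC20 : 0 ≤ C2)
    (hmom : ∀ (E : Finset (Ed d)) (r : ℕ), 1 ≤ r → EE (p : ℝ) E (fun S => (vol S (0 : V d) r : ℝ) ^ 2) ≤ C * (r : ℝ) ^ 3)
    (hC1 : ∀ r : ℕ, 1 ≤ r → GG d p r ≤ C1 * r)
    (hC2 : ∀ (E' : Finset (Ed d)) (u : V d) (s : ℕ), 1 ≤ s → PE (p : ℝ) E' {S | (sph S u s).Nonempty} ≤ C2 / s)
    {r : ℕ} (hr : 2 ≤ r) {M : ℝ} (hM : 0 < M) :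
    ν.real {S | M * (r : ℝ) < (laneS S (0 : V d) r : ℝ)} ≤ √(8 * C * C1 * C2 / M) := by
  have hr0 : (0 : ℝ) < r := by
    have : 0 < r := by omega
    exact_mod_cast this
  have h1 := transfer hν hp hd hC hmom (K := {S : Set (Ed d) | M * (r : ℝ) < (laneS S (0 : V d) r : ℝ)})
    (loc_lane 0 r _) (by omega) (bdet_lane 0 r _) (c := C1 * C2 / (M * r)) (fun E => ?_)
  · refine h1.trans (Real.sqrt_le_sqrt (le_of_eq ?_))
    field_simp
  · refine (PE_mono p.2.1 p.2.2 E Set.inter_subset_left).trans ?_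
    exact PE_lane p.2.1 p.2.2 hC1 hC10 hC20 hC2 E 0 hr hM

end

end Pool.Agent.Lib.MP_06caae_pr
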