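import Pool.Agent.Lib.MP_06caae_pr.Assemble
import Pool.Agent.Lib.MP_06caae_pr.A.Reach
import Pool.Agent.Lib.MP_06caae_pr.A.Avg
import Pool.Agent.Lib.MP_06caae_pr.A.Gup
import Pool.Agent.Lib.MP_06caae_pr.A.Arm
import Pool.Agent.Lib.MP_06caae_pr.A.Mom
import Pool.Agent.Lib.MP_06caae_pr.A.Growth

/-!
# All percolation estimates for the IIC, from the standing assumptions and the three-piece inequality
-/

open Finset SimpleGraph MeasureTheory Filter Topology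
open Pool.Agent.Lib.MP_566bac_pr.Zd
open Pool.Agent.Lib.IICQ

namespace Pool.Agent.Lib.MP_06caae_pr

variable {d : ℕ}

/-- the estimates for the IIC -/
theorem iic_good_of_three {q : unitInterval} (hS : Std d (q : ℝ)) (h3 : Three d (q : ℝ)) {ν : Measure (Set (Ed d))}
    (hν : IsIIC q ν) :
    ∃ a : ℕ → ℝ, (∀ R, 0 < a R) ∧ Monotone a ∧ Tendsto a atTop atTop ∧
      (∃ K : ℝ, 0 < K ∧ ∀ r : ℕ, 1 ≤ r → a (2 * r) ≤ K * a r) ∧ IICGood ν a := by
  have hp0 := q.2.1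
  have hp1 := q.2.2
  have hq := hS.hp0
  have hd := hS.hd
  obtain ⟨C₁, hC₁, hG⟩ := G_up hS
  obtain ⟨C₂, hC₂, harm⟩ := hS.arm
  obtain ⟨c₀, hc₀, g1, K₀, g2⟩ := growth_both hd hq hp1 hS.tri hC₁ hG (G_low hS) h3
  obtain ⟨X, hX1, _, hX3⟩ := avg_sets hS
  have hX : AvSets (q : ℝ) X := ⟨hX1, fun f _ L _ hf => hX3 f L hf⟩
  exact iicGood_of hν hq hd (C := C₁ ^ 3) (by positivity) hC₁ hC₂.le (fun E r hr => mom2 hp0 hp1 hG E 0 hr) hG
    (G_low hS) harm g1 g2 (reachI hν hq hd hS.tri hX hG hc₀)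

end Pool.Agent.Lib.MP_06caae_pr
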