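import Pool.Agent.Lib.MP_06caae_pr.Count
import Pool.Agent.Lib.MP_06caae_pr.B.Far

/-!
# Assembly of `IICGood`
-/

open Finset SimpleGraph MeasureTheory Filter Topology
open Pool.Agent.Lib.MP_566bac_pr.Zd
open Pool.Agent.Lib.IICQ

namespace Pool.Agent.Lib.MP_06caae_pr

variable {d : ℕ} {p : unitInterval} {ν : Measure (Set (Ed d))}

/-- the transfer inequality -/
theorem transfer_iic (hν : IsIIC p ν) (hp : 0 < (p : ℝ)) (hd : 0 < d) {C : ℝ} (hC : 0 ≤ C)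
    (hmom : ∀ (E : Finset (Ed d)) (r : ℕ), 1 ≤ r → EE (p : ℝ) E (fun S => (vol S (0 : V d) r : ℝ) ^ 2) ≤ C * (r : ℝ) ^ 3) :
    Transfer d (p : ℝ) ν := by
  refine ⟨√(8 * C) + 1, by positivity, fun r hr K hB hG => ?_⟩
  obtain ⟨E, hE⟩ := transferE hν hp hd hmom (loc_of_bdet hB hG) hr hB
  refine ⟨E, hE.trans ?_⟩
  have h1 : (8 : ℝ) * C * r * PE (p : ℝ) E (K ∩ {S | (sph S (0 : V d) r).Nonempty}) =
      (8 * C) * (r * PE (p : ℝ) E {S | S ∈ K ∧ (sph S (0 : V d) r).Nonempty}) := by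
    rw [show (K ∩ {S | (sph S (0 : V d) r).Nonempty}) = {S | S ∈ K ∧ (sph S (0 : V d) r).Nonempty} from rfl]
    ring
  rw [h1, Real.sqrt_mul (by positivity)]
  refine mul_le_mul_of_nonneg_right ?_ (Real.sqrt_nonneg _)
  linarith

/-- the estimates for the IIC from the estimates for finite percolation -/
theorem iicGood_of (hν : IsIIC p ν) (hp : 0 < (p : ℝ)) (hd : 0 < d) {C C1 C2 : ℝ} (hC : 0 ≤ C) (hC1 : 1 ≤ C1) (hC2 : 0 ≤ C2)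
    (hmom : ∀ (E : Finset (Ed d)) (r : ℕ), 1 ≤ r → EE (p : ℝ) E (fun S => (vol S (0 : V d) r : ℝ) ^ 2) ≤ C * (r : ℝ) ^ 3)
    (hG : ∀ r : ℕ, 1 ≤ r → GG d p r ≤ C1 * r) (hG' : ∀ r : ℕ, (r : ℝ) + 1 ≤ GG d p r)
    (harm : ∀ (E' : Finset (Ed d)) (u : V d) (s : ℕ), 1 ≤ s → PE (p : ℝ) E' {S | (sph S u s).Nonempty} ≤ C2 / s)
    {c₀ K₁ K₀ : ℝ}
    (g1 : ∀ η : ℝ, 0 < η → η ≤ 1 → ∃ s₀ : ℝ, ∀ (r : ℕ) (s : ℝ), s₀ ≤ r → s₀ ≤ s → η * r ≤ TT d p r s →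
      ∀ R : ℕ, K₁ / η * r ≤ R → c₀ * R ≤ TT d p R (s / 3))
    (g2 : ∃ s₁ : ℝ, ∀ (r : ℕ) (s : ℝ), s₁ ≤ r → s₁ ≤ s → c₀ * r ≤ TT d p r s →
      ∀ R : ℕ, K₀ * r ≤ R → c₀ * R ≤ TT d p R (2 * s))
    (hreach : ∃ c₃ : ℝ, 0 < c₃ ∧ ∃ s₂ : ℝ, ∀ (r : ℕ) (s : ℝ), s₂ ≤ r → s₂ ≤ s → c₀ * r ≤ TT d p r s →
      c₃ ≤ ν.real {S | s / 3 ≤ (rad S (0 : V d) (3 * r) : ℝ)}) :
    ∃ a : ℕ → ℝ, (∀ R, 0 < a R) ∧ Monotone a ∧ Tendsto a atTop atTop ∧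
      (∃ K : ℝ, 0 < K ∧ ∀ r : ℕ, 1 ≤ r → a (2 * r) ≤ K * a r) ∧ IICGood ν a := by
  have hp1 := p.2.2
  have hT := transfer_iic hν hp hd hC hmom
  have hpi := piData hd hp.le hp1 hC1 hG hG'
  obtain ⟨a, ha0, ham, hat, hadbl, hext, hfar⟩ := scale_main hp.le hp1 hpi hC2 harm g1 g2 hT hreach
  have hlow := fun lam q hlam hq ε hε => low_nu hp.le hp1 (zero_le_one.trans hC1) hC2 hG harm hT lam q hlam hq ε hε
  refine ⟨a, ha0, ham, hat, hadbl, ?_, ?_, hlow, ?_, ?_, hext, hfar⟩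
  · exact iic_deg hν hd
  · intro ε hε
    refine ⟨3 * C / ε + 1, 1, fun R hR => (iic_up hν hp hd hC hmom hR (by positivity)).trans ?_⟩
    rw [div_le_iff₀ (by positivity)]
    have : ε * (3 * C / ε + 1) = 3 * C + ε := by field_simp
    rw [this]
    linarith
  · intro lam q hlam hq ε hε
    exact iic_lane hν hp hd hC (zero_le_one.trans hC1) hC2 hmom hG harm hlow lam q hlam hq ε hε
  · intro ε hε
    obtain ⟨M, hMdef⟩ : ∃ M, M = 8 * C * C1 * C2 / ε ^ 2 + 1 := ⟨_, rfl⟩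
    have hM : 0 < M := by rw [hMdef]; positivity
    refine ⟨M, 2, fun R hR => (iic_lane0 hν hp hd hC (zero_le_one.trans hC1) hC2 hmom hG harm hR hM).trans ?_⟩
    rw [Real.sqrt_le_iff]
    refine ⟨hε.le, ?_⟩
    rw [div_le_iff₀ hM, hMdef]
    have : ε ^ 2 * (8 * C * C1 * C2 / ε ^ 2 + 1) = 8 * C * C1 * C2 + ε ^ 2 := by field_simp
    rw [this]
    nlinarith

end Pool.Agent.Lib.MP_06caae_pr
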