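import Pool.Agent.Lib.MP_06caae_pr.ExplB

/-!
# The truncated and the full two-point function
-/

open Finset SimpleGraph
open Pool.Agent.Lib.MP_566bac_pr.Zd

namespace Pool.Agent.Lib.MP_06caae_pr

variable {d : ℕ} {p : ℝ}

lemma wt_p (h0 : 0 ≤ p) (h1 : p ≤ 1) : Wt (fun _ : Ed d => p) := fun _ => ⟨h0, h1⟩

lemma PE_nonneg (h0 : 0 ≤ p) (h1 : p ≤ 1) (E : Finset (Ed d)) (A : Set (Set (Ed d))) :
    0 ≤ PE p E A := Pr_nonneg (wt_p h0 h1) E A

lemma PE_le_one (h0 : 0 ≤ p) (h1 : p ≤ 1) (E : Finset (Ed d)) (A : Set (Set (Ed d))) :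
    PE p E A ≤ 1 := Pr_le_one (wt_p h0 h1) E A

lemma PE_mono (h0 : 0 ≤ p) (h1 : p ≤ 1) (E : Finset (Ed d)) {A B : Set (Set (Ed d))}
    (h : A ⊆ B) : PE p E A ≤ PE p E B := Pr_mono (wt_p h0 h1) h

/-- the distribution in finite volume is invariant under bijections of the edges -/
lemma PE_map (σ : Ed d ≃ Ed d) (E : Finset (Ed d)) (A : Set (Set (Ed d))) :
    PE p (E.map σ.toEmbedding) {S | σ ⁻¹' S ∈ A} = PE p E A := by
  have h := Ex_map σ (fun _ : Ed d => p) E (fun S => ind (S ∈ A))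
  rw [Ex_ind] at h
  have h2 := Ex_ind (fun _ : Ed d => p) (E.map σ.toEmbedding) {S | σ ⁻¹' S ∈ A}
  unfold PE
  rw [← h2]
  exact h

/-- the bijection of the edges given by a bijection of the vertices -/
def edgeEquiv (φ : V d ≃ V d) : Ed d ≃ Ed d where
  toFun := Sym2.map φ
  invFun := Sym2.map φ.symm
  left_inv := by intro e; rw [Sym2.map_map]; simp
  right_inv := by intro e; rw [Sym2.map_map]; simp

lemma edgeEquiv_preimage (φ : V d ≃ V d) (S : Set (Ed d)) : edgeEquiv φ ⁻¹' S = pull φ S := rfl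

lemma rch_pull {φ : V d ≃ V d} (hφ : IsAuto φ) (S : Set (Ed d)) (x y : V d) (r : ℕ) :
    Rch (pull φ S) x r y ↔ Rch S (φ x) r (φ y) := by
  induction r generalizing y with
  | zero =>
    rw [rch_zero, rch_zero, φ.injective.eq_iff]
  | succ r ih =>
    rw [rch_succ, rch_succ, φ.injective.eq_iff]
    refine or_congr Iff.rfl ?_
    constructor
    · rintro ⟨z, h1, h2, h3⟩
      exact ⟨φ z, (ih z).mp h1, (hφ z y).mpr h2, h3⟩
    · rintro ⟨z, h1, h2, h3⟩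
      refine ⟨φ.symm z, (ih _).mpr (by rwa [φ.apply_symm_apply]), ?_, ?_⟩
      · rw [← hφ, φ.apply_symm_apply]
        exact h2
      · change Sym2.map φ s(φ.symm z, y) ∈ S
        rw [Sym2.map_mk, φ.apply_symm_apply]
        exact h3

lemma con_pull {φ : V d ≃ V d} (hφ : IsAuto φ) (S : Set (Ed d)) (x y : V d) :
    Con (pull φ S) x y ↔ Con S (φ x) (φ y) := by
  rw [con_iff, con_iff]
  exact exists_congr fun r => rch_pull hφ S x y r

/-- the probability of a connection of length `r` in the best volume -/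
noncomputable def qpi (p : ℝ) (r : ℕ) (x y : V d) : ℝ :=
  PE p (Ein (Lam x r)) {S | Rch S x r y}

lemma ppi_eq (r : ℕ) (y : V d) : ppi p r y = qpi p r 0 y := rfl

lemma PE_le_qpi (h0 : 0 ≤ p) (h1 : p ≤ 1) (E : Finset (Ed d)) (x y : V d) (r : ℕ) :
    PE p E {S | Rch S x r y} ≤ qpi p r x y := by
  classical
  have h2 : PE p E {S | Rch S x r y} ≤ PE p (E ∪ Ein (Lam x r)) {S | Rch S x r y} :=
    Pr_mono_E (wt_p h0 h1) subset_union_left (inc_Rch x r y)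
  refine h2.trans (le_of_eq ?_)
  exact Pr_extend subset_union_right (det_Rch x r y)

lemma qpi_auto_le (h0 : 0 ≤ p) (h1 : p ≤ 1) {φ : V d ≃ V d} (hφ : IsAuto φ) (r : ℕ)
    (x y : V d) : qpi p r x y ≤ qpi p r (φ x) (φ y) := by
  refine le_trans (le_of_eq ?_) (PE_le_qpi h0 h1 ((Ein (Lam x r)).map (edgeEquiv φ).toEmbedding)
    (φ x) (φ y) r)
  rw [qpi, ← PE_map (edgeEquiv φ)]
  congr 1
  ext S
  exact rch_pull hφ S x y r

lemma isAuto_symm {φ : V d ≃ V d} (hφ : IsAuto φ) : IsAuto φ.symm := by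
  intro x y
  rw [← hφ, φ.apply_symm_apply, φ.apply_symm_apply]

/-- **Invariance.** -/
lemma qpi_auto (h0 : 0 ≤ p) (h1 : p ≤ 1) {φ : V d ≃ V d} (hφ : IsAuto φ) (r : ℕ)
    (x y : V d) : qpi p r (φ x) (φ y) = qpi p r x y := by
  apply le_antisymm _ (qpi_auto_le h0 h1 hφ r x y)
  have := qpi_auto_le h0 h1 (isAuto_symm hφ) r (φ x) (φ y)
  rwa [φ.symm_apply_apply, φ.symm_apply_apply] at this

lemma qpi_eq (h0 : 0 ≤ p) (h1 : p ≤ 1) (r : ℕ) (x y : V d) :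
    qpi p r x y = ppi p r (y - x) := by
  rw [ppi_eq, ← qpi_auto h0 h1 (isAuto_transE x) r 0 (y - x), transE_apply, transE_apply,
    zero_add, sub_add_cancel]

/-- in every finite volume -/
theorem PE_le_ppi (h0 : 0 ≤ p) (h1 : p ≤ 1) (E : Finset (Ed d)) (x y : V d) (r : ℕ) :
    PE p E {S | Rch S x r y} ≤ ppi p r (y - x) := by
  rw [← qpi_eq h0 h1]
  exact PE_le_qpi h0 h1 E x y r

lemma ppi_nonneg (h0 : 0 ≤ p) (h1 : p ≤ 1) (r : ℕ) (y : V d) : 0 ≤ ppi p r y :=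
  PE_nonneg h0 h1 _ _

lemma ppi_le_one (h0 : 0 ≤ p) (h1 : p ≤ 1) (r : ℕ) (y : V d) : ppi p r y ≤ 1 :=
  PE_le_one h0 h1 _ _

lemma ppi_supp (r : ℕ) {y : V d} (h : y ∉ (Lam 0 r : Finset (V d))) : ppi p r y = 0 := by
  rw [ppi, PE]
  have : {S : Set (Ed d) | Rch S 0 r y} = ∅ := by
    rw [Set.eq_empty_iff_forall_notMem]
    intro S hS
    apply h
    rw [mem_Lam, dst_comm]
    exact rch_dst hS
  rw [this]
  exact Pr_empty_set _ _

lemma ppi_self (r : ℕ) : ppi p r (0 : V d) = 1 := by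
  rw [ppi, PE]
  have : {S : Set (Ed d) | Rch S 0 r 0} = Set.univ := by
    rw [Set.eq_univ_iff_forall]
    exact fun S => Rch.refl _ _ _
  rw [this]
  exact Pr_univ _ _

lemma ppi_mono (h0 : 0 ≤ p) (h1 : p ≤ 1) {r s : ℕ} (h : r ≤ s) (y : V d) :
    ppi p r y ≤ ppi p s y := by
  have h2 : ppi p r y ≤ PE p (Ein (Lam 0 r)) {S | Rch S 0 s y} :=
    PE_mono h0 h1 _ fun S hS => Rch.mono hS subset_rfl h
  refine h2.trans ?_
  have := PE_le_ppi h0 h1 (Ein (Lam 0 r)) 0 y s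
  rwa [sub_zero] at this

lemma ppi_mono_p {p' : ℝ} (h0 : 0 ≤ p) (h1 : p' ≤ 1) (h : p ≤ p') (r : ℕ) (y : V d) :
    ppi p r y ≤ ppi p' r y :=
  Pr_mono_w (wt_p h0 (h.trans h1)) (wt_p (h0.trans h) h1) (fun _ => h) _ (inc_Rch 0 r y)

/-- symmetry under the automorphisms which fix the origin -/
lemma ppi_symE (h0 : 0 ≤ p) (h1 : p ≤ 1) (π : Equiv.Perm (Fin d)) (ε : Fin d → ℤˣ) (r : ℕ)
    (y : V d) : ppi p r (symE π ε y) = ppi p r y := by
  have h := qpi_auto h0 h1 (isAuto_symE π ε) r 0 y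
  have h2 : symE π ε 0 = 0 := by
    ext i
    rw [symE_apply]
    simp
  rw [h2] at h
  exact h

lemma ppi_neg (h0 : 0 ≤ p) (h1 : p ≤ 1) (r : ℕ) (y : V d) : ppi p r (-y) = ppi p r y := by
  have := ppi_symE h0 h1 (Equiv.refl _) (fun _ => -1) r y
  rw [← this]
  congr 1
  ext i
  rw [symE_apply]
  simp

/-! ### the number of vertices -/

lemma sum_ppi_le (h0 : 0 ≤ p) (h1 : p ≤ 1) (r : ℕ) (A : Finset (V d)) :
    ∑ y ∈ A, ppi p r y ≤ GG d p r := by
  classical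
  have h2 : ∑ y ∈ A, ppi p r y ≤ ∑ y ∈ A ∪ Lam 0 r, ppi p r y :=
    sum_le_sum_of_subset_of_nonneg subset_union_left fun y _ _ => ppi_nonneg h0 h1 r y
  refine h2.trans (le_of_eq ?_)
  rw [GG]
  symm
  apply sum_subset subset_union_right
  intro y _ hy
  exact ppi_supp r hy

lemma sum_ppi_sub_le (h0 : 0 ≤ p) (h1 : p ≤ 1) (r : ℕ) (A : Finset (V d)) (x : V d) :
    ∑ y ∈ A, ppi p r (y - x) ≤ GG d p r := by
  classical
  have h2 : ∑ y ∈ A, ppi p r (y - x) =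
      ∑ z ∈ A.image (fun y => y - x), ppi p r z := by
    rw [sum_image]
    intro a _ b _ hab
    exact sub_left_injective hab
  rw [h2]
  exact sum_ppi_le h0 h1 r _

lemma GG_nonneg (h0 : 0 ≤ p) (h1 : p ≤ 1) (r : ℕ) : 0 ≤ GG d p r :=
  sum_nonneg fun y _ => ppi_nonneg h0 h1 r y

lemma GG_mono (h0 : 0 ≤ p) (h1 : p ≤ 1) {r s : ℕ} (h : r ≤ s) : GG d p r ≤ GG d p s := by
  refine (sum_le_sum fun y _ => ppi_mono h0 h1 h y).trans ?_
  exact sum_ppi_le h0 h1 s _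

lemma EE_card (E : Finset (Ed d)) (x : V d) (r : ℕ) :
    EE p E (fun S => ((ball S x r).card : ℝ)) =
      ∑ y ∈ Lam x r, PE p E {S | Rch S x r y} := by
  have h2 : ∀ S : Set (Ed d), ((ball S x r).card : ℝ) = ∑ y ∈ Lam x r, ind (Rch S x r y) := by
    intro S
    classical
    unfold ind
    rw [← sum_filter, sum_const, nsmul_eq_mul, mul_one]
    rfl
  rw [EE]
  simp only [h2]
  rw [Ex_sum]
  apply sum_congr rfl
  intro y _
  exact Ex_ind (fun _ => p) E {S : Set (Ed d) | Rch S x r y}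

/-- the expected volume of a ball in every finite volume -/
theorem EE_ball_le (h0 : 0 ≤ p) (h1 : p ≤ 1) (E : Finset (Ed d)) (x : V d) (r : ℕ) :
    EE p E (fun S => ((ball S x r).card : ℝ)) ≤ GG d p r := by
  rw [EE_card]
  exact (sum_le_sum fun y _ => PE_le_ppi h0 h1 E x y r).trans (sum_ppi_sub_le h0 h1 r _ x)

theorem EE_ball_eq (r : ℕ) :
    EE p (Ein (Lam 0 r)) (fun S => ((ball S (0 : V d) r).card : ℝ)) = GG d p r := by
  rw [EE_card]
  rfl

/-! ### disjoint occurrence -/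

/-- two connections in a row -/
theorem PE_box_le (h0 : 0 ≤ p) (h1 : p ≤ 1) (E : Finset (Ed d)) (x u v y : V d) (i j : ℕ) :
    PE p E (Box {S : Set (Ed d) | Rch S x i u} {S | Rch S v j y}) ≤
      ppi p i (u - x) * ppi p j (y - v) := by
  refine (bk (wt_p h0 h1) E (inc_Rch x i u) (inc_Rch v j y)).trans ?_
  exact mul_le_mul (PE_le_ppi h0 h1 E x u i) (PE_le_ppi h0 h1 E v y j)
    (PE_nonneg h0 h1 _ _) (ppi_nonneg h0 h1 _ _)

/-- **The tree bound.** -/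
theorem PE_tree_le (h0 : 0 ≤ p) (h1 : p ≤ 1) (E : Finset (Ed d)) (x a w : V d) (r m : ℕ) :
    PE p E {S | Rch S x r a ∧ Rch S x m w} ≤
      ∑ u ∈ Lam x r, ppi p r (u - x) * ppi p r (a - u) * ppi p m (w - u) := by
  have h2 : {S : Set (Ed d) | Rch S x r a ∧ Rch S x m w} ⊆
      ⋃ u ∈ Lam x r, Box (Box {S : Set (Ed d) | Rch S x r u} {S | Rch S u r a})
        {S | Rch S u m w} := by
    rintro S ⟨h3, h4⟩
    obtain ⟨u, i, j, h5, h6⟩ := box_tree h3 h4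
    rw [Set.mem_iUnion₂]
    have h7 : Rch S x i u := by
      obtain ⟨I, _, hI, _, _, ⟨A, _, hA, _, _, hA', _⟩, _⟩ := h6
      exact hA'.mono (hA.trans hI) le_rfl
    refine ⟨u, ?_, ?_⟩
    · rw [mem_Lam, dst_comm]
      exact (rch_dst h7).trans (by omega)
    · exact box_mono (box_mono (fun T hT => Rch.mono hT subset_rfl (by omega))
        (fun T hT => Rch.mono hT subset_rfl (by omega))) subset_rfl h6
  refine (PE_mono h0 h1 E h2).trans ((Pr_biUnion_le (wt_p h0 h1) E _ _).trans ?_)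
  apply sum_le_sum
  intro u _
  refine (bk (wt_p h0 h1) E (box_inc _ _) (inc_Rch u m w)).trans ?_
  exact mul_le_mul (PE_box_le h0 h1 E x u u a r r) (PE_le_ppi h0 h1 E u w m)
    (PE_nonneg h0 h1 _ _) (mul_nonneg (ppi_nonneg h0 h1 _ _) (ppi_nonneg h0 h1 _ _))

end Pool.Agent.Lib.MP_06caae_pr
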