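import Pool.Agent.Lib.MP_566bac_pr.Zd.Cond

/-!
# Expectations in finite volume and the van den Berg - Kesten inequality

`Box A B` is the disjoint occurrence of the increasing events `A` and `B`. The inequality is proved
with an additional decreasing event `F`:
`P(Box X D ∩ F) ≤ P(X) P(D ∩ F)`.
-/

open Finset

namespace Pool.Agent.Lib.MP_06caae_pr

open Pool.Agent.Lib.MP_566bac_pr.Zd

variable {ι : Type*}

section
open Classical

/-- the indicator of a proposition -/
noncomputable def ind (P : Prop) : ℝ := if P then 1 else 0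

lemma ind_true {P : Prop} (h : P) : ind P = 1 := if_pos h

lemma ind_false {P : Prop} (h : ¬ P) : ind P = 0 := if_neg h

lemma ind_nonneg (P : Prop) : 0 ≤ ind P := by
  unfold ind
  split_ifs <;> norm_num

lemma ind_le_one (P : Prop) : ind P ≤ 1 := by
  unfold ind
  split_ifs <;> norm_num

lemma ind_mono {P Q : Prop} (h : P → Q) : ind P ≤ ind Q := by
  by_cases hP : P
  · rw [ind_true hP, ind_true (h hP)]
  · rw [ind_false hP]
    exact ind_nonneg Q

/-- expectations in finite volume -/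
noncomputable def Ex (w : ι → ℝ) (E : Finset ι) (f : Set ι → ℝ) : ℝ :=
  ∑ ω ∈ E.powerset, wt w E ω * f ω

lemma Ex_ind (w : ι → ℝ) (E : Finset ι) (A : Set (Set ι)) :
    Ex w E (fun S => ind (S ∈ A)) = Pr w E A := by
  unfold Ex Pr ind
  apply sum_congr rfl
  intro ω _
  by_cases h : (ω : Set ι) ∈ A
  · simp only [if_pos h, mul_one]
  · simp only [if_neg h, mul_zero]

lemma Ex_congr {w : ι → ℝ} {E : Finset ι} {f g : Set ι → ℝ}
    (h : ∀ ω : Finset ι, ω ⊆ E → f ω = g ω) : Ex w E f = Ex w E g := by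
  unfold Ex
  apply sum_congr rfl
  intro ω hω
  rw [h ω (mem_powerset.mp hω)]

lemma Ex_mono' {w : ι → ℝ} (hw : Wt w) {E : Finset ι} {f g : Set ι → ℝ}
    (h : ∀ ω : Finset ι, ω ⊆ E → f ω ≤ g ω) : Ex w E f ≤ Ex w E g := by
  unfold Ex
  apply sum_le_sum
  intro ω hω
  exact mul_le_mul_of_nonneg_left (h ω (mem_powerset.mp hω)) (wt_nonneg hw E ω)

lemma Ex_mono {w : ι → ℝ} (hw : Wt w) {E : Finset ι} {f g : Set ι → ℝ}
    (h : ∀ S, f S ≤ g S) : Ex w E f ≤ Ex w E g := Ex_mono' hw fun _ _ => h _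

lemma Ex_nonneg {w : ι → ℝ} (hw : Wt w) {E : Finset ι} {f : Set ι → ℝ}
    (h : ∀ S, 0 ≤ f S) : 0 ≤ Ex w E f := by
  unfold Ex
  exact sum_nonneg fun ω _ => mul_nonneg (wt_nonneg hw E ω) (h _)

lemma Ex_add (w : ι → ℝ) (E : Finset ι) (f g : Set ι → ℝ) :
    Ex w E (fun S => f S + g S) = Ex w E f + Ex w E g := by
  unfold Ex
  rw [← sum_add_distrib]
  apply sum_congr rfl
  intro ω _
  ring

lemma Ex_mul (w : ι → ℝ) (E : Finset ι) (c : ℝ) (f : Set ι → ℝ) :
    Ex w E (fun S => c * f S) = c * Ex w E f := by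
  unfold Ex
  rw [mul_sum]
  apply sum_congr rfl
  intro ω _
  ring

lemma Ex_sum (w : ι → ℝ) (E : Finset ι) {κ : Type*} (s : Finset κ) (f : κ → Set ι → ℝ) :
    Ex w E (fun S => ∑ k ∈ s, f k S) = ∑ k ∈ s, Ex w E (f k) := by
  unfold Ex
  rw [sum_comm]
  apply sum_congr rfl
  intro ω _
  rw [mul_sum]

lemma Ex_const (w : ι → ℝ) (E : Finset ι) (c : ℝ) : Ex w E (fun _ => c) = c := by
  unfold Ex
  rw [← sum_mul, sum_wt, one_mul]

lemma Ex_empty (w : ι → ℝ) (f : Set ι → ℝ) : Ex w ∅ f = f ∅ := by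
  simp [Ex, wt]

lemma Ex_insert {w : ι → ℝ} {E : Finset ι} {e : ι} (he : e ∉ E) (f : Set ι → ℝ) :
    Ex w (insert e E) f =
      w e * Ex w E (fun S => f (insert e S)) + (1 - w e) * Ex w E (fun S => f (S \ {e})) := by
  unfold Ex
  rw [Finset.sum_powerset_insert he, mul_sum, mul_sum, add_comm]
  congr 1
  · apply sum_congr rfl
    intro ω hω
    rw [mem_powerset] at hω
    have h1 : e ∉ ω := fun h => he (hω h)
    have h2 : wt w (insert e E) (insert e ω) = w e * wt w E ω := by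
      unfold wt
      rw [prod_insert h1, mul_assoc]
      congr 3
      ext x
      simp only [mem_sdiff, mem_insert]
      constructor
      · rintro ⟨h3 | h3, h4⟩
        · exact absurd (Or.inl h3) h4
        · exact ⟨h3, fun h5 => h4 (Or.inr h5)⟩
      · rintro ⟨h3, h4⟩
        refine ⟨Or.inr h3, ?_⟩
        rintro (rfl | h5)
        · exact he h3
        · exact h4 h5
    rw [Finset.coe_insert, h2]
    ring
  · apply sum_congr rfl
    intro ω hω
    rw [mem_powerset] at hω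
    have h1 : e ∉ ω := fun h => he (hω h)
    have h2 : (ω : Set ι) \ {e} = ω := by
      ext x
      simp only [Set.mem_sdiff, Finset.mem_coe, Set.mem_singleton_iff]
      refine ⟨fun h => h.1, fun h => ⟨h, ?_⟩⟩
      rintro rfl
      exact h1 h
    have h3 : wt w (insert e E) ω = (1 - w e) * wt w E ω := by
      unfold wt
      rw [Finset.insert_sdiff_of_notMem _ h1, prod_insert (by simp [he])]
      ring
    rw [h3]
    simp only [h2]
    ring

/-! ### disjoint occurrence -/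

/-- disjoint occurrence of two increasing events -/
def Box (A B : Set (Set ι)) : Set (Set ι) :=
  {S | ∃ I J : Set ι, I ⊆ S ∧ J ⊆ S ∧ Disjoint I J ∧ I ∈ A ∧ J ∈ B}

/-- disjoint occurrence for a set of pairs -/
def QBox (Q : Set (Set ι × Set ι)) : Set (Set ι) :=
  {S | ∃ I J : Set ι, I ⊆ S ∧ J ⊆ S ∧ Disjoint I J ∧ (I, J) ∈ Q}

lemma box_inc (A B : Set (Set ι)) : Inc (Box A B) := by
  rintro S S' h ⟨I, J, h1, h2, h3⟩
  exact ⟨I, J, h1.trans h, h2.trans h, h3⟩

lemma box_mono {A A' B B' : Set (Set ι)} (hA : A ⊆ A') (hB : B ⊆ B') : Box A B ⊆ Box A' B' := by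
  rintro S ⟨I, J, h1, h2, h3, h4, h5⟩
  exact ⟨I, J, h1, h2, h3, hA h4, hB h5⟩

lemma box_comm (A B : Set (Set ι)) : Box A B = Box B A := by
  ext S
  constructor
  · rintro ⟨I, J, h1, h2, h3, h4, h5⟩
    exact ⟨J, I, h2, h1, h3.symm, h5, h4⟩
  · rintro ⟨I, J, h1, h2, h3, h4, h5⟩
    exact ⟨J, I, h2, h1, h3.symm, h5, h4⟩

/-- increasing in both components -/
def Inc2 (Q : Set (Set ι × Set ι)) : Prop :=
  ∀ I I' J J' : Set ι, I ⊆ I' → J ⊆ J' → (I, J) ∈ Q → (I', J') ∈ Q

/-- the comparison in one coordinate -/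
lemma cmp {q : ℝ} (h0 : 0 ≤ q) (h1 : q ≤ 1) {q11 q10 q01 q00 f1 f0 : Prop} (c1 : q00 → q01)
    (c2 : q00 → q10) (c3 : q01 → q11) (c4 : q10 → q11) (c5 : f1 → f0) :
    q * ind ((q10 ∨ q01) ∧ f1) + (1 - q) * ind (q00 ∧ f0) ≤
      q * (q * ind (q11 ∧ f1) + (1 - q) * ind (q01 ∧ f1)) +
        (1 - q) * (q * ind (q10 ∧ f0) + (1 - q) * ind (q00 ∧ f0)) := by
  have h1' : 0 ≤ 1 - q := by linarith
  have hqq : 0 ≤ q * (1 - q) := mul_nonneg h0 h1'
  by_cases hf1 : f1
  · have hf0 := c5 hf1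
    simp only [hf1, hf0, and_true]
    by_cases h00 : q00
    · have a1 := c1 h00
      have a2 := c2 h00
      rw [ind_true h00, ind_true a1, ind_true a2, ind_true (c3 a1), ind_true (Or.inl a2)]
      nlinarith
    · by_cases h10 : q10
      · rw [ind_true (c4 h10), ind_true h10, ind_false h00, ind_true (Or.inl h10)]
        nlinarith [ind_nonneg q01, mul_nonneg hqq (ind_nonneg q01)]
      · by_cases h01 : q01
        · rw [ind_true (c3 h01), ind_false h10, ind_false h00, ind_true (Or.inr h01),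
            ind_true h01]
          nlinarith
        · rw [ind_false h10, ind_false h00, ind_false h01, ind_false (fun h => h.elim h10 h01)]
          nlinarith [ind_nonneg q11, mul_nonneg (mul_nonneg h0 h0) (ind_nonneg q11)]
  · simp only [hf1, and_false]
    by_cases hf0 : f0
    · simp only [hf0, and_true]
      by_cases h00 : q00
      · rw [ind_true (c2 h00), ind_true h00, ind_false not_false]
        nlinarith
      · rw [ind_false h00, ind_false not_false]
        nlinarith [ind_nonneg q10, mul_nonneg hqq (ind_nonneg q10)]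
    · simp only [hf0, and_false]
      rw [ind_false not_false]
      linarith

lemma qbox_le {w : ι → ℝ} (hw : Wt w) (E : Finset ι) :
    ∀ {Q : Set (Set ι × Set ι)} {F : Set (Set ι)}, Inc2 Q → Inc Fᶜ →
      Pr w E (QBox Q ∩ F) ≤
        Ex w E fun T => Ex w E fun S => ind ((S, T) ∈ Q ∧ T ∈ F) := by
  induction E using Finset.induction_on with
  | empty =>
    intro Q F hQ _
    rw [Pr_empty, Ex_empty, Ex_empty]
    have : (∅ : Set ι) ∈ QBox Q ∩ F → (((∅ : Set ι), (∅ : Set ι)) ∈ Q ∧ (∅ : Set ι) ∈ F) := by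
      rintro ⟨⟨I, J, h1, h2, _, h4⟩, h5⟩
      exact ⟨hQ _ _ _ _ h1 h2 h4, h5⟩
    exact ind_mono this
  | insert e E he ih =>
    intro Q F hQ hF
    obtain ⟨h0, h1⟩ := hw e
    have h1' : 0 ≤ 1 - w e := by linarith
    have hF' : ∀ S S' : Set ι, S ⊆ S' → S' ∈ F → S ∈ F := by
      intro S S' h h2
      by_contra h3
      exact hF S S' h h3 h2
    rw [Pr_insert he, Ex_insert he]
    simp_rw [Ex_insert he]
    -- the two pieces
    set Q1 : Set (Set ι × Set ι) :=
      {x | (insert e x.1, x.2 \ {e}) ∈ Q ∨ (x.1 \ {e}, insert e x.2) ∈ Q} with hQ1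
    set Q0 : Set (Set ι × Set ι) := {x | (x.1 \ {e}, x.2 \ {e}) ∈ Q} with hQ0
    set F1 : Set (Set ι) := {S | insert e S ∈ F} with hF1
    set F0 : Set (Set ι) := {S | S \ {e} ∈ F} with hF0
    have i1 : Inc2 Q1 := by
      rintro I I' J J' hI hJ (h | h)
      · exact Or.inl (hQ _ _ _ _ (Set.insert_subset_insert hI) (Set.sdiff_subset_sdiff_left hJ) h)
      · exact Or.inr (hQ _ _ _ _ (Set.sdiff_subset_sdiff_left hI) (Set.insert_subset_insert hJ) h)
    have i0 : Inc2 Q0 := by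
      intro I I' J J' hI hJ h
      exact hQ _ _ _ _ (Set.sdiff_subset_sdiff_left hI) (Set.sdiff_subset_sdiff_left hJ) h
    have j1 : Inc F1ᶜ := by
      intro S S' h h2 h3
      exact h2 (hF' _ _ (Set.insert_subset_insert h) h3)
    have j0 : Inc F0ᶜ := by
      intro S S' h h2 h3
      exact h2 (hF' _ _ (Set.sdiff_subset_sdiff_left h) h3)
    have k1 : Pr w E {S | insert e S ∈ QBox Q ∩ F} ≤ Pr w E (QBox Q1 ∩ F1) := by
      apply Pr_mono' hw
      rintro ω hω ⟨⟨I, J, h2, h3, h4, h5⟩, h6⟩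
      have heω : e ∉ (ω : Set ι) := fun h => he (hω h)
      refine ⟨⟨I \ {e}, J \ {e}, ?_, ?_, ?_, ?_⟩, h6⟩
      · rintro x ⟨hx, hx'⟩
        exact (h2 hx).resolve_left hx'
      · rintro x ⟨hx, hx'⟩
        exact (h3 hx).resolve_left hx'
      · exact h4.mono Set.sdiff_subset Set.sdiff_subset
      · by_cases heI : e ∈ I
        · left
          have heJ : e ∉ J := Set.disjoint_left.mp h4 heI
          refine hQ _ _ _ _ ?_ ?_ h5
          · intro x hx
            by_cases hxe : x = e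
            · exact Or.inl hxe
            · exact Or.inr ⟨hx, hxe⟩
          · intro x hx
            have : x ≠ e := by
              rintro rfl
              exact heJ hx
            exact ⟨⟨hx, this⟩, this⟩
        · right
          refine hQ _ _ _ _ ?_ ?_ h5
          · intro x hx
            have : x ≠ e := by
              rintro rfl
              exact heI hx
            exact ⟨⟨hx, this⟩, this⟩
          · intro x hx
            by_cases hxe : x = e
            · exact Or.inl hxe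
            · exact Or.inr ⟨hx, hxe⟩
    have k0 : Pr w E {S | S \ {e} ∈ QBox Q ∩ F} ≤ Pr w E (QBox Q0 ∩ F0) := by
      apply Pr_mono' hw
      rintro ω hω ⟨⟨I, J, h2, h3, h4, h5⟩, h6⟩
      refine ⟨⟨I, J, h2.trans Set.sdiff_subset, h3.trans Set.sdiff_subset, h4, ?_⟩, h6⟩
      refine hQ _ _ _ _ ?_ ?_ h5
      · intro x hx
        exact ⟨hx, (h2 hx).2⟩
      · intro x hx
        exact ⟨hx, (h3 hx).2⟩
    have l1 := k1.trans (ih i1 j1)
    have l0 := k0.trans (ih i0 j0)
    have m1 := mul_le_mul_of_nonneg_left l1 h0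
    have m0 := mul_le_mul_of_nonneg_left l0 h1'
    refine (add_le_add m1 m0).trans ?_
    rw [← Ex_mul, ← Ex_mul, ← Ex_mul, ← Ex_mul, ← Ex_add, ← Ex_add]
    apply Ex_mono hw
    intro T
    simp_rw [← Ex_mul, ← Ex_add]
    rw [← Ex_mul, ← Ex_mul, ← Ex_add]
    apply Ex_mono hw
    intro S
    -- the comparison in one coordinate
    have c1 : (S \ {e}, T \ {e}) ∈ Q → (S \ {e}, insert e T) ∈ Q :=
      hQ _ _ _ _ subset_rfl (Set.sdiff_subset.trans (Set.subset_insert _ _))
    have c2 : (S \ {e}, T \ {e}) ∈ Q → (insert e S, T \ {e}) ∈ Q :=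
      hQ _ _ _ _ (Set.sdiff_subset.trans (Set.subset_insert _ _)) subset_rfl
    have c3 : (S \ {e}, insert e T) ∈ Q → (insert e S, insert e T) ∈ Q :=
      hQ _ _ _ _ (Set.sdiff_subset.trans (Set.subset_insert _ _)) subset_rfl
    have c4 : (insert e S, T \ {e}) ∈ Q → (insert e S, insert e T) ∈ Q :=
      hQ _ _ _ _ subset_rfl (Set.sdiff_subset.trans (Set.subset_insert _ _))
    have c5 : insert e T ∈ F → T \ {e} ∈ F :=
      hF' _ _ (Set.sdiff_subset.trans (Set.subset_insert _ _))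
    have e1 : ((S, T) ∈ Q1 ∧ T ∈ F1) ↔
        (((insert e S, T \ {e}) ∈ Q ∨ (S \ {e}, insert e T) ∈ Q) ∧ insert e T ∈ F) := Iff.rfl
    have e0 : ((S, T) ∈ Q0 ∧ T ∈ F0) ↔ ((S \ {e}, T \ {e}) ∈ Q ∧ T \ {e} ∈ F) := Iff.rfl
    rw [e1, e0]
    exact cmp h0 h1 c1 c2 c3 c4 c5

/-- **The inequality of van den Berg and Kesten**, with a decreasing factor. -/
theorem bk_dec {w : ι → ℝ} (hw : Wt w) (E : Finset ι) {X D F : Set (Set ι)} (hX : Inc X)
    (hD : Inc D) (hF : Inc Fᶜ) :
    Pr w E (Box X D ∩ F) ≤ Pr w E X * Pr w E (D ∩ F) := by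
  have h1 := qbox_le hw E (Q := {x | x.1 ∈ X ∧ x.2 ∈ D}) (F := F)
    (fun I I' J J' hI hJ h => ⟨hX _ _ hI h.1, hD _ _ hJ h.2⟩) hF
  refine h1.trans (le_of_eq ?_)
  rw [← Ex_ind w E (D ∩ F), ← Ex_mul]
  congr 1
  ext T
  rw [← Ex_ind w E X, mul_comm, ← Ex_mul]
  congr 1
  ext S
  by_cases h2 : S ∈ X <;> by_cases h3 : T ∈ D <;> by_cases h4 : T ∈ F <;>
    simp [ind, h2, h3, h4]

/-- **The inequality of van den Berg and Kesten.** -/
theorem bk {w : ι → ℝ} (hw : Wt w) (E : Finset ι) {A B : Set (Set ι)} (hA : Inc A)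
    (hB : Inc B) : Pr w E (Box A B) ≤ Pr w E A * Pr w E B := by
  have h := bk_dec hw E (F := Set.univ) hA hB (by
    intro S S' _ h
    exact absurd trivial h)
  rwa [Set.inter_univ, Set.inter_univ] at h

end

end Pool.Agent.Lib.MP_06caae_pr
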