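import Pool.Agent.Lib.MP_06caae_pr.Trans
import Pool.Agent.Lib.MP_06caae_pr.Q.Good

/-!
# The field `lane` of `IICGood`: lane numbers around some point near every point of a large ball

If all points near some `z` in the ball of radius `lam R` have a bad lane number then at least `v R ^ 2`
points of the ball of radius `(lam + 1) R` are bad; mass transport bounds the expected number of bad points.
-/

open Finset SimpleGraph MeasureTheory Filter Topology
open Pool.Agent.Lib.MP_566bac_pr.Zd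
open Pool.Agent.Lib.IICQ

namespace Pool.Agent.Lib.MP_06caae_pr

variable {d : ℕ}

/-! ### counting lemmas -/

open Classical in
/-- Markov for the number of events that occur -/
lemma count_markov {Ω ι : Type*} [MeasurableSpace Ω] {ν : Measure Ω} [IsFiniteMeasure ν] (Y : Finset ι)
    (A : ι → Set Ω) (hA : ∀ y ∈ Y, MeasurableSet (A y)) {t : ℝ} (ht : 0 < t) :
    ν.real {S | t ≤ ((Y.filter fun y => S ∈ A y).card : ℝ)} ≤ (∑ y ∈ Y, ν.real (A y)) / t := by
  have h1 : ∀ S, ∑ y ∈ Y, (A y).indicator (fun _ => (1 : ℝ)) S = ((Y.filter fun y => S ∈ A y).card : ℝ) := by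
    intro S
    rw [card_filter]
    push_cast
    refine sum_congr rfl fun y _ => ?_
    rw [Set.indicator_apply]
  have hint : ∀ y ∈ Y, Integrable ((A y).indicator (fun _ => (1 : ℝ))) ν := fun y hy =>
    (integrable_const 1).indicator (hA y hy)
  have h2 := mul_meas_ge_le_integral_of_nonneg (μ := ν) (f := fun S => ∑ y ∈ Y, (A y).indicator (fun _ => (1 : ℝ)) S)
    (Filter.Eventually.of_forall fun S => sum_nonneg fun y _ => Set.indicator_nonneg (fun _ _ => zero_le_one) _)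
    (integrable_finsetSum _ hint) t
  rw [integral_finsetSum _ hint] at h2
  have h3 : ∀ y ∈ Y, ∫ S, (A y).indicator (fun _ => (1 : ℝ)) S ∂ν = ν.real (A y) := fun y hy =>
    integral_indicator_one (hA y hy)
  rw [sum_congr rfl h3] at h2
  rw [le_div_iff₀ ht, mul_comm]
  simp only [h1] at h2
  exact h2

/-- Markov for the number of events that occur, second form -/
lemma count_markov' {Ω ι : Type*} [MeasurableSpace Ω] {ν : Measure Ω} [IsFiniteMeasure ν] (Y : Finset ι)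
    (A : ι → Set Ω) (hA : ∀ y ∈ Y, MeasurableSet (A y)) {t : ℝ} (ht : 0 < t) {T : Set Ω}
    (hT : ∀ S ∈ T, ∃ B ⊆ Y, (∀ y ∈ B, S ∈ A y) ∧ t ≤ (B.card : ℝ)) :
    ν.real T ≤ (∑ y ∈ Y, ν.real (A y)) / t := by
  classical
  refine le_trans (measureReal_mono (fun S hS => ?_) (measure_ne_top _ _)) (count_markov Y A hA ht)
  obtain ⟨B, hBY, hB, hBt⟩ := hT S hS
  refine hBt.trans (Nat.cast_le.2 (card_le_card fun y hy => ?_))
  rw [mem_filter]
  exact ⟨hBY hy, hB y hy⟩

open Classical in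
/-- if at most `N` of the events occur on `K` -/
lemma sum_meas_le {Ω ι : Type*} [MeasurableSpace Ω] {ν : Measure Ω} [IsFiniteMeasure ν] (Y : Finset ι)
    (A : ι → Set Ω) (hA : ∀ y ∈ Y, MeasurableSet (A y)) {K : Set Ω} (hK : MeasurableSet K) {N : ℝ}
    (h : ∀ S ∈ K, ((Y.filter fun y => S ∈ A y).card : ℝ) ≤ N) :
    ∑ y ∈ Y, ν.real (K ∩ A y) ≤ N * ν.real K := by
  have hint : ∀ y ∈ Y, Integrable ((K ∩ A y).indicator (fun _ => (1 : ℝ))) ν := fun y hy =>
    (integrable_const 1).indicator (hK.inter (hA y hy))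
  have h3 : ∀ y ∈ Y, ν.real (K ∩ A y) = ∫ S, (K ∩ A y).indicator (fun _ => (1 : ℝ)) S ∂ν := fun y hy =>
    (integral_indicator_one (hK.inter (hA y hy))).symm
  rw [sum_congr rfl h3, ← integral_finsetSum _ hint]
  have h4 : N * ν.real K = ∫ S, K.indicator (fun _ => N) S ∂ν := by
    rw [integral_indicator_const N hK, smul_eq_mul, mul_comm]
  rw [h4]
  refine integral_mono (integrable_finsetSum _ hint) ((integrable_const N).indicator hK) fun S => ?_
  show ∑ y ∈ Y, (K ∩ A y).indicator (fun _ => (1 : ℝ)) S ≤ K.indicator (fun _ => N) S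
  by_cases hS : S ∈ K
  · rw [Set.indicator_of_mem hS]
    refine le_trans (le_of_eq ?_) (h S hS)
    rw [card_filter]
    push_cast
    refine sum_congr rfl fun y _ => ?_
    rw [Set.indicator_apply]
    simp only [Set.mem_inter_iff, hS, true_and]
  · rw [Set.indicator_of_notMem hS]
    refine le_of_eq (sum_eq_zero fun y _ => ?_)
    rw [Set.indicator_of_notMem fun h => hS h.1]

/-! ### the volume of a ball under translation -/

lemma vol_trans (S : Set (Ed d)) (y : V d) (r : ℕ) : vol (pull (transE y) S) 0 r = vol S y r := by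
  have h := ball_map (isAuto_transE y) S 0 r
  rw [transE_apply, zero_add] at h
  unfold vol
  rw [← h, card_map]

lemma meas_loc {A : Set (Set (Ed d))} (h : Loc A) : MeasurableSet A := h.meas

section
variable {p : unitInterval} {ν : Measure (Set (Ed d))}

/-- bad points of the ball: their expected number, by mass transport -/
theorem count_bad (hν : IsIIC p ν) (hp : 0 < (p : ℝ)) (hd : 0 < d) {K : Set (Set (Ed d))} (hK : Loc K) {R' : ℕ}
    {N : ℝ} (hN : ∀ S ∈ K, (vol S (0 : V d) R' : ℝ) ≤ N) :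
    ∑ y ∈ (Lam 0 R' : Finset (V d)), ν.real {S | Rch S 0 R' y ∧ pull (transE y) S ∈ K} ≤ N * ν.real K := by
  classical
  have := hν.prob
  have h1 : ∀ y : V d, ν.real {S | Rch S 0 R' y ∧ pull (transE y) S ∈ K} =
      ν.real (K ∩ {T : Set (Ed d) | Rch T 0 R' (-y)}) := by
    intro y
    have h2 := transport hν hp hd y (A := K ∩ {T : Set (Ed d) | Rch T 0 R' (-y)}) (hK.inter (loc_rch 0 R' (-y)))
      (fun T hT => (Rch.con hT.2).symm)
    rw [← h2]
    congr 1
    ext S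
    simp only [Set.mem_setOf_eq, Set.mem_preimage, Set.mem_inter_iff]
    rw [rch_pull (isAuto_transE y), transE_apply, transE_apply, zero_add, neg_add_cancel]
    exact ⟨fun h => ⟨h.2, h.1.symm⟩, fun h => ⟨h.2.symm, h.1⟩⟩
  rw [sum_congr rfl fun y _ => h1 y]
  refine sum_meas_le _ (fun y => {T : Set (Ed d) | Rch T 0 R' (-y)}) (fun y _ => (loc_rch 0 R' (-y)).meas) hK.meas
    fun S hS => le_trans ?_ (hN S hS)
  unfold vol
  refine Nat.cast_le.2 ?_
  refine card_le_card_of_injOn (fun y => -y) (fun y hy => ?_) (fun a _ b _ h => neg_injective h)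
  rw [mem_coe, mem_filter] at hy
  exact mem_coe.2 (mem_ball.2 hy.2)

/-- the field `lane` -/
theorem iic_lane (hν : IsIIC p ν) (hp : 0 < (p : ℝ)) (hd : 0 < d) {C C1 C2 : ℝ} (hC : 0 ≤ C) (hC10 : 0 ≤ C1)
    (hC20 : 0 ≤ C2)
    (hmom : ∀ (E : Finset (Ed d)) (r : ℕ), 1 ≤ r → EE (p : ℝ) E (fun S => (vol S (0 : V d) r : ℝ) ^ 2) ≤ C * (r : ℝ) ^ 3)
    (hC1 : ∀ r : ℕ, 1 ≤ r → GG d p r ≤ C1 * r)
    (hC2 : ∀ (E' : Finset (Ed d)) (u : V d) (s : ℕ), 1 ≤ s → PE (p : ℝ) E' {S | (sph S u s).Nonempty} ≤ C2 / s)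
    (hlow : ∀ (lam q : ℕ), 1 ≤ lam → 1 ≤ q → ∀ ε > (0 : ℝ), ∃ v : ℝ, 0 < v ∧ ∃ R0 : ℕ, ∀ R ≥ R0,
      ν.real {S | ∃ z ∈ ball S (0 : V d) (lam * R), (vol S z (R / q) : ℝ) < v * (R : ℝ) ^ 2} ≤ ε)
    (lam q : ℕ) (hlam : 1 ≤ lam) (hq : 1 ≤ q) (ε : ℝ) (hε : 0 < ε) : ∃ M : ℝ, ∃ R0 : ℕ, ∀ R ≥ R0,
    ν.real {S | ∃ z ∈ ball S (0 : V d) (lam * R), ∀ y ∈ ball S z (R / q / 4),
      M * ((R / q : ℕ) : ℝ) < (laneS S y (R / q) : ℝ)} ≤ ε := by
  classical
  have := hν.prob
  obtain ⟨v, hv, R1, hR1⟩ := hlow lam (q * 4) hlam (by omega) (ε / 3) (by positivity)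
  obtain ⟨L, hLdef⟩ : ∃ L, L = 9 * C / ε + 1 := ⟨_, rfl⟩
  have hL : 0 < L := by rw [hLdef]; positivity
  have hL3 : 3 * C / L ≤ ε / 3 := by
    rw [div_le_div_iff₀ hL (by norm_num), hLdef]
    have : ε * (9 * C / ε + 1) = 9 * C + ε := by field_simp
    rw [this]
    linarith
  obtain ⟨D, hDdef⟩ : ∃ D, D = 12 * L * (lam + 1) ^ 2 / (v * ε) := ⟨_, rfl⟩
  have hD : 0 < D := by rw [hDdef]; positivity
  obtain ⟨M, hMdef⟩ : ∃ M, M = 8 * C * C1 * C2 * D ^ 2 + 1 := ⟨_, rfl⟩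
  have hM : 0 < M := by rw [hMdef]; positivity
  refine ⟨M, max R1 (2 * q), fun R hR => ?_⟩
  have hRR1 : R1 ≤ R := (le_max_left _ _).trans hR
  have hR2q : 2 * q ≤ R := (le_max_right _ _).trans hR
  have hR1' : 1 ≤ R := by omega
  have hR0 : (0 : ℝ) < R := by exact_mod_cast hR1'
  obtain ⟨r, hrdef⟩ : ∃ r, r = R / q := ⟨_, rfl⟩
  have hr2 : 2 ≤ r := by
    rw [hrdef, Nat.le_div_iff_mul_le (by omega)]
    exact hR2q
  have hrR : r ≤ R := by rw [hrdef]; exact Nat.div_le_self R q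
  obtain ⟨R', hR'def⟩ : ∃ R', R' = (lam + 1) * R := ⟨_, rfl⟩
  have hR'1 : 1 ≤ R' := by rw [hR'def]; nlinarith
  have hR'lam : lam * R + r / 4 ≤ R' := by
    rw [hR'def]
    have : r / 4 ≤ R := (Nat.div_le_self r 4).trans hrR
    nlinarith
  obtain ⟨N, hNdef⟩ : ∃ N : ℝ, N = L * ((2 * R' : ℕ) : ℝ) ^ 2 := ⟨_, rfl⟩
  have hN0 : 0 ≤ N := by rw [hNdef]; positivity
  rw [← hrdef]
  -- the three bad events
  have b1 := hR1 R hRR1
  have b2 := (iic_up hν hp hd hC hmom (R := 2 * R') (by omega) hL).trans hL3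
  obtain ⟨K, hKdef⟩ : ∃ K : Set (Set (Ed d)), K = {S : Set (Ed d) | M * (r : ℝ) < (laneS S (0 : V d) r : ℝ)} ∩
    {S | (vol S (0 : V d) R' : ℝ) ≤ N} := ⟨_, rfl⟩
  have hK : Loc K := by
    rw [hKdef]
    exact (loc_lane 0 r _).inter (loc_vol 0 R' fun n => (n : ℝ) ≤ N)
  have hKN : ∀ S ∈ K, (vol S (0 : V d) R' : ℝ) ≤ N := by
    intro S hS
    rw [hKdef] at hS
    exact hS.2
  have hKle : ν.real K ≤ 1 / D := by
    have h1 : ν.real K ≤ ν.real {S : Set (Ed d) | M * (r : ℝ) < (laneS S (0 : V d) r : ℝ)} := by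
      refine measureReal_mono ?_ (measure_ne_top _ _)
      rw [hKdef]
      exact Set.inter_subset_left
    refine h1.trans ((iic_lane0 hν hp hd hC hC10 hC20 hmom hC1 hC2 hr2 hM).trans ?_)
    rw [Real.sqrt_le_iff]
    refine ⟨by positivity, ?_⟩
    rw [div_pow, one_pow, div_le_div_iff₀ hM (by positivity), one_mul, hMdef]
    linarith
  have h2 := count_bad hν hp hd hK hKN
  have hmeas : ∀ y ∈ (Lam 0 R' : Finset (V d)), MeasurableSet {S : Set (Ed d) | Rch S 0 R' y ∧ pull (transE y) S ∈ K} :=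
    fun y _ => ((loc_rch 0 R' y).inter (Loc.pull (isAuto_transE y) hK)).meas
  have hvR : 0 < v * (R : ℝ) ^ 2 := by positivity
  obtain ⟨W, hWdef⟩ : ∃ W : Set (Set (Ed d)), W = {S : Set (Ed d) | ∃ z ∈ ball S (0 : V d) (lam * R),
      (vol S z (R / (q * 4)) : ℝ) < v * (R : ℝ) ^ 2} ∪
    {S | L * ((2 * R' : ℕ) : ℝ) ^ 2 < (vol S (0 : V d) (2 * R') : ℝ)} := ⟨_, rfl⟩
  have hW : ν.real W ≤ ε / 3 + ε / 3 := by
    rw [hWdef]
    exact (measureReal_union_le _ _).trans (add_le_add b1 b2)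
  have b3 : ν.real ({S | ∃ z ∈ ball S (0 : V d) (lam * R), ∀ y ∈ ball S z (r / 4),
      M * (r : ℝ) < (laneS S y r : ℝ)} \ W) ≤ ε / 3 := by
    refine (count_markov' (ν := ν) (Lam 0 R' : Finset (V d))
      (fun y => {S : Set (Ed d) | Rch S 0 R' y ∧ pull (transE y) S ∈ K}) hmeas hvR ?_).trans ?_
    · rintro S ⟨⟨z, hz, hzy⟩, hSW⟩
      rw [hWdef] at hSW
      have c1 : ¬ ∃ z ∈ ball S (0 : V d) (lam * R), (vol S z (R / (q * 4)) : ℝ) < v * (R : ℝ) ^ 2 :=
        fun h => hSW (Or.inl h)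
      have c2 : (vol S (0 : V d) (2 * R') : ℝ) ≤ N := by
        rw [hNdef]
        exact not_lt.1 fun h => hSW (Or.inr h)
      have c1' : v * (R : ℝ) ^ 2 ≤ (vol S z (r / 4) : ℝ) := by
        have h4 : R / (q * 4) = r / 4 := by rw [hrdef, Nat.div_div_eq_div_mul]
        rw [h4] at c1
        exact not_lt.1 fun h => c1 ⟨z, hz, h⟩
      have hy0 : ∀ y ∈ ball S z (r / 4), Rch S 0 R' y := fun y hy =>
        ((mem_ball.1 hz).trans (mem_ball.1 hy)).mono subset_rfl hR'lam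
      refine ⟨ball S z (r / 4), fun y hy => ball_sub_Lam S 0 R' (mem_ball.2 (hy0 y hy)), fun y hy =>
        ⟨hy0 y hy, ?_⟩, c1'⟩
      rw [hKdef]
      refine ⟨?_, ?_⟩
      · show M * (r : ℝ) < (laneS (pull (transE y) S) (0 : V d) r : ℝ)
        rw [laneS_trans]
        exact hzy y hy
      · show (vol (pull (transE y) S) (0 : V d) R' : ℝ) ≤ N
        rw [vol_trans]
        refine le_trans ?_ c2
        unfold vol
        refine Nat.cast_le.2 (card_le_card fun w hw => ?_)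
        exact mem_ball.2 (((hy0 y hy).trans (mem_ball.1 hw)).mono subset_rfl (by omega))
    · rw [div_le_iff₀ hvR]
      refine h2.trans ((mul_le_mul_of_nonneg_left hKle hN0).trans (le_of_eq ?_))
      rw [hNdef, hDdef, hR'def]
      push_cast
      field_simp
      norm_num
  refine (measureReal_mono (s₂ := W ∪ ({S | ∃ z ∈ ball S (0 : V d) (lam * R), ∀ y ∈ ball S z (r / 4),
      M * (r : ℝ) < (laneS S y r : ℝ)} \ W)) (fun S hS => ?_) (measure_ne_top _ _)).trans ?_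
  · by_cases hSW : S ∈ W
    · exact Or.inl hSW
    · exact Or.inr ⟨hS, hSW⟩
  · refine (measureReal_union_le _ _).trans ?_
    linarith

end

end Pool.Agent.Lib.MP_06caae_pr
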