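import Pool.Agent.Lib.MP_06caae_pr.Fresh

/-!
# The same statements with any decidable equality
-/

open Finset

namespace Pool.Agent.Lib.MP_06caae_pr

open Pool.Agent.Lib.MP_566bac_pr.Zd

variable {ι : Type*}

lemma wt_eq [hdec : DecidableEq ι] (w : ι → ℝ) (E ω : Finset ι) :
    wt w E ω = (∏ e ∈ ω, w e) * ∏ e ∈ E \ ω, (1 - w e) := by
  have hi : hdec = fun a b => Classical.propDecidable (a = b) := Subsingleton.elim _ _
  subst hi
  rfl

lemma Ex_union' [hdec : DecidableEq ι] {w : ι → ℝ} {E F : Finset ι} (hEF : Disjoint E F)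
    (f : Set ι → ℝ) :
    Ex w (E ∪ F) f = Ex w E fun S => Ex w F fun T => f ((S ∩ E) ∪ (T ∩ F)) := by
  have hi : hdec = fun a b => Classical.propDecidable (a = b) := Subsingleton.elim _ _
  subst hi
  exact Ex_union hEF f

lemma Ex_insert' [hdec : DecidableEq ι] {w : ι → ℝ} {E : Finset ι} {e : ι} (he : e ∉ E)
    (f : Set ι → ℝ) :
    Ex w (insert e E) f =
      w e * Ex w E (fun S => f (insert e S)) + (1 - w e) * Ex w E (fun S => f (S \ {e})) := by
  have hi : hdec = fun a b => Classical.propDecidable (a = b) := Subsingleton.elim _ _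
  subst hi
  exact Ex_insert he f

end Pool.Agent.Lib.MP_06caae_pr
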