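import Pool.Agent.Lib.MP_06caae_pr.BK

/-!
# Independence and stopping sets

Functions of configurations which depend only on a (maybe infinite) set of coordinates, and the
identity for the exploration of a random set of coordinates.
-/

open Finset

namespace Pool.Agent.Lib.MP_06caae_pr

open Pool.Agent.Lib.MP_566bac_pr.Zd

variable {ι : Type*}

/-- the function `h` depends only on the coordinates in `K` -/
def DpF {β : Type*} (K : Set ι) (h : Set ι → β) : Prop :=
  ∀ S S' : Set ι, (∀ e ∈ K, (e ∈ S ↔ e ∈ S')) → h S = h S'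

/-- the event `A` depends only on the coordinates in `K` -/
def Dp (K : Set ι) (A : Set (Set ι)) : Prop :=
  ∀ S S' : Set ι, (∀ e ∈ K, (e ∈ S ↔ e ∈ S')) → (S ∈ A ↔ S' ∈ A)

/-- `S'` agrees with `S` on `K` -/
def Agree (K S S' : Set ι) : Prop := ∀ e ∈ K, (e ∈ S ↔ e ∈ S')

/-- a stopping set: the event that it is equal to `k` depends only on the coordinates in `k` -/
def Stop (K : Set ι → Set ι) : Prop := ∀ S S' : Set ι, Agree (K S) S S' → K S' = K S

/-- `g` is a function of what is revealed by the stopping set `K` -/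
def Rev {β : Type*} (K : Set ι → Set ι) (g : Set ι → β) : Prop :=
  ∀ S S' : Set ι, Agree (K S) S S' → g S' = g S

lemma Agree.symm {K S S' : Set ι} (h : Agree K S S') : Agree K S' S := fun e he => (h e he).symm

lemma dpF_ind {K : Set ι} {A : Set (Set ι)} (h : Dp K A) : DpF K (fun S => ind (S ∈ A)) := by
  intro S S' h1
  have := h S S' h1
  simp only [this]

lemma Dp.mono {K K' : Set ι} {A : Set (Set ι)} (h : K ⊆ K') (hA : Dp K A) : Dp K' A :=
  fun S S' h1 => hA S S' fun e he => h1 e (h he)

lemma DpF.mono {β : Type*} {K K' : Set ι} {f : Set ι → β} (h : K ⊆ K') (hf : DpF K f) : DpF K' f :=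
  fun S S' h1 => hf S S' fun e he => h1 e (h he)

lemma Dp.inter {K : Set ι} {A B : Set (Set ι)} (hA : Dp K A) (hB : Dp K B) : Dp K (A ∩ B) :=
  fun S S' h => and_congr (hA S S' h) (hB S S' h)

lemma Dp.compl {K : Set ι} {A : Set (Set ι)} (hA : Dp K A) : Dp K Aᶜ :=
  fun S S' h => not_congr (hA S S' h)

section
open Classical

/-- expectations over a disjoint union of coordinates -/
lemma Ex_union {w : ι → ℝ} {E F : Finset ι} (hEF : Disjoint E F) (f : Set ι → ℝ) :
    Ex w (E ∪ F) f = Ex w E fun S => Ex w F fun T => f ((S ∩ E) ∪ (T ∩ F)) := by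
  induction E using Finset.induction_on generalizing f with
  | empty =>
    rw [Ex_empty, empty_union]
    apply Ex_congr
    intro ω hω
    congr 1
    ext x
    simp only [Set.mem_union, Set.mem_inter_iff, Finset.mem_coe, Finset.notMem_empty,
      Set.mem_empty_iff_false, and_false, false_or]
    exact ⟨fun h => ⟨h, hω h⟩, fun h => h.1⟩
  | insert e E he ih =>
    rw [Finset.disjoint_insert_left] at hEF
    have he' : e ∉ E ∪ F := by
      rw [mem_union, not_or]
      exact ⟨he, hEF.1⟩
    rw [insert_union, Ex_insert he', Ex_insert he, ih hEF.2, ih hEF.2]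
    congr 1
    · congr 1
      apply Ex_congr
      intro ω hω
      apply Ex_congr
      intro η hη
      congr 1
      ext x
      simp only [Set.mem_union, Set.mem_inter_iff, Finset.mem_coe, Set.mem_insert_iff,
        Finset.mem_insert]
      have h1 : x ∈ ω → x ∈ E := fun h => hω h
      have h2 : x ∈ η → x ∈ F := fun h => hη h
      tauto
    · congr 1
      apply Ex_congr
      intro ω hω
      apply Ex_congr
      intro η hη
      congr 1
      ext x
      simp only [Set.mem_union, Set.mem_inter_iff, Finset.mem_coe, Set.mem_sdiff,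
        Set.mem_singleton_iff, Finset.mem_insert]
      have h1 : x ∈ ω → x ∈ E := fun h => hω h
      have h2 : x ∈ η → x ∈ F := fun h => hη h
      have h3 : x = e → x ∉ E := fun h => h ▸ he
      have h4 : x = e → x ∉ F := fun h => h ▸ hEF.1
      tauto

/-- **Independence** of functions of disjoint sets of coordinates. -/
theorem Ex_indep (w : ι → ℝ) (U : Finset ι) {K J : Set ι} (hKJ : Disjoint K J)
    {g h : Set ι → ℝ} (hg : DpF K g) (hh : DpF J h) :
    Ex w U (fun S => g S * h S) = Ex w U g * Ex w U h := by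
  set E := U.filter fun e => e ∈ K with hE
  set F := U.filter fun e => e ∉ K with hF
  have hEF : Disjoint E F := by
    rw [Finset.disjoint_left]
    intro e h1 h2
    exact (mem_filter.mp h2).2 (mem_filter.mp h1).2
  have hU : U = E ∪ F := by
    ext e
    simp only [hE, hF, mem_union, mem_filter]
    tauto
  have h1 : ∀ S T : Set ι, g ((S ∩ E) ∪ (T ∩ F)) = g (S ∩ U) := by
    intro S T
    apply hg
    intro e he
    simp only [hE, hF, Set.mem_union, Set.mem_inter_iff, Finset.mem_coe, mem_filter]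
    tauto
  have h2 : ∀ S T : Set ι, h ((S ∩ E) ∪ (T ∩ F)) = h (T ∩ U) := by
    intro S T
    apply hh
    intro e he
    have : e ∉ K := fun h => Set.disjoint_left.mp hKJ h he
    simp only [hE, hF, Set.mem_union, Set.mem_inter_iff, Finset.mem_coe, mem_filter]
    tauto
  rw [hU, Ex_union hEF, Ex_union hEF, Ex_union hEF]
  simp only [h1, h2]
  rw [Ex_const]
  simp only [Ex_const, Ex_mul]
  simp_rw [mul_comm (g _)]
  rw [Ex_mul, mul_comm]

lemma Pr_indepS (w : ι → ℝ) (U : Finset ι) {K J : Set ι} (hKJ : Disjoint K J)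
    {A B : Set (Set ι)} (hA : Dp K A) (hB : Dp J B) :
    Pr w U (A ∩ B) = Pr w U A * Pr w U B := by
  rw [← Ex_ind, ← Ex_ind, ← Ex_ind, ← Ex_indep w U hKJ (dpF_ind hA) (dpF_ind hB)]
  congr 1
  ext S
  by_cases h1 : S ∈ A <;> by_cases h2 : S ∈ B <;> simp [ind, h1, h2]

/-- the values of a function partition the space -/
lemma Ex_partition (w : ι → ℝ) (U : Finset ι) {κ : Type*} [DecidableEq κ] (f : Set ι → κ)
    (F : Set ι → ℝ) :
    Ex w U F = ∑ k ∈ U.powerset.image (fun ω : Finset ι => f ω),
      Ex w U (fun S => ind (f S = k) * F S) := by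
  rw [← Ex_sum]
  apply Ex_congr
  intro ω hω
  rw [← sum_mul]
  have h1 : ∑ k ∈ U.powerset.image (fun ω : Finset ι => f ω), ind (f (ω : Set ι) = k) = 1 := by
    rw [Finset.sum_eq_single (f ω)]
    · exact ind_true rfl
    · intro b _ hb
      exact ind_false hb.symm
    · intro hb
      exact absurd (mem_image.mpr ⟨ω, mem_powerset.mpr hω, rfl⟩) hb
  rw [h1, one_mul]

/-- **Exploration.** After the stopping set `K` has been revealed, the rest is fresh. -/
theorem Ex_stop (w : ι → ℝ) (U : Finset ι) {K : Set ι → Set ι} (hK : Stop K)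
    {h : Set ι → Set ι → ℝ} (h1 : Rev K h) (h2 : ∀ S, DpF (K S)ᶜ (h S)) :
    Ex w U (fun S => h S S) = Ex w U (fun S => Ex w U (h S)) := by
  set f : Set ι → Set ι × Set ι := fun S => (K S, S ∩ K S) with hf
  rw [Ex_partition w U f, Ex_partition w U f]
  apply sum_congr rfl
  intro k hk
  obtain ⟨ω, _, rfl⟩ := mem_image.mp hk
  -- the configurations with the same value of `f`
  have key : ∀ S : Set ι, f S = f ω → Agree (K ω) ω S := by
    intro S hS
    have e1 : K S = K ω := congrArg Prod.fst hS
    have e2 : S ∩ K S = (ω : Set ι) ∩ K ω := congrArg Prod.snd hS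
    rw [e1] at e2
    intro e he
    have e3 := Set.ext_iff.mp e2 e
    simp only [Set.mem_inter_iff, he, and_true] at e3
    exact e3.symm
  have e1 : ∀ S : Set ι, ind (f S = f ω) * h S S = ind (f S = f ω) * h ω S := by
    intro S
    by_cases hS : f S = f ω
    · rw [h1 ω S (key S hS)]
    · rw [ind_false hS, zero_mul, zero_mul]
  have e2 : ∀ S : Set ι, ind (f S = f ω) * Ex w U (h S) = Ex w U (h ω) * ind (f S = f ω) := by
    intro S
    by_cases hS : f S = f ω
    · rw [h1 ω S (key S hS), mul_comm]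
    · rw [ind_false hS, zero_mul, mul_zero]
  simp only [e1, e2]
  rw [Ex_mul]
  have hd : DpF (K ω) (fun S => ind (f S = f ω)) := by
    have hone : ∀ S S' : Set ι, Agree (K ω) S S' → f S = f ω → f S' = f ω := by
      intro S S' hSS hS
      have a1 : K S = K ω := congrArg Prod.fst hS
      have a2 : K S' = K S := hK S S' (by rw [a1]; exact hSS)
      have a3 : S ∩ K S = (ω : Set ι) ∩ K ω := congrArg Prod.snd hS
      refine Prod.ext (a2.trans a1) ?_
      change S' ∩ K S' = (ω : Set ι) ∩ K ω
      rw [← a3, a2, a1]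
      ext e
      simp only [Set.mem_inter_iff]
      constructor
      · rintro ⟨b1, b2⟩
        exact ⟨(hSS e b2).mpr b1, b2⟩
      · rintro ⟨b1, b2⟩
        exact ⟨(hSS e b2).mp b1, b2⟩
    intro S S' hSS
    have : (f S = f ω) ↔ (f S' = f ω) := ⟨hone S S' hSS, hone S' S (Agree.symm hSS)⟩
    simp only [this]
  rw [Ex_indep w U disjoint_compl_right hd (h2 ω), mul_comm]

/-- exploration, for events -/
theorem Pr_stop (w : ι → ℝ) (U : Finset ι) {K : Set ι → Set ι} (hK : Stop K)
    {G : Set (Set ι)} (hG : Rev K (fun S => S ∈ G)) {B : Set ι → Set (Set ι)} (hB : Rev K B)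
    (h2 : ∀ S, Dp (K S)ᶜ (B S)) :
    Pr w U (G ∩ {S | S ∈ B S}) = Ex w U (fun S => ind (S ∈ G) * Pr w U (B S)) := by
  have h := Ex_stop w U hK (h := fun S T => ind (S ∈ G) * ind (T ∈ B S))
    (by
      intro S S' hS
      have a1 : (S' ∈ G) = (S ∈ G) := hG S S' hS
      have a2 : B S' = B S := hB S S' hS
      ext T
      simp only [a1, a2])
    (by
      intro S T T' hT
      have := dpF_ind (h2 S) T T' hT
      simp only at this
      simp only [this])
  simp only [Ex_mul, Ex_ind] at h
  rw [← h, ← Ex_ind]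
  congr 1
  ext S
  by_cases a1 : S ∈ G <;> by_cases a2 : S ∈ B S <;> simp [ind, a1, a2]

/-! ### increasing functions, more coordinates -/

/-- increasing functions -/
def IncF (f : Set ι → ℝ) : Prop := ∀ S S' : Set ι, S ⊆ S' → f S ≤ f S'

lemma incF_ind {A : Set (Set ι)} (hA : Inc A) : IncF (fun S => ind (S ∈ A)) :=
  fun S S' h => ind_mono (hA S S' h)

/-- expectations of increasing functions increase with the volume -/
lemma Ex_mono_E {w : ι → ℝ} (hw : Wt w) {E F : Finset ι} (hEF : E ⊆ F) {f : Set ι → ℝ}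
    (hf : IncF f) : Ex w E f ≤ Ex w F f := by
  have h1 : F = E ∪ (F \ E) := (Finset.union_sdiff_of_subset hEF).symm
  rw [h1, Ex_union Finset.disjoint_sdiff]
  apply Ex_mono' hw
  intro ω hω
  have h2 : f ω = Ex w (F \ E) (fun _ => f ω) := (Ex_const w _ _).symm
  rw [h2]
  apply Ex_mono hw
  intro T
  apply hf
  intro x hx
  exact Or.inl ⟨hx, hω hx⟩

lemma Pr_mono_E {w : ι → ℝ} (hw : Wt w) {E F : Finset ι} (hEF : E ⊆ F) {A : Set (Set ι)}
    (hA : Inc A) : Pr w E A ≤ Pr w F A := by
  rw [← Ex_ind, ← Ex_ind]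
  exact Ex_mono_E hw hEF (incF_ind hA)

/-- an event which depends on `K` has the same probability in the volumes which contain `K` -/
lemma Ex_eq_of_dp {w : ι → ℝ} {E F : Finset ι} (hEF : E ⊆ F) {K : Set ι} {f : Set ι → ℝ}
    (hf : DpF K f) (hK : ∀ e ∈ F, e ∈ K → e ∈ E) : Ex w F f = Ex w E f := by
  have h1 : F = E ∪ (F \ E) := (Finset.union_sdiff_of_subset hEF).symm
  rw [h1, Ex_union Finset.disjoint_sdiff]
  apply Ex_congr
  intro ω hω
  rw [← Ex_const w (F \ E) (f ω)]
  apply Ex_congr
  intro η hη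
  apply hf
  intro e he
  simp only [Set.mem_union, Set.mem_inter_iff, Finset.mem_coe, Finset.mem_sdiff]
  constructor
  · rintro (h2 | h2)
    · exact h2.1
    · exact absurd (hK e h2.2.1 he) h2.2.2
  · intro h2
    exact Or.inl ⟨h2, hω h2⟩

/-- expectations and bijections of the coordinates -/
lemma Ex_map {κ : Type*} (σ : ι ≃ κ) (w : κ → ℝ) (E : Finset ι) (f : Set ι → ℝ) :
    Ex w (E.map σ.toEmbedding) (fun S => f (σ ⁻¹' S)) = Ex (fun i => w (σ i)) E f := by
  unfold Ex
  symm
  refine Finset.sum_nbij' (fun ω => ω.map σ.toEmbedding) (fun ω => ω.map σ.symm.toEmbedding)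
    ?_ ?_ ?_ ?_ ?_
  · intro ω hω
    rw [mem_powerset] at hω ⊢
    exact Finset.map_subset_map.mpr hω
  · intro ω hω
    rw [mem_powerset] at hω ⊢
    intro x hx
    obtain ⟨y, hy, rfl⟩ := Finset.mem_map.mp hx
    obtain ⟨z, hz, hzy⟩ := Finset.mem_map.mp (hω hy)
    rw [← hzy]
    simpa using hz
  · intro ω _
    ext x
    simp
  · intro ω _
    ext x
    simp
  · intro ω _
    have h1 : wt (fun i => w (σ i)) E ω = wt w (E.map σ.toEmbedding) (ω.map σ.toEmbedding) := by
      unfold wt
      rw [Finset.prod_map]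
      have : E.map σ.toEmbedding \ ω.map σ.toEmbedding = (E \ ω).map σ.toEmbedding := by
        ext x
        simp only [mem_sdiff, Finset.mem_map_equiv]
      rw [this, Finset.prod_map]
      rfl
    rw [h1]
    congr 2
    ext x
    simp

end

end Pool.Agent.Lib.MP_06caae_pr
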