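import Pool.Agent.Lib.MP_566bac_pr.Zd.Base
import Pool.Agent.Lib.MP_06caae_pr.Stop

/-!
# Random walk on the incipient infinite cluster: common definitions for percolation

Everything is stated for percolation on a FINITE set of edges `E` (`Pr (fun _ => p) E A`); the
configuration `S` is the set of open edges, `openGraph S` its graph.
-/

open Finset SimpleGraph
open Pool.Agent.Lib.MP_566bac_pr.Zd

namespace Pool.Agent.Lib.MP_06caae_pr

variable {d : ℕ}

/-- `y` is reached from `x` by an open path of at most `r` steps -/
def Rch (S : Set (Ed d)) (x : V d) (r : ℕ) (y : V d) : Prop :=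
  ∃ w : (openGraph S).Walk x y, w.length ≤ r

/-- `x` and `y` are in the same cluster -/
def Con (S : Set (Ed d)) (x y : V d) : Prop := (openGraph S).Reachable x y

/-- the cluster of `x` -/
def clu (S : Set (Ed d)) (x : V d) : Set (V d) := {y | Con S x y}

open Classical in
/-- the intrinsic ball of radius `r` around `x` -/
noncomputable def ball (S : Set (Ed d)) (x : V d) (r : ℕ) : Finset (V d) :=
  (Lam x r).filter fun y => Rch S x r y

open Classical in
/-- the intrinsic sphere: the vertices at intrinsic distance exactly `r` from `x` -/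
noncomputable def sph (S : Set (Ed d)) (x : V d) (r : ℕ) : Finset (V d) :=
  (ball S x r).filter fun y => ∀ k, Rch S x k y → r ≤ k

/-- the volume of the intrinsic ball -/
noncomputable def vol (S : Set (Ed d)) (x : V d) (r : ℕ) : ℕ := (ball S x r).card

/-- the extrinsic radius of the intrinsic ball -/
noncomputable def rad (S : Set (Ed d)) (x : V d) (r : ℕ) : ℕ := (ball S x r).sup fun y => dst x y

/-- `c` separates `x` and `y` in their cluster: all open paths from `x` to `y` visit `c` -/
def Cut (S : Set (Ed d)) (x y c : V d) : Prop :=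
  Con S x y ∧ ∀ w : (openGraph S).Walk x y, c ∈ w.support

/-- the edges with an end in `A` -/
def tch (A : Set (V d)) : Set (Ed d) := {e | ∃ x ∈ A, x ∈ e}

/-- the event `K` is determined by the exploration of the ball around `x` up to level `r`, that is by
the edges which touch the ball of radius `r - 1` -/
def BDet (x : V d) (r : ℕ) (K : Set (Set (Ed d))) : Prop :=
  ∀ S S' : Set (Ed d), (∀ k < r, ∀ e ∈ tch (ball S x k : Set (V d)), (e ∈ S ↔ e ∈ S')) →
    (S ∈ K ↔ S' ∈ K)

/-- probability and expectation for percolation with parameter `p` on the finite set of edges `E` -/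
noncomputable def PE (p : ℝ) (E : Finset (Ed d)) (A : Set (Set (Ed d))) : ℝ := Pr (fun _ => p) E A

noncomputable def EE (p : ℝ) (E : Finset (Ed d)) (Φ : Set (Ed d) → ℝ) : ℝ := Ex (fun _ => p) E Φ

/-- the probability that `y` is at intrinsic distance at most `r` from `0` -/
noncomputable def ppi (p : ℝ) (r : ℕ) (y : V d) : ℝ := PE p (Ein (Lam 0 r)) {S | Rch S 0 r y}

/-- the two-point function -/
noncomputable def tau (p : ℝ) (y : V d) : ℝ := ⨆ N : ℕ, PE p (Ein (Lam 0 N)) {S | Con S 0 y}

/-- `E |B(r)|` -/
noncomputable def GG (d : ℕ) (p : ℝ) (r : ℕ) : ℝ := ∑ y ∈ (Lam 0 r : Finset (V d)), ppi p r y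

open Classical in
/-- the expected number of points of the ball at extrinsic distance at least `s` -/
noncomputable def TT (d : ℕ) (p : ℝ) (r : ℕ) (s : ℝ) : ℝ :=
  ∑ y ∈ (Lam 0 r : Finset (V d)).filter (fun y => s ≤ (dst 0 y : ℝ)), ppi p r y

/-- the convolution of three two-point functions -/
noncomputable def nab (p : ℝ) (e : V d) : ℝ :=
  ∑' q : V d × V d, tau p q.1 * tau p (q.2 - q.1) * tau p (e - q.2)

/-- the tail of `nab p e`: the last factor at distance more than `l` -/
noncomputable def nabt (p : ℝ) (l : ℕ) (e : V d) : ℝ :=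
  ∑' q : V d × V d, if l < dst 0 (e - q.2) then tau p q.1 * tau p (q.2 - q.1) * tau p (e - q.2) else 0

/-- the triangle condition -/
def Tri (d : ℕ) (p : ℝ) : Prop :=
  Summable fun q : V d × V d => tau p q.1 * tau p (q.2 - q.1) * tau p q.2

/-- the standing assumptions, derived from `p = p_c` and the triangle condition: `lev` says that the
expected size of every sphere is at least one, `tail` is the volume tail of Barsky and Aizenman, for
all finite sets of edges -/
structure Std (d : ℕ) (p : ℝ) : Prop where
  hd : 0 < d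
  hp0 : 0 < p
  hp1 : p < 1
  tri : Tri d p
  lev : ∀ j : ℕ, 1 ≤ EE p (Ein (Lam 0 j : Finset (V d))) fun S => ((sph S 0 j).card : ℝ)
  tail : ∃ C : ℝ, 0 < C ∧ ∀ (E : Finset (Ed d)) (x : V d) (n : ℕ), 0 < n →
    PE p E {S | ∃ A : Finset (V d), (A : Set (V d)) ⊆ clu S x ∧ n ≤ A.card} ≤ C / Real.sqrt n

end Pool.Agent.Lib.MP_06caae_pr
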