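import Pool.Agent.Lib.MP_06caae_pr.Stop

/-!
# The configuration outside a stopping set is fresh
-/

open Finset

namespace Pool.Agent.Lib.MP_06caae_pr

open Pool.Agent.Lib.MP_566bac_pr.Zd

variable {ι : Type*}

section
open Classical

/-- removing coordinates from the configuration or from the volume -/
lemma Ex_sdiff (w : ι → ℝ) (U : Finset ι) (K : Set ι) (f : Set ι → ℝ) :
    Ex w U (fun T => f (T \ K)) = Ex w (U.filter fun e => e ∉ K) f := by
  have hd : DpF Kᶜ (fun T : Set ι => f (T \ K)) := by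
    intro T T' h
    have : T \ K = T' \ K := by
      ext e
      simp only [Set.mem_sdiff]
      constructor
      · rintro ⟨h1, h2⟩
        exact ⟨(h e h2).mp h1, h2⟩
      · rintro ⟨h1, h2⟩
        exact ⟨(h e h2).mpr h1, h2⟩
    simp only [this]
  rw [Ex_eq_of_dp (filter_subset (fun e => e ∉ K) U) hd
    fun e he he' => mem_filter.mpr ⟨he, he'⟩]
  apply Ex_congr
  intro ω hω
  congr 1
  ext e
  simp only [Set.mem_sdiff, Finset.mem_coe]
  exact ⟨fun h => h.1, fun h => ⟨h, (mem_filter.mp (hω h)).2⟩⟩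

/-- **Fresh randomness.** -/
theorem Ex_fresh (w : ι → ℝ) (U : Finset ι) {K : Set ι → Set ι} (hK : Stop K)
    {φ : Set ι → Set ι → ℝ} (hφ : Rev K φ) :
    Ex w U (fun S => φ S (S \ K S)) =
      Ex w U (fun S => Ex w (U.filter fun e => e ∉ K S) (φ S)) := by
  have h := Ex_stop w U hK (h := fun S T => φ S (T \ K S))
    (by
      intro S S' hS
      have a1 : φ S' = φ S := hφ S S' hS
      have a2 : K S' = K S := hK S S' hS
      ext T
      simp only [a1, a2])
    (by
      intro S T T' hT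
      have : T \ K S = T' \ K S := by
        ext e
        simp only [Set.mem_sdiff]
        constructor
        · rintro ⟨h1, h2⟩
          exact ⟨(hT e h2).mp h1, h2⟩
        · rintro ⟨h1, h2⟩
          exact ⟨(hT e h2).mpr h1, h2⟩
      simp only [this])
  rw [h]
  congr 1
  ext S
  exact Ex_sdiff w U (K S) (φ S)

/-- fresh randomness, upper bound -/
theorem Ex_fresh_le {w : ι → ℝ} (hw : Wt w) (U : Finset ι) {K : Set ι → Set ι} (hK : Stop K)
    {φ : Set ι → Set ι → ℝ} (hφ : Rev K φ) {g : Set ι → ℝ}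
    (h : ∀ S : Set ι, ∀ E' : Finset ι, E' ⊆ U → Ex w E' (φ S) ≤ g S) :
    Ex w U (fun S => φ S (S \ K S)) ≤ Ex w U g := by
  rw [Ex_fresh w U hK hφ]
  apply Ex_mono hw
  intro S
  exact h S _ (filter_subset _ _)

/-- fresh randomness, events -/
theorem Pr_fresh_le {w : ι → ℝ} (hw : Wt w) (U : Finset ι) {K : Set ι → Set ι} (hK : Stop K)
    {G : Set (Set ι)} (hG : Rev K (fun S => S ∈ G)) {Q : Set ι → Set (Set ι)} (hQ : Rev K Q)
    {c : ℝ} (hc : ∀ S ∈ G, ∀ E' : Finset ι, E' ⊆ U → Pr w E' (Q S) ≤ c) :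
    Pr w U {S | S ∈ G ∧ S \ K S ∈ Q S} ≤ c * Pr w U G := by
  have h := Ex_fresh_le hw U hK (φ := fun S T => ind (S ∈ G) * ind (T ∈ Q S))
    (g := fun S => c * ind (S ∈ G))
    (by
      intro S S' hS
      have a1 : (S' ∈ G) = (S ∈ G) := hG S S' hS
      have a2 : Q S' = Q S := hQ S S' hS
      ext T
      simp only [a1, a2])
    (by
      intro S E' hE'
      rw [Ex_mul, Ex_ind, mul_comm]
      by_cases h1 : S ∈ G
      · exact mul_le_mul_of_nonneg_right (hc S h1 E' hE') (ind_nonneg _)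
      · rw [ind_false h1, mul_zero, mul_zero])
  rw [Ex_mul, Ex_ind] at h
  refine le_trans (le_of_eq ?_) h
  rw [← Ex_ind]
  congr 1
  ext S
  by_cases a1 : S ∈ G <;> by_cases a2 : S \ K S ∈ Q S <;> simp [ind, a1, a2]

end

end Pool.Agent.Lib.MP_06caae_pr
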