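import Pool.Agent.Lib.MP_06caae_pr.Path
import Pool.Agent.Lib.MP_06caae_pr.Fresh

/-!
# Exploration of balls and clusters
-/

open Finset SimpleGraph
open Pool.Agent.Lib.MP_566bac_pr.Zd

namespace Pool.Agent.Lib.MP_06caae_pr

variable {d : ℕ}

/-! ### the stopping set of a ball -/

/-- the edges which are revealed by the exploration up to level `j` -/
def tb (x : V d) (j : ℕ) (S : Set (Ed d)) : Set (Ed d) :=
  {e | ∃ k < j, e ∈ tch (ball S x k : Set (V d))}

lemma tb_zero (x : V d) (S : Set (Ed d)) : tb x 0 S = ∅ := by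
  ext e
  simp [tb]

lemma tb_succ (x : V d) (j : ℕ) (S : Set (Ed d)) :
    tb x (j + 1) S = tch (ball S x j : Set (V d)) := by
  ext e
  constructor
  · rintro ⟨k, hk, v, hv, he⟩
    exact ⟨v, ball_mono subset_rfl (by omega) hv, he⟩
  · intro h
    exact ⟨j, Nat.lt_succ_self _, h⟩

lemma mem_tch {A : Set (V d)} {x y : V d} : s(x, y) ∈ tch A ↔ x ∈ A ∨ y ∈ A := by
  constructor
  · rintro ⟨z, hz, h⟩
    rw [Sym2.mem_iff] at h
    rcases h with rfl | rfl
    · exact Or.inl hz
    · exact Or.inr hz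
  · rintro (h | h)
    · exact ⟨x, h, Sym2.mem_mk_left _ _⟩
    · exact ⟨y, h, Sym2.mem_mk_right _ _⟩

lemma tch_mono {A B : Set (V d)} (h : A ⊆ B) : tch A ⊆ tch B :=
  fun _ ⟨x, hx, he⟩ => ⟨x, h hx, he⟩

lemma ball_agree {x : V d} {j : ℕ} {S S' : Set (Ed d)} (h : Agree (tb x j S) S S') :
    ∀ k ≤ j, ball S' x k = ball S x k := by
  intro k
  induction k with
  | zero =>
    intro _
    ext y
    rw [mem_ball, mem_ball, rch_zero, rch_zero]
  | succ k ih =>
    intro hk
    have ih' := ih (by omega)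
    have h1 : ∀ z, Rch S' x k z ↔ Rch S x k z := by
      intro z
      rw [← mem_ball, ← mem_ball, ih']
    ext y
    rw [mem_ball, mem_ball, rch_succ, rch_succ]
    refine or_congr Iff.rfl (exists_congr fun z => ?_)
    rw [h1 z]
    refine and_congr_right fun h2 => and_congr_right fun _ => ?_
    refine (h _ ⟨k, by omega, z, ?_, Sym2.mem_mk_left _ _⟩).symm
    exact_mod_cast mem_ball.mpr h2

lemma sph_agree {x : V d} {j : ℕ} {S S' : Set (Ed d)} (h : Agree (tb x j S) S S') :
    ∀ k ≤ j, sph S' x k = sph S x k := by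
  intro k hk
  rcases Nat.eq_zero_or_pos k with rfl | hk0
  · rw [sph_zero, sph_zero]
  · obtain ⟨k, rfl⟩ := Nat.exists_eq_succ_of_ne_zero hk0.ne'
    ext y
    rw [Nat.succ_eq_add_one, mem_sph_succ, mem_sph_succ, ← mem_ball, ← mem_ball, ← mem_ball,
      ← mem_ball, ball_agree h _ hk, ball_agree h k (by omega)]

lemma stop_tb (x : V d) (j : ℕ) : Stop (tb x j) := by
  intro S S' h
  ext e
  constructor
  · rintro ⟨k, hk, he⟩
    rw [ball_agree h k hk.le] at he
    exact ⟨k, hk, he⟩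
  · rintro ⟨k, hk, he⟩
    rw [← ball_agree h k hk.le] at he
    exact ⟨k, hk, he⟩

lemma rev_ball (x : V d) {j k : ℕ} (hk : k ≤ j) : Rev (tb x j) (fun S => ball S x k) :=
  fun _ _ h => ball_agree h k hk

lemma rev_sph (x : V d) {j k : ℕ} (hk : k ≤ j) : Rev (tb x j) (fun S => sph S x k) :=
  fun _ _ h => sph_agree h k hk

lemma Rev.comp {ι α β : Type*} {K : Set ι → Set ι} {f : Set ι → α} (hf : Rev K f) (F : α → β) :
    Rev K (fun S => F (f S)) := fun S S' h => congrArg F (hf S S' h)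

lemma Rev.comp2 {ι α β γ : Type*} {K : Set ι → Set ι} {f : Set ι → α} {g : Set ι → β}
    (hf : Rev K f) (hg : Rev K g) (F : α → β → γ) : Rev K (fun S => F (f S) (g S)) :=
  fun S S' h => congrArg₂ F (hf S S' h) (hg S S' h)

lemma rev_const {ι β : Type*} (K : Set ι → Set ι) (b : β) : Rev K (fun _ => b) :=
  fun _ _ _ => rfl

lemma bdet_iff {x : V d} {r : ℕ} {K : Set (Set (Ed d))} :
    BDet x r K ↔ Rev (tb x r) (fun S => S ∈ K) := by
  constructor
  · intro h S S' hS
    refine propext (h S S' fun k hk e he => hS e ⟨k, hk, he⟩).symm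
  · intro h S S' hS
    have := h S S' (by
      rintro e ⟨k, hk, he⟩
      exact hS k hk e he)
    exact iff_of_eq this.symm

/-! ### the rest -/

/-- the part of the ball beyond level `j` is seen from level `j`, in the rest of the edges -/
lemma rch_rest {S : Set (Ed d)} {x y : V d} {j s : ℕ} :
    Rch S x (j + s) y ↔ (∃ k < j, Rch S x k y) ∨ ∃ u ∈ sph S x j, Rch (S \ tb x j S) u s y := by
  constructor
  · have hj : ∀ y, Rch S x j y → (∃ k < j, Rch S x k y) ∨
        ∀ s, ∃ u ∈ sph S x j, Rch (S \ tb x j S) u s y := by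
      intro y h
      obtain ⟨k, hk, hy⟩ := ball_eq_sph.mp h
      rcases hk.lt_or_eq with hk | rfl
      · exact Or.inl ⟨k, hk, (mem_sph.mp hy).1⟩
      · exact Or.inr fun s => ⟨y, hy, Rch.refl _ _ _⟩
    have hk : ∀ (k : ℕ) (z y : V d), k < j → Rch S x k z → (lattice d).Adj z y →
        s(z, y) ∈ S → (∃ k < j, Rch S x k y) ∨
        ∀ s, ∃ u ∈ sph S x j, Rch (S \ tb x j S) u s y := by
      intro k z y hk h1 h2 h3
      exact hj y ((h1.trans (Rch.step h2 h3)).mono subset_rfl (by omega))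
    induction s generalizing y with
    | zero =>
      intro h
      exact (hj y h).imp_right fun h => h 0
    | succ s ih =>
      intro h
      rw [← add_assoc, rch_succ] at h
      rcases h with rfl | ⟨z, h1, h2, h3⟩
      · exact (hj x (Rch.refl _ _ _)).imp_right fun h => h _
      · rcases ih h1 with ⟨k, h4, h5⟩ | ⟨u, h4, h5⟩
        · exact (hk k z y h4 h5 h2 h3).imp_right fun h => h _
        · by_cases h6 : s(z, y) ∈ tb x j S
          · obtain ⟨k, h7, h8⟩ := h6
            rcases mem_tch.mp h8 with h9 | h9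
            · rw [Finset.mem_coe, mem_ball] at h9
              exact (hk k z y h7 h9 h2 h3).imp_right fun h => h _
            · rw [Finset.mem_coe, mem_ball] at h9
              exact Or.inl ⟨k, h7, h9⟩
          · exact Or.inr ⟨u, h4, h5.trans (Rch.step h2 ⟨h3, h6⟩)⟩
  · rintro (⟨k, h1, h2⟩ | ⟨u, h1, h2⟩)
    · exact h2.mono subset_rfl (by omega)
    · exact (mem_sph.mp h1).1.trans (h2.mono Set.sdiff_subset le_rfl)

/-- a sphere beyond level `j` is seen from level `j`, in the rest of the edges -/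
lemma sph_rest {S : Set (Ed d)} {x y : V d} {j s : ℕ} (h : y ∈ sph S x (j + s)) :
    ∃ u ∈ sph S x j, y ∈ sph (S \ tb x j S) u s := by
  obtain ⟨h1, h2⟩ := mem_sph.mp h
  rcases rch_rest.mp h1 with ⟨k, h3, h4⟩ | ⟨u, h3, h4⟩
  · have := h2 k h4
    omega
  · refine ⟨u, h3, mem_sph.mpr ⟨h4, fun k hk => ?_⟩⟩
    have := h2 (j + k) ((mem_sph.mp h3).1.trans (hk.mono Set.sdiff_subset le_rfl))
    omega

lemma card_ball_rest (S : Set (Ed d)) (x : V d) (j s : ℕ) :
    (ball S x (j + s)).card ≤ (ball S x j).card +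
      ∑ u ∈ sph S x j, (ball (S \ tb x j S) u s).card := by
  classical
  refine (card_le_card (t := ball S x j ∪ (sph S x j).biUnion fun u => ball (S \ tb x j S) u s)
    ?_).trans ((card_union_le _ _).trans (Nat.add_le_add_left card_biUnion_le _))
  intro y hy
  rw [mem_union, mem_biUnion]
  rcases rch_rest.mp (mem_ball.mp hy) with ⟨k, h1, h2⟩ | ⟨u, h1, h2⟩
  · exact Or.inl (mem_ball.mpr (h2.mono subset_rfl h1.le))
  · exact Or.inr ⟨u, h1, mem_ball.mpr h2⟩

lemma card_sph_rest (S : Set (Ed d)) (x : V d) (j s : ℕ) :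
    (sph S x (j + s)).card ≤ ∑ u ∈ sph S x j, (sph (S \ tb x j S) u s).card := by
  classical
  refine (card_le_card (t := (sph S x j).biUnion fun u => sph (S \ tb x j S) u s)
    ?_).trans card_biUnion_le
  intro y hy
  obtain ⟨u, h1, h2⟩ := sph_rest hy
  exact mem_biUnion.mpr ⟨u, h1, h2⟩

/-! ### the bounds after an exploration -/

/-- (X1) a marked vertex of level `j` and a property of the rest -/
theorem pr_marked {p : ℝ} (hp : 0 ≤ p) (hp1 : p ≤ 1) (E : Finset (Ed d)) (x u : V d) (j : ℕ)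
    {Q : Set (Set (Ed d))} {c : ℝ} (hc : ∀ E' : Finset (Ed d), E' ⊆ E → PE p E' Q ≤ c) :
    PE p E {S | u ∈ sph S x j ∧ S \ tb x j S ∈ Q} ≤ c * PE p E {S | u ∈ sph S x j} := by
  exact Pr_fresh_le (fun _ => ⟨hp, hp1⟩) E (stop_tb x j) (G := {S | u ∈ sph S x j})
    ((rev_sph x le_rfl).comp fun s => u ∈ s) (Q := fun _ => Q) (rev_const _ Q)
    fun S _ E' hE' => hc E' hE'

/-- (X1) the same for an event which is revealed and any vertex of level `j` -/
theorem pr_bdet {p : ℝ} (hp : 0 ≤ p) (hp1 : p ≤ 1) (E : Finset (Ed d)) (x : V d) (j : ℕ)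
    {K : Set (Set (Ed d))} (hK : BDet x j K) {Q : V d → Set (Set (Ed d))} {c : ℝ}
    (hc : ∀ (u : V d) (E' : Finset (Ed d)), E' ⊆ E → PE p E' (Q u) ≤ c) :
    PE p E {S | S ∈ K ∧ ∃ u ∈ sph S x j, S \ tb x j S ∈ Q u} ≤
      c * EE p E (fun S => ind (S ∈ K) * (sph S x j).card) := by
  have hw : Wt (fun _ : Ed d => p) := fun _ => ⟨hp, hp1⟩
  have h := Ex_fresh_le hw E (stop_tb x j)
    (φ := fun S T => ind (S ∈ K) * ∑ u ∈ sph S x j, ind (T ∈ Q u))
    (g := fun S => c * (ind (S ∈ K) * (sph S x j).card))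
    (by
      intro S S' hS
      have a1 : (S' ∈ K) = (S ∈ K) := bdet_iff.mp hK S S' hS
      have a2 : sph S' x j = sph S x j := rev_sph x le_rfl S S' hS
      ext T
      simp only [a1, a2])
    (by
      intro S E' hE'
      rw [Ex_mul, Ex_sum]
      simp only [Ex_ind]
      have : ∑ u ∈ sph S x j, Pr (fun _ => p) E' (Q u) ≤ ∑ u ∈ sph S x j, c :=
        sum_le_sum fun u _ => hc u E' hE'
      rw [sum_const, nsmul_eq_mul] at this
      calc ind (S ∈ K) * ∑ u ∈ sph S x j, Pr (fun _ => p) E' (Q u)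
          ≤ ind (S ∈ K) * ((sph S x j).card * c) :=
            mul_le_mul_of_nonneg_left this (ind_nonneg _)
        _ = c * (ind (S ∈ K) * (sph S x j).card) := by ring)
  rw [Ex_mul] at h
  refine le_trans ?_ h
  rw [PE, ← Ex_ind]
  apply Ex_mono hw
  intro S
  by_cases a1 : S ∈ K
  · rw [ind_true a1, one_mul]
    by_cases a2 : ∃ u ∈ sph S x j, S \ tb x j S ∈ Q u
    · obtain ⟨u, hu, hQ⟩ := a2
      refine le_trans (ind_le_one _) ?_
      rw [← ind_true hQ]
      exact single_le_sum (f := fun u => ind (S \ tb x j S ∈ Q u))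
        (fun _ _ => ind_nonneg _) hu
    · rw [ind_false fun h => a2 h.2]
      exact sum_nonneg fun _ _ => ind_nonneg _
  · rw [ind_false fun h => a1 h.1, ind_false a1, zero_mul]

/-- arms beyond level `j` -/
theorem pr_arm {p : ℝ} (hp : 0 ≤ p) (hp1 : p ≤ 1) (E : Finset (Ed d)) (x : V d) (j r : ℕ)
    {K : Set (Set (Ed d))} (hK : BDet x j K) {c : ℝ}
    (hc : ∀ (u : V d) (E' : Finset (Ed d)), E' ⊆ E →
      PE p E' {S | (sph S u r).Nonempty} ≤ c) :
    PE p E {S | S ∈ K ∧ (sph S x (j + r)).Nonempty} ≤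
      c * EE p E (fun S => ind (S ∈ K) * (sph S x j).card) := by
  refine le_trans (Pr_mono (fun _ => ⟨hp, hp1⟩) ?_) (pr_bdet hp hp1 E x j hK
    (Q := fun u => {S | (sph S u r).Nonempty}) hc)
  rintro S ⟨h1, y, hy⟩
  obtain ⟨u, hu, hy'⟩ := sph_rest hy
  exact ⟨h1, u, hu, y, hy'⟩

/-! ### the stopping set of a cluster -/

lemma con_induct {S : Set (Ed d)} {x y : V d} (h : Con S x y) (P : V d → Prop)
    (hx : P x) (hstep : ∀ a b, P a → (lattice d).Adj a b → s(a, b) ∈ S → P b) : P y := by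
  obtain ⟨p⟩ := h
  induction p with
  | nil => exact hx
  | @cons u v w hadj p ih => exact ih (hstep u v hx hadj.1 hadj.2)

lemma clu_agree {x : V d} {S S' : Set (Ed d)} (h : Agree (tch (clu S x)) S S') :
    clu S' x = clu S x := by
  apply Set.Subset.antisymm
  · intro y hy
    refine con_induct (S := S') hy (fun b => Con S x b) (Con.refl _ _) ?_
    intro a b ha hab hs
    have h1 : s(a, b) ∈ tch (clu S x) := mem_tch.mpr (Or.inl ha)
    exact ha.trans (Con.step hab ((h _ h1).mpr hs))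
  · intro y hy
    refine (con_induct (S := S) hy (fun b => Con S x b ∧ Con S' x b)
      ⟨Con.refl _ _, Con.refl _ _⟩ ?_).2
    rintro a b ⟨ha, ha'⟩ hab hs
    have h1 : s(a, b) ∈ tch (clu S x) := mem_tch.mpr (Or.inl ha)
    exact ⟨ha.trans (Con.step hab hs), ha'.trans (Con.step hab ((h _ h1).mp hs))⟩

lemma stop_clu (x : V d) : Stop (fun S : Set (Ed d) => tch (clu S x)) := by
  intro S S' h
  simp only [clu_agree h]

lemma rev_clu (x : V d) : Rev (fun S : Set (Ed d) => tch (clu S x)) (fun S => clu S x) :=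
  fun _ _ h => clu_agree h

/-- the clusters of the other vertices live in the rest -/
lemma clu_rest {S : Set (Ed d)} {x y : V d} (h : ¬ Con S x y) :
    clu (S \ tch (clu S x)) y = clu S y := by
  apply Set.Subset.antisymm
  · intro z hz
    exact Con.mono hz Set.sdiff_subset
  · intro z hz
    refine (con_induct (S := S) hz (fun b => Con S y b ∧ Con (S \ tch (clu S x)) y b)
      ⟨Con.refl _ _, Con.refl _ _⟩ ?_).2
    rintro a b ⟨ha, ha'⟩ hab hs
    have hb : Con S y b := ha.trans (Con.step hab hs)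
    refine ⟨hb, ha'.trans (Con.step hab ⟨hs, ?_⟩)⟩
    rw [mem_tch]
    rintro (h1 | h1)
    · exact h (Con.trans h1 ha.symm)
    · exact h (Con.trans h1 hb.symm)

end Pool.Agent.Lib.MP_06caae_pr
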