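import Pool.Agent.Lib.MP_06caae_pr.GhSum
import Pool.Agent.Lib.MP_06caae_pr.Meas

/-!
# The tail of the cluster size at the critical point
-/

open Finset SimpleGraph MeasureTheory ProbabilityTheory unitInterval
open Pool.Agent.Lib.MP_566bac_pr.Zd

namespace Pool.Agent.Lib.MP_06caae_pr

variable {d : ℕ} {p : ℝ}

/-! ### monotonicity in the parameter -/

lemma triF_mono_p {p' : ℝ} (h0 : 0 ≤ p) (h1 : p' ≤ 1) (h : p ≤ p') (hT : Tri d p') :
    Tri d p := by
  refine Summable.of_nonneg_of_le (fun q => triF_nonneg h0 (h.trans h1) q) (fun q => ?_) hT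
  exact mul_le_mul (mul_le_mul (tau_mono_p h0 h1 h _) (tau_mono_p h0 h1 h _)
    (tau_nonneg h0 (h.trans h1) _) (tau_nonneg (h0.trans h) h1 _)) (tau_mono_p h0 h1 h _)
    (tau_nonneg h0 (h.trans h1) _)
    (mul_nonneg (tau_nonneg (h0.trans h) h1 _) (tau_nonneg (h0.trans h) h1 _))

lemma nab_mono_p {p' : ℝ} (h0 : 0 ≤ p) (h1 : p' ≤ 1) (h : p ≤ p') (hT : Tri d p') (e : V d) :
    nab p e ≤ nab p' e := by
  refine (nab_summable h0 (h.trans h1) (triF_mono_p h0 h1 h hT) e).tsum_le_tsum (fun q => ?_)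
    (nab_summable (h0.trans h) h1 hT e)
  exact mul_le_mul (mul_le_mul (tau_mono_p h0 h1 h _) (tau_mono_p h0 h1 h _)
    (tau_nonneg h0 (h.trans h1) _) (tau_nonneg (h0.trans h) h1 _)) (tau_mono_p h0 h1 h _)
    (tau_nonneg h0 (h.trans h1) _)
    (mul_nonneg (tau_nonneg (h0.trans h) h1 _) (tau_nonneg (h0.trans h) h1 _))

/-- three vertices with small open diagrams -/
lemma exists_three (hd : 0 < d) (h0 : 0 ≤ p) (h1 : p ≤ 1) (hT : Tri d p) :
    ∃ k : ℕ, ∃ e1 e2 e3 : V d, e1 ∈ Lam 0 k ∧ e2 ∈ Lam 0 k ∧ e3 ∈ Lam 0 k ∧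
      nab p (e2 - e1) ≤ 1 / 8 ∧ nab p (e3 - e1) ≤ 1 / 8 ∧ nab p (e3 - e2) ≤ 1 / 8 := by
  obtain ⟨R, hR⟩ := nab_small (d := d) h0 h1 hT (show (0 : ℝ) < 1 / 8 by norm_num)
  set i : Fin d := ⟨0, hd⟩
  have h2 : ∀ z : ℤ, (R : ℤ) ≤ |z| → nab p (z • uv i : V d) ≤ 1 / 8 := by
    intro z hz
    apply hR
    have := le_dst (0 : V d) (z • uv i) i
    rw [Pi.zero_apply, Pi.smul_apply, uv_same, smul_eq_mul, mul_one, zero_sub, abs_neg] at this
    exact_mod_cast hz.trans this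
  have h3 : ∀ z : ℤ, |z| ≤ R → (z • uv i : V d) ∈ Lam 0 R := by
    intro z hz
    rw [mem_Lam, dst_le]
    intro j
    rw [Pi.zero_apply, sub_zero, Pi.smul_apply, smul_eq_mul]
    rcases eq_or_ne j i with rfl | hj
    · rw [uv_same, mul_one]
      exact hz
    · rw [uv_ne hj, mul_zero, abs_zero]
      exact Int.natCast_nonneg _
  refine ⟨R, 0, (R : ℤ) • uv i, (-(R : ℤ)) • uv i, self_mem_Lam 0 R, h3 _ ?_, h3 _ ?_, ?_, ?_, ?_⟩
  · rw [Nat.abs_cast]
  · rw [abs_neg, Nat.abs_cast]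
  · rw [sub_zero]
    exact h2 _ (by rw [Nat.abs_cast])
  · rw [sub_zero]
    exact h2 _ (by rw [abs_neg, Nat.abs_cast])
  · rw [← sub_smul]
    apply h2
    rw [show -(R : ℤ) - R = -(2 * R) by ring, abs_neg, abs_mul, Nat.abs_cast]
    have : (0 : ℤ) ≤ R := Int.natCast_nonneg _
    norm_num
    linarith

/-! ### the functions of the ghost field -/

/-- the probability that a vertex is green -/
noncomputable def gh (h : ℝ) : ℝ := 1 - Real.exp (-h)

lemma gh_nonneg {h : ℝ} (hh : 0 ≤ h) : 0 ≤ gh h := by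
  unfold gh
  have : Real.exp (-h) ≤ 1 := Real.exp_le_one_iff.mpr (by linarith)
  linarith

lemma gh_pos {h : ℝ} (hh : 0 < h) : 0 < gh h := by
  unfold gh
  have : Real.exp (-h) < Real.exp 0 := Real.exp_lt_exp.mpr (by linarith)
  rw [Real.exp_zero] at this
  linarith

lemma gh_le_one (h : ℝ) : gh h ≤ 1 := by
  unfold gh
  have := Real.exp_pos (-h)
  linarith

lemma one_sub_gh (h : ℝ) (n : ℕ) : (1 - gh h) ^ n = Real.exp (-(h * n)) := by
  unfold gh
  rw [sub_sub_cancel, ← Real.exp_nat_mul]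
  congr 1
  ring

/-- the limit of the magnetization -/
noncomputable def mg (d : ℕ) (p h : ℝ) : ℝ := MG d p (gh h)

lemma MN_gh (h : ℝ) (N : ℕ) : MN d p (gh h) N =
    EE p (Ein (Lam 0 N)) (fun S => 1 - Real.exp (-(h * cc (Lam (0 : V d) N) S 0))) := by
  rw [MN_eq]
  simp only [one_sub_gh]
  have h2 : (fun S : Set (Ed d) => 1 - Real.exp (-(h * cc (Lam (0 : V d) N) S 0))) =
      fun S => 1 + (-1) * Real.exp (-(h * cc (Lam (0 : V d) N) S 0)) := by
    ext S
    ring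
  rw [h2]
  unfold EE
  rw [Ex_add, Ex_mul, Ex_const]
  ring

lemma XN_gh (h : ℝ) (N : ℕ) : XN d p (gh h) N =
    EE p (Ein (Lam 0 N)) (fun S => (cc (Lam (0 : V d) N) S 0 : ℝ) *
      Real.exp (-(h * cc (Lam (0 : V d) N) S 0))) := by
  rw [XN_eq]
  simp only [one_sub_gh]

lemma MN_half (h0 : 0 ≤ p) (h1 : p ≤ 1) {h : ℝ} (N : ℕ) :
    MN d p (gh h) N ≤ MN d p (gh (h / 2)) N + h / 2 * XN d p (gh (h / 2)) N := by
  rw [MN_gh, MN_gh, XN_gh, EE, EE, EE, ← Ex_mul, ← Ex_add]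
  apply Ex_mono (wt_p h0 h1)
  intro S
  set c : ℝ := (cc (Lam (0 : V d) N) S 0 : ℝ)
  have e1 : Real.exp (-(h * c)) = Real.exp (-(h / 2 * c)) * Real.exp (-(h / 2 * c)) := by
    rw [← Real.exp_add]
    congr 1
    ring
  have e2 : 1 - h / 2 * c ≤ Real.exp (-(h / 2 * c)) := by
    have := Real.add_one_le_exp (-(h / 2 * c))
    linarith
  have e3 := Real.exp_pos (-(h / 2 * c))
  rw [e1]
  nlinarith

lemma MN_two (h0 : 0 ≤ p) (h1 : p ≤ 1) {h : ℝ} (N : ℕ) :
    MN d p (gh h) N ≤ 2 * MN d p (gh (h / 2)) N := by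
  rw [MN_gh, MN_gh, EE, EE, ← Ex_mul]
  apply Ex_mono (wt_p h0 h1)
  intro S
  set c : ℝ := (cc (Lam (0 : V d) N) S 0 : ℝ)
  have e1 : Real.exp (-(h * c)) = Real.exp (-(h / 2 * c)) * Real.exp (-(h / 2 * c)) := by
    rw [← Real.exp_add]
    congr 1
    ring
  rw [e1]
  nlinarith [sq_nonneg (1 - Real.exp (-(h / 2 * c)))]

lemma cc_pos (N : ℕ) (S : Set (Ed d)) : 1 ≤ cc (Lam (0 : V d) N) S 0 := by
  classical
  unfold cc
  exact card_pos.mpr ⟨0, mem_filter.mpr ⟨self_mem_Lam 0 N, Con.refl _ _⟩⟩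

lemma mg_pos (h0 : 0 ≤ p) (h1 : p ≤ 1) {h : ℝ} (hh : 0 < h) : 0 < mg d p h := by
  refine lt_of_lt_of_le (gh_pos hh) ?_
  refine le_trans ?_ (MN_le_MG h0 h1 (gh_nonneg hh.le) (gh_le_one h) 0)
  rw [MN_gh, EE, ← Ex_const (fun _ : Ed d => p) (Ein (Lam (0 : V d) 0)) (gh h)]
  apply Ex_mono (wt_p h0 h1)
  intro S
  unfold gh
  have h2 : (1 : ℝ) ≤ (cc (Lam (0 : V d) 0) S 0 : ℝ) := by exact_mod_cast cc_pos 0 S
  have h3 : Real.exp (-(h * cc (Lam (0 : V d) 0) S 0)) ≤ Real.exp (-h) := by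
    apply Real.exp_le_exp.mpr
    nlinarith
  linarith

lemma mg_two (h0 : 0 ≤ p) (h1 : p ≤ 1) {h : ℝ} (hh : 0 < h) :
    mg d p h ≤ 2 * mg d p (h / 2) := by
  refine ciSup_le fun N => (MN_two h0 h1 N).trans ?_
  have := MN_le_MG (d := d) h0 h1 (gh_nonneg (show 0 ≤ h / 2 by linarith)) (gh_le_one (h / 2)) N
  unfold mg
  linarith

/-- the constant of the surgery -/
noncomputable def cK (d k : ℕ) (p0 : ℝ) : ℝ :=
  (4 * k + 1) ^ d / p0 ^ ((2 * k + 1) ^ d * (2 * k + 1) ^ d)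

/-- **The inequality of the ghost surgery.** -/
theorem XM_le {p0 : ℝ} (hp0 : 0 < p0) (h0 : p0 ≤ p) (h1 : p ≤ 1) (hT : Tri d p) {k : ℕ}
    {e1 e2 e3 : V d} (he1 : e1 ∈ Lam 0 k) (he2 : e2 ∈ Lam 0 k)
    (he3 : e3 ∈ Lam 0 k) (n12 : nab p (e2 - e1) ≤ 1 / 8) (n13 : nab p (e3 - e1) ≤ 1 / 8)
    (n23 : nab p (e3 - e2) ≤ 1 / 8) {h : ℝ} (hh : 0 < h) :
    ∃ n0, ∀ n ≥ n0, XN d p (gh h) (2 * n + k) * mg d p h ≤ 2 * cK d k p0 + 2 := by
  have hp : 0 < p := hp0.trans_le h0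
  have hg0 := gh_nonneg hh.le
  have hg1 := gh_le_one h
  set M := mg d p h with hM
  have hMpos : 0 < M := mg_pos hp.le h1 hh
  have hM1 : M ≤ 1 := MG_le_one hp.le h1 hg0 hg1
  -- the tail of `j exp (-h j)`
  have t1 : Filter.Tendsto (fun j : ℕ => (j : ℝ) * (1 - gh h) ^ j) Filter.atTop (nhds 0) := by
    have e1 : |1 - gh h| < 1 := by
      have := gh_pos hh
      rw [abs_lt]
      constructor <;> linarith
    exact tendsto_self_mul_const_pow_of_abs_lt_one e1
  obtain ⟨R, hR⟩ := Filter.eventually_atTop.mp (t1.eventually (gt_mem_nhds one_pos))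
  -- the volume
  obtain ⟨N1, hN1⟩ := MG_approx (d := d) (ε := M / 16) hp.le h1 hg0 hg1 (by positivity)
  refine ⟨max (R + k) N1, fun n hn => ?_⟩
  have hn1 : R + k ≤ n := (le_max_left _ _).trans hn
  have hn2 : N1 ≤ n := (le_max_right _ _).trans hn
  have hm : 7 / 8 * MG d p (gh h) ^ 2 ≤ MN d p (gh h) n ^ 2 := by
    have e1 : M - M / 16 ≤ MN d p (gh h) n := hN1 n hn2
    have e2 : (M - M / 16) ^ 2 ≤ MN d p (gh h) n ^ 2 :=
      pow_le_pow_left₀ (by linarith) e1 2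
    refine le_trans ?_ e2
    change 7 / 8 * M ^ 2 ≤ (M - M / 16) ^ 2
    nlinarith [sq_nonneg M]
  have e1 := surgery hp h1 hg0 hg1 hT (k := k) (n := n) (R := R) hn1 he1 he2 he3 n12 n13 n23
    (ε := 1) zero_le_one (fun j hj => (hR j hj.le).le) hm
  change p ^ ((2 * k + 1) ^ d * (2 * k + 1) ^ d) *
    (M ^ 2 * (1 / 2 * XN d p (gh h) (2 * n + k) - 1)) ≤ (4 * k + 1) ^ d * M at e1
  set X := XN d p (gh h) (2 * n + k) with hX
  set a := (2 * k + 1) ^ d * (2 * k + 1) ^ d with ha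
  have hpa : 0 < p0 ^ a := by positivity
  have hK0 : 0 ≤ cK d k p0 := by
    unfold cK
    positivity
  by_cases hneg : 1 / 2 * X - 1 ≤ 0
  · have : X * M ≤ 2 * 1 := mul_le_mul (by linarith) hM1 hMpos.le (by norm_num)
    linarith
  · push Not at hneg
    have e2 : p0 ^ a * (M ^ 2 * (1 / 2 * X - 1)) ≤ (4 * k + 1) ^ d * M := by
      refine le_trans ?_ e1
      apply mul_le_mul_of_nonneg_right (pow_le_pow_left₀ hp0.le h0 a)
      exact mul_nonneg (sq_nonneg M) hneg.le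
    have e3 : M * (M * (1 / 2 * X - 1)) ≤ M * cK d k p0 := by
      unfold cK
      rw [← ha, ← mul_div_assoc, le_div_iff₀ hpa]
      nlinarith
    have e4 := le_of_mul_le_mul_left e3 hMpos
    nlinarith

/-- one halving -/
lemma mg_step (h0 : 0 ≤ p) (h1 : p ≤ 1) {C : ℝ} {k : ℕ} {h : ℝ} (hh : 0 < h)
    (hC : ∃ n0, ∀ n ≥ n0, XN d p (gh (h / 2)) (2 * n + k) * mg d p (h / 2) ≤ C) :
    mg d p h ^ 2 ≤ mg d p (h / 2) ^ 2 + 3 / 2 * C * h := by
  set a := mg d p h with ha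
  set b := mg d p (h / 2) with hb
  have hbpos : 0 < b := mg_pos h0 h1 (by linarith)
  have ha0 : 0 < a := mg_pos h0 h1 hh
  have h2 : a ≤ 2 * b := mg_two h0 h1 hh
  obtain ⟨n0, hn0⟩ := hC
  have h3 : a * b ≤ b * b + h / 2 * C := by
    apply le_of_forall_pos_le_add
    intro ε hε
    obtain ⟨N, hN⟩ := MG_approx (d := d) (ε := ε / b) h0 h1 (gh_nonneg hh.le) (gh_le_one h)
      (by positivity)
    set n := max n0 N with hn
    have e1 : a - ε / b ≤ MN d p (gh h) (2 * n + k) := hN _ (by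
      have := le_max_right n0 N
      omega)
    have e2 := MN_half (d := d) h0 h1 (h := h) (2 * n + k)
    have e3 := MN_le_MG (d := d) h0 h1 (gh_nonneg (show 0 ≤ h / 2 by linarith))
      (gh_le_one (h / 2)) (2 * n + k)
    change MN d p (gh (h / 2)) (2 * n + k) ≤ b at e3
    have e4 := hn0 n (le_max_left _ _)
    have e5 : a ≤ b + h / 2 * XN d p (gh (h / 2)) (2 * n + k) + ε / b := by linarith
    have e6 := mul_le_mul_of_nonneg_right e5 hbpos.le
    have e7 : ε / b * b = ε := div_mul_cancel₀ _ hbpos.ne'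
    have e8 : h / 2 * (XN d p (gh (h / 2)) (2 * n + k) * b) ≤ h / 2 * C :=
      mul_le_mul_of_nonneg_left e4 (by linarith)
    nlinarith
  have h4 : (a - b) * b ≤ h / 2 * C := by linarith
  rcases le_total a b with h5 | h5
  · have hC0 : 0 ≤ C := by
      refine le_trans ?_ (hn0 n0 le_rfl)
      exact mul_nonneg (XN_nonneg h0 h1 (gh_nonneg (by linarith)) (gh_le_one _) _) hbpos.le
    have : a ^ 2 ≤ b ^ 2 := pow_le_pow_left₀ ha0.le h5 2
    nlinarith [mul_nonneg hC0 hh.le]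
  · have h6 : (a - b) * (a + b) ≤ (a - b) * (3 * b) :=
      mul_le_mul_of_nonneg_left (by linarith) (by linarith)
    nlinarith

/-- the iteration -/
lemma mg_iter {C : ℝ} (hstep : ∀ h : ℝ, 0 < h →
    mg d p h ^ 2 ≤ mg d p (h / 2) ^ 2 + 3 / 2 * C * h) (hC : 0 ≤ C) :
    ∀ (j : ℕ) (h : ℝ), 0 < h → mg d p h ^ 2 ≤ mg d p (h / 2 ^ j) ^ 2 + 3 * C * h := by
  intro j
  induction j with
  | zero =>
    intro h hh
    rw [pow_zero, div_one]
    nlinarith [mul_nonneg hC hh.le]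
  | succ j ih =>
    intro h hh
    have h1 := hstep h hh
    have h2 := ih (h / 2) (by linarith)
    have h3 : h / 2 / 2 ^ j = h / 2 ^ (j + 1) := by
      rw [div_div, pow_succ]
      ring
    rw [h3] at h2
    linarith

/-- below the critical point the magnetization vanishes with the field -/
lemma mg_small {q : I} (hq : (q : ℝ) < criticalProbability d) {ε : ℝ} (hε : 0 < ε) :
    ∃ δ > 0, ∀ h : ℝ, 0 < h → h ≤ δ → mg d q h ≤ ε := by
  obtain ⟨n, hn⟩ := ((Big_tendsto hq (0 : V d)).eventually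
    (gt_mem_nhds (show 0 < ε / 2 by positivity))).exists
  refine ⟨ε / 2 / (n + 1), by positivity, fun h hh hle => ?_⟩
  refine ciSup_le fun N => ?_
  have h2 : MN d q (gh h) N ≤
      EE q (Ein (Lam 0 N)) (fun S => ind (S ∈ Big d 0 n) + h * n) := by
    rw [MN_gh]
    refine Ex_mono (wt_p q.2.1 q.2.2) fun S => ?_
    set c := cc (Lam (0 : V d) N) S 0 with hc
    rcases le_or_gt n c with h3 | h3
    · have h4 : S ∈ Big d 0 n := by
        classical
        refine ⟨(Lam (0 : V d) N).filter fun y => Con S 0 y, ?_, ?_⟩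
        · intro y hy
          exact (mem_filter.mp hy).2
        · exact h3
      rw [ind_true h4]
      have := Real.exp_pos (-(h * c))
      have : 0 ≤ h * n := by positivity
      linarith
    · have h4 : 1 - h * c ≤ Real.exp (-(h * c)) := by
        have := Real.add_one_le_exp (-(h * c))
        linarith
      have h5 : (c : ℝ) ≤ n := by exact_mod_cast h3.le
      have h6 := ind_nonneg (S ∈ Big d 0 n)
      nlinarith
  refine h2.trans ?_
  unfold EE
  rw [Ex_add, Ex_const, Ex_ind]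
  have h3 := PE_le_perc q (Ein (Lam (0 : V d) N)) (inc_Big 0 n) (dp_Big 0 n)
  have h4 : h * n ≤ ε / 2 := by
    have h5 : h * n ≤ ε / 2 / (n + 1) * n := mul_le_mul_of_nonneg_right hle (Nat.cast_nonneg n)
    refine h5.trans ?_
    rw [div_mul_eq_mul_div, div_le_iff₀ (by positivity)]
    nlinarith
  change PE (q : ℝ) (Ein (Lam 0 N)) (Big d 0 n) + h * n ≤ ε
  linarith

/-- the bound below the critical point -/
lemma mg_sub {q : I} (hq : (q : ℝ) < criticalProbability d) {C : ℝ} (hC : 0 ≤ C)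
    (hstep : ∀ h : ℝ, 0 < h → mg d q h ^ 2 ≤ mg d q (h / 2) ^ 2 + 3 / 2 * C * h)
    {h : ℝ} (hh : 0 < h) : mg d q h ^ 2 ≤ 3 * C * h := by
  apply le_of_forall_pos_le_add
  intro ε hε
  have hε' : 0 < min 1 ε := lt_min one_pos hε
  obtain ⟨δ, hδ, hδ2⟩ := mg_small hq hε'
  obtain ⟨j, hj⟩ := exists_nat_gt (h / δ)
  have h1 : h / 2 ^ j ≤ δ := by
    rw [div_lt_iff₀ hδ] at hj
    rw [div_le_iff₀ (by positivity)]
    have h2 : (j : ℝ) ≤ 2 ^ j := by exact_mod_cast (Nat.lt_two_pow_self).le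
    nlinarith
  have h2 := hδ2 (h / 2 ^ j) (by positivity) h1
  have h3 := mg_iter hstep hC j h hh
  have h4 : 0 ≤ mg d q (h / 2 ^ j) :=
    MG_nonneg q.2.1 q.2.2 (gh_nonneg (by positivity)) (gh_le_one _)
  have h5 : mg d q (h / 2 ^ j) ^ 2 ≤ ε := by
    have h6 : mg d q (h / 2 ^ j) ≤ 1 := h2.trans (min_le_left _ _)
    have h7 : mg d q (h / 2 ^ j) ≤ ε := h2.trans (min_le_right _ _)
    nlinarith
  linarith

/-- **The magnetization at the critical point.** -/
theorem MN_crit (hd : 0 < d) (hT : Tri d (criticalProbability d)) :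
    ∃ C : ℝ, 0 < C ∧ ∀ (h : ℝ) (N : ℕ), 0 < h →
      MN d (criticalProbability d) (gh h) N ^ 2 ≤ C * h := by
  set pc := criticalProbability d with hpc
  have hpc0 : 0 < pc := crit_pos hd
  have hpc1 : pc ≤ 1 := crit_le_one hd
  obtain ⟨k, e1, e2, e3, he1, he2, he3, n12, n13, n23⟩ := exists_three hd hpc0.le hpc1 hT
  set K := 2 * cK d k (pc / 2) + 2 with hK
  have hcK : 0 ≤ cK d k (pc / 2) := by
    unfold cK
    positivity
  have hK0 : 0 < K := by linarith
  refine ⟨3 * K, by positivity, fun h N hh => ?_⟩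
  -- below the critical point
  have sub : ∀ p : ℝ, pc / 2 ≤ p → p < pc → MN d p (gh h) N ^ 2 ≤ 3 * K * h := by
    intro p hp1 hp2
    have hp0 : 0 < p := by linarith
    have hp3 : p ≤ 1 := by linarith
    set q : I := ⟨p, hp0.le, hp3⟩
    have hTp : Tri d p := triF_mono_p hp0.le hpc1 hp2.le hT
    have hstep : ∀ h : ℝ, 0 < h → mg d q h ^ 2 ≤ mg d q (h / 2) ^ 2 + 3 / 2 * K * h := by
      intro h hh
      refine mg_step (k := k) hp0.le hp3 hh ?_
      exact XM_le (show 0 < pc / 2 by linarith) hp1 hp3 hTp he1 he2 he3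
        ((nab_mono_p hp0.le hpc1 hp2.le hT _).trans n12)
        ((nab_mono_p hp0.le hpc1 hp2.le hT _).trans n13)
        ((nab_mono_p hp0.le hpc1 hp2.le hT _).trans n23) (by linarith)
    have h2 := mg_sub (q := q) hp2 hK0.le hstep hh
    refine le_trans ?_ h2
    exact pow_le_pow_left₀ (MN_nonneg hp0.le hp3 (gh_nonneg hh.le) (gh_le_one h) N)
      (MN_le_MG hp0.le hp3 (gh_nonneg hh.le) (gh_le_one h) N) 2
  -- continuity
  have hcont : Continuous fun p : ℝ => MN d p (gh h) N ^ 2 := by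
    have : (fun p : ℝ => MN d p (gh h) N ^ 2) = fun p : ℝ =>
        (EE p (Ein (Lam 0 N))
          (fun S => 1 - Real.exp (-(h * cc (Lam (0 : V d) N) S 0)))) ^ 2 := by
      ext p
      rw [MN_gh]
    rw [this]
    exact (EE_continuous _ _).pow 2
  have h3 : Filter.Tendsto (fun p : ℝ => MN d p (gh h) N ^ 2) (nhdsWithin pc (Set.Iio pc))
      (nhds (MN d pc (gh h) N ^ 2)) := hcont.continuousAt.tendsto.mono_left nhdsWithin_le_nhds
  refine le_of_tendsto h3 ?_
  have h4 : Set.Ico (pc / 2) pc ∈ nhdsWithin pc (Set.Iio pc) :=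
    Ico_mem_nhdsLT (by linarith)
  filter_upwards [h4] with p hp
  exact sub p hp.1 hp.2

lemma PE_big_auto {φ : V d ≃ V d} (hφ : IsAuto φ) (E : Finset (Ed d)) (x : V d) (n : ℕ) :
    PE p (E.map (edgeEquiv φ).toEmbedding) (Big d (φ x) n) = PE p E (Big d x n) := by
  rw [← PE_map (edgeEquiv φ) E]
  congr 1
  ext S
  constructor
  · rintro ⟨A, hA, hn⟩
    refine ⟨A.map φ.symm.toEmbedding, ?_, by rwa [card_map]⟩
    intro y hy
    obtain ⟨z, hz, rfl⟩ := Finset.mem_map.mp (by exact_mod_cast hy : y ∈ A.map φ.symm.toEmbedding)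
    change Con (pull φ S) x (φ.symm z)
    rw [con_pull hφ, φ.apply_symm_apply]
    exact hA hz
  · rintro ⟨A, hA, hn⟩
    refine ⟨A.map φ.toEmbedding, ?_, by rwa [card_map]⟩
    intro y hy
    obtain ⟨z, hz, rfl⟩ := Finset.mem_map.mp (by exact_mod_cast hy : y ∈ A.map φ.toEmbedding)
    exact (con_pull hφ S x z).mp (hA hz)

/-- **The volume tail at the critical point.** -/
theorem tail_crit (hd : 0 < d) (hT : Tri d (criticalProbability d)) :
    ∃ C : ℝ, 0 < C ∧ ∀ (E : Finset (Ed d)) (x : V d) (n : ℕ), 0 < n →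
      PE (criticalProbability d) E (Big d x n) ≤ C / Real.sqrt n := by
  classical
  obtain ⟨C, hC, hMN⟩ := MN_crit hd hT
  set pc := criticalProbability d with hpc
  have hpc0 : 0 ≤ pc := crit_nonneg
  have hpc1 : pc ≤ 1 := crit_le_one hd
  set a := 1 - Real.exp (-1) with ha
  have ha0 : 0 < a := by
    have : Real.exp (-1) < Real.exp 0 := Real.exp_lt_exp.mpr (by norm_num)
    rw [Real.exp_zero] at this
    linarith
  refine ⟨Real.sqrt C / a, by positivity, fun E x n hn => ?_⟩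
  have hn' : (0 : ℝ) < n := by exact_mod_cast hn
  -- to a box around the origin
  have h1 := PE_big_auto (p := pc) (isAuto_transE (-x)) E x n
  have h2 : transE (-x) x = 0 := by rw [transE_apply]; abel
  rw [h2] at h1
  rw [← h1]
  obtain ⟨N, hN⟩ := PE_le_box hpc0 hpc1 (E.map (edgeEquiv (transE (-x))).toEmbedding) (0 : V d)
  refine (hN _ (dp_Big 0 n) (inc_Big 0 n)).trans ?_
  -- Markov
  have h3 : PE pc (Ein (Lam 0 N)) (Big d 0 n) * a ≤ MN d pc (gh (1 / n)) N := by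
    rw [MN_gh, PE, ← Ex_ind, mul_comm, ← Ex_mul]
    refine Ex_mono' (wt_p hpc0 hpc1) fun ω hω => ?_
    set c := cc (Lam (0 : V d) N) (ω : Set (Ed d)) 0 with hc
    have hexp : Real.exp (-(1 / (n : ℝ) * c)) ≤ 1 := by
      apply Real.exp_le_one_iff.mpr
      have : 0 ≤ 1 / (n : ℝ) * c := by positivity
      linarith
    by_cases h4 : (ω : Set (Ed d)) ∈ Big d 0 n
    · rw [ind_true h4, mul_one]
      obtain ⟨A, hA, hnA⟩ := h4
      have h5 : A.card ≤ c := by
        rw [hc]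
        unfold cc
        apply card_le_card
        intro y hy
        have h6 : Con (ω : Set (Ed d)) 0 y := hA hy
        exact mem_filter.mpr ⟨con_mem (L := Lam (0 : V d) N) (by exact_mod_cast hω)
          (self_mem_Lam 0 N) h6, h6⟩
      have h6 : (n : ℝ) ≤ c := by exact_mod_cast hnA.trans h5
      have h7 : Real.exp (-(1 / (n : ℝ) * c)) ≤ Real.exp (-1) := by
        apply Real.exp_le_exp.mpr
        have : 1 ≤ 1 / (n : ℝ) * c := by
          rw [div_mul_eq_mul_div, one_mul, le_div_iff₀ hn', one_mul]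
          exact h6
        linarith
      linarith
    · rw [ind_false h4, mul_zero]
      linarith
  have h4 : MN d pc (gh (1 / n)) N ≤ Real.sqrt C / Real.sqrt n := by
    rw [← Real.sqrt_div hC.le]
    apply Real.le_sqrt_of_sq_le
    have := hMN (1 / n) N (by positivity)
    rwa [mul_one_div] at this
  rw [div_right_comm, le_div_iff₀ ha0]
  exact h3.trans h4

/-- **The standing assumptions hold at the critical point.** -/
theorem std_crit (hd : 0 < d) (hT : Tri d (criticalProbability d)) :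
    Std d (criticalProbability d) :=
  ⟨hd, crit_pos hd, crit_lt_one hd hT, hT, lev_crit hd, tail_crit hd hT⟩

end Pool.Agent.Lib.MP_06caae_pr
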