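import Pool.Agent.Lib.MP_06caae_pr.Inv

/-!
# The two-point function
-/

open Finset SimpleGraph
open Pool.Agent.Lib.MP_566bac_pr.Zd

namespace Pool.Agent.Lib.MP_06caae_pr

variable {d : ℕ} {p : ℝ}

/-- events which depend on the lattice edges only, in a finite volume and in a box -/
lemma dp_con (x y : V d) : Dp (lattice d).edgeSet {S : Set (Ed d) | Con S x y} := by
  have key : ∀ S S' : Set (Ed d), (∀ e ∈ (lattice d).edgeSet, (e ∈ S ↔ e ∈ S')) →
      Con S x y → Con S' x y := by
    intro S S' h h1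
    refine con_induct h1 (fun b => Con S' x b) (Con.refl _ _) ?_
    intro a b ha hab hs
    exact ha.trans (Con.step hab ((h _ hab).mp hs))
  intro S S' h
  exact ⟨key S S' h, key S' S fun e he => (h e he).symm⟩

lemma dp_rch (x : V d) (r : ℕ) (y : V d) :
    Dp (lattice d).edgeSet {S : Set (Ed d) | Rch S x r y} := by
  have key : ∀ S S' : Set (Ed d), (∀ e ∈ (lattice d).edgeSet, (e ∈ S ↔ e ∈ S')) →
      Rch S x r y → Rch S' x r y := by
    intro S S' h h1
    refine (rch_Ein.mp h1).mono (S' := S') ?_ le_rfl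
    rintro e ⟨h2, h3⟩
    exact (h e (lat_Ein _ e h3)).mp h2
  intro S S' h
  exact ⟨key S S' h, key S' S fun e he => (h e he).symm⟩

/-- every finite set of edges is contained in a box, up to pairs which are not lattice edges -/
lemma exists_box (E : Finset (Ed d)) (x : V d) :
    ∃ N, ∀ e ∈ E, e ∈ (lattice d).edgeSet → e ∈ Ein (Lam x N) := by
  classical
  induction E using Finset.induction_on with
  | empty => exact ⟨0, by simp⟩
  | insert e E _ ih =>
    obtain ⟨N, hN⟩ := ih
    induction e using Sym2.ind with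
    | _ a b =>
      refine ⟨max N (max (dst a x) (dst b x)), ?_⟩
      intro f hf hl
      rw [Finset.mem_insert] at hf
      rcases hf with rfl | hf
      · rw [mem_Ein, mem_Lam, mem_Lam]
        exact ⟨by simp, by simp, hl⟩
      · exact Ein_mono (Lam_mono x (le_max_left _ _)) (hN f hf hl)

/-- the limit of large boxes is the supremum over all finite volumes -/
lemma PE_le_box (h0 : 0 ≤ p) (h1 : p ≤ 1) (E : Finset (Ed d)) (x : V d) :
    ∃ N, ∀ A : Set (Set (Ed d)), Dp (lattice d).edgeSet A → Inc A →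
      PE p E A ≤ PE p (Ein (Lam x N)) A := by
  classical
  obtain ⟨N, hN⟩ := exists_box E x
  refine ⟨N, fun A hA hA' => ?_⟩
  refine (Pr_mono_E (wt_p h0 h1) (subset_union_left (s₂ := Ein (Lam x N))) hA').trans
    (le_of_eq ?_)
  rw [PE, ← Ex_ind, ← Ex_ind]
  refine Ex_eq_of_dp subset_union_right (dpF_ind hA) ?_
  intro e he hl
  rcases Finset.mem_union.mp he with h | h
  · exact hN e h hl
  · exact h

lemma tau_bdd (h0 : 0 ≤ p) (h1 : p ≤ 1) (y : V d) :
    BddAbove (Set.range fun N : ℕ => PE p (Ein (Lam 0 N)) {S | Con S 0 y}) :=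
  ⟨1, by rintro _ ⟨N, rfl⟩; exact PE_le_one h0 h1 _ _⟩

lemma PE_le_tau0 (h0 : 0 ≤ p) (h1 : p ≤ 1) (E : Finset (Ed d)) (y : V d) :
    PE p E {S | Con S 0 y} ≤ tau p y := by
  obtain ⟨N, hN⟩ := PE_le_box h0 h1 E (0 : V d)
  exact (hN _ (dp_con 0 y) (inc_Con 0 y)).trans (le_ciSup (tau_bdd h0 h1 y) N)

lemma PE_con_auto {φ : V d ≃ V d} (hφ : IsAuto φ) (E : Finset (Ed d)) (x y : V d) :
    PE p (E.map (edgeEquiv φ).toEmbedding) {S | Con S (φ x) (φ y)} =
      PE p E {S | Con S x y} := by
  rw [← PE_map (edgeEquiv φ) E]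
  congr 1
  ext S
  exact (con_pull hφ S x y).symm

/-- in every finite volume -/
theorem PE_le_tau (h0 : 0 ≤ p) (h1 : p ≤ 1) (E : Finset (Ed d)) (x y : V d) :
    PE p E {S | Con S x y} ≤ tau p (y - x) := by
  rw [← PE_con_auto (isAuto_transE (-x))]
  have h2 : transE (-x) x = 0 := by rw [transE_apply]; abel
  have h3 : transE (-x) y = y - x := by rw [transE_apply]; abel
  rw [h2, h3]
  exact PE_le_tau0 h0 h1 _ _

lemma tau_le {y : V d} {c : ℝ} (h : ∀ E : Finset (Ed d), PE p E {S | Con S 0 y} ≤ c) :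
    tau p y ≤ c := ciSup_le fun _ => h _

/-- the value is attained up to `ε` in large boxes around any point -/
lemma tau_approx (h0 : 0 ≤ p) (h1 : p ≤ 1) (x y : V d) {ε : ℝ} (hε : 0 < ε) :
    ∃ N, ∀ M ≥ N, tau p (y - x) - ε ≤ PE p (Ein (Lam 0 M)) {S | Con S x y} := by
  obtain ⟨N, hN⟩ := exists_lt_of_lt_ciSup
    (show tau p (y - x) - ε < ⨆ N : ℕ, PE p (Ein (Lam 0 N)) {S | Con S 0 (y - x)} by
      change tau p (y - x) - ε < tau p (y - x); linarith)
  refine ⟨N + dst x 0, fun M hM => ?_⟩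
  have h2 : PE p (Ein (Lam 0 N)) {S | Con S 0 (y - x)} =
      PE p ((Ein (Lam 0 N)).map (edgeEquiv (transE x)).toEmbedding) {S | Con S x y} := by
    have := PE_con_auto (p := p) (isAuto_transE x) (Ein (Lam 0 N)) 0 (y - x)
    rw [transE_apply, transE_apply, zero_add, sub_add_cancel] at this
    exact this.symm
  rw [h2] at hN
  refine hN.le.trans (Pr_mono_E (wt_p h0 h1) ?_ (inc_Con x y))
  intro e he
  rw [Finset.mem_map] at he
  obtain ⟨f, hf, rfl⟩ := he
  induction f using Sym2.ind with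
  | _ a b =>
    rw [mem_Ein] at hf
    change Sym2.map (transE x) s(a, b) ∈ _
    rw [Sym2.map_mk, mem_Ein, mem_Lam, mem_Lam, isAuto_transE x a b]
    have h3 := mem_Lam.mp hf.1
    have h4 := mem_Lam.mp hf.2.1
    have key : ∀ c : V d, dst c 0 ≤ N → dst (transE x c) 0 ≤ M := by
      intro c hc
      have h5 := dst_tri (transE x c) x 0
      have h6 : dst (transE x c) x = dst c 0 := by
        unfold dst
        congr 1
        ext i
        rw [transE_apply]
        simp
      omega
    exact ⟨key a h3, key b h4, hf.2.2⟩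

lemma tau_nonneg (h0 : 0 ≤ p) (h1 : p ≤ 1) (y : V d) : 0 ≤ tau p y :=
  (PE_nonneg h0 h1 ∅ _).trans (PE_le_tau0 h0 h1 ∅ y)

lemma tau_le_one (h0 : 0 ≤ p) (h1 : p ≤ 1) (y : V d) : tau p y ≤ 1 :=
  tau_le fun _ => PE_le_one h0 h1 _ _

lemma tau_zero (h0 : 0 ≤ p) (h1 : p ≤ 1) : tau p (0 : V d) = 1 := by
  apply le_antisymm (tau_le_one h0 h1 0)
  refine le_trans (le_of_eq ?_) (PE_le_tau0 h0 h1 ∅ 0)
  have : {S : Set (Ed d) | Con S 0 0} = Set.univ := by
    rw [Set.eq_univ_iff_forall]
    exact fun S => Con.refl _ _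
  rw [this]
  exact (Pr_univ _ _).symm

lemma ppi_le_tau (h0 : 0 ≤ p) (h1 : p ≤ 1) (r : ℕ) (y : V d) : ppi p r y ≤ tau p y :=
  (PE_mono h0 h1 _ fun _ hS => Rch.con hS).trans (PE_le_tau0 h0 h1 _ y)

/-- in a finite configuration paths are short -/
lemma con_fin {ω : Finset (Ed d)} {x y : V d} (h : Con (ω : Set (Ed d)) x y) :
    Rch (ω : Set (Ed d)) x ω.card y := by
  classical
  obtain ⟨r, hr⟩ := con_iff.mp h
  obtain ⟨w, hw, _⟩ := exists_path hr
  refine ⟨w, ?_⟩
  rw [← Walk.length_edges, ← List.toFinset_card_of_nodup hw.isTrail.edges_nodup]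
  apply card_le_card
  intro e he
  rw [List.mem_toFinset] at he
  exact_mod_cast edges_mem w he

/-- the two-point function is the limit of the truncated ones -/
lemma tau_le_ppi (h0 : 0 ≤ p) (h1 : p ≤ 1) (y : V d) {ε : ℝ} (hε : 0 < ε) :
    ∃ N, ∀ r ≥ N, tau p y - ε ≤ ppi p r y := by
  obtain ⟨M, hM⟩ := tau_approx h0 h1 (0 : V d) y hε
  refine ⟨(Ein (Lam (0 : V d) M)).card, fun r hr => ?_⟩
  have h2 := hM M le_rfl
  rw [sub_zero] at h2
  refine h2.trans ?_
  have h3 : PE p (Ein (Lam 0 M)) {S | Con S 0 y} ≤ PE p (Ein (Lam 0 M)) {S | Rch S 0 r y} := by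
    refine Pr_mono' (wt_p h0 h1) fun ω hω hS => ?_
    exact (con_fin hS).mono subset_rfl ((card_le_card hω).trans hr)
  refine h3.trans ?_
  have := PE_le_ppi h0 h1 (Ein (Lam 0 M)) 0 y r
  rwa [sub_zero] at this

lemma tau_mono_p {p' : ℝ} (h0 : 0 ≤ p) (h1 : p' ≤ 1) (h : p ≤ p') (y : V d) :
    tau p y ≤ tau p' y := by
  refine tau_le fun E => ?_
  refine le_trans ?_ (PE_le_tau0 (h0.trans h) h1 E y)
  exact Pr_mono_w (wt_p h0 (h.trans h1)) (wt_p (h0.trans h) h1) (fun _ => h) _ (inc_Con 0 y)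

lemma tau_symE_le (h0 : 0 ≤ p) (h1 : p ≤ 1) (π : Equiv.Perm (Fin d)) (ε : Fin d → ℤˣ)
    (y : V d) : tau p y ≤ tau p (symE π ε y) := by
  refine tau_le fun E => ?_
  rw [← PE_con_auto (isAuto_symE π ε)]
  have h2 : symE π ε 0 = 0 := by
    ext i
    rw [symE_apply]
    simp
  rw [h2]
  exact PE_le_tau0 h0 h1 _ _

lemma tau_neg (h0 : 0 ≤ p) (h1 : p ≤ 1) (y : V d) : tau p (-y) = tau p y := by
  have h2 : ∀ z : V d, symE (Equiv.refl _) (fun _ => -1) z = -z := by
    intro z
    ext i
    rw [symE_apply]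
    simp
  apply le_antisymm
  · have := tau_symE_le h0 h1 (Equiv.refl _) (fun _ => -1) (-y)
    rwa [h2, neg_neg] at this
  · have := tau_symE_le h0 h1 (Equiv.refl _) (fun _ => -1) y
    rwa [h2] at this

lemma tau_sub_comm (h0 : 0 ≤ p) (h1 : p ≤ 1) (x y : V d) : tau p (x - y) = tau p (y - x) := by
  rw [← tau_neg h0 h1, neg_sub]

/-- **Positive association.** -/
lemma tau_mul_le (h0 : 0 ≤ p) (h1 : p ≤ 1) (x y : V d) :
    tau p x * tau p y ≤ tau p (x + y) := by
  apply le_of_forall_pos_le_add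
  intro ε hε
  obtain ⟨N, hN⟩ := tau_approx h0 h1 (0 : V d) x (show 0 < ε / 2 by positivity)
  obtain ⟨M, hM⟩ := tau_approx h0 h1 x (x + y) (show 0 < ε / 2 by positivity)
  have h2 := hN (max N M) (le_max_left _ _)
  have h3 := hM (max N M) (le_max_right _ _)
  rw [sub_zero] at h2
  rw [add_sub_cancel_left] at h3
  set E := Ein (Lam (0 : V d) (max N M))
  have h4 := Pr_fkg (wt_p h0 h1) E (inc_Con (0 : V d) x) (inc_Con x (x + y))
  have h5 : Pr (fun _ => p) E ({S : Set (Ed d) | Con S 0 x} ∩ {S | Con S x (x + y)}) ≤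
      PE p E {S | Con S 0 (x + y)} :=
    Pr_mono (wt_p h0 h1) fun S hS => Con.trans hS.1 hS.2
  have h6 := PE_le_tau0 h0 h1 E (x + y)
  have h7 : PE p E {S : Set (Ed d) | Con S 0 x} * PE p E {S | Con S x (x + y)} ≤
      tau p (x + y) := h4.trans (h5.trans h6)
  have a1 := tau_le_one h0 h1 x
  have a2 := tau_le_one h0 h1 y
  have a3 := tau_nonneg h0 h1 x
  have a4 := tau_nonneg h0 h1 y
  have b1 := PE_nonneg h0 h1 E {S : Set (Ed d) | Con S 0 x}
  have b2 := PE_le_one h0 h1 E {S : Set (Ed d) | Con S 0 x}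
  have b3 := PE_nonneg h0 h1 E {S : Set (Ed d) | Con S x (x + y)}
  have b4 := PE_le_one h0 h1 E {S : Set (Ed d) | Con S x (x + y)}
  set u := PE p E {S : Set (Ed d) | Con S 0 x}
  set v := PE p E {S : Set (Ed d) | Con S x (x + y)}
  have c1 : tau p x * tau p y ≤ (u + ε / 2) * tau p y :=
    mul_le_mul_of_nonneg_right (by linarith) a4
  have c2 : u * tau p y ≤ u * (v + ε / 2) := mul_le_mul_of_nonneg_left (by linarith) b1
  nlinarith

/-- adjacent vertices -/
lemma tau_adj (h0 : 0 ≤ p) (h1 : p ≤ 1) {x : V d} (h : (lattice d).Adj 0 x) : p ≤ tau p x := by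
  classical
  refine le_trans (le_of_eq ?_) (PE_le_tau0 h0 h1 {s(0, x)} x)
  have h2 : PE p {s(0, x)} {S | Con S 0 x} = PE p {s(0, x)} {S | ∀ e ∈ ({s(0, x)} : Finset (Ed d)), e ∈ S} := by
    apply Pr_congr
    intro ω hω
    simp only [Set.mem_ofPred_eq, mem_singleton, forall_eq, Finset.mem_coe]
    constructor
    · intro hc
      by_contra hn
      have : ω = ∅ := by
        rw [Finset.eq_empty_iff_forall_notMem]
        intro e he
        have := hω he
        rw [mem_singleton] at this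
        rw [this] at he
        exact hn he
      rw [this] at hc
      have h3 : ∀ y : V d, Con ((∅ : Finset (Ed d)) : Set (Ed d)) 0 y → y = 0 := by
        intro y hy
        refine con_induct hy (fun b => b = 0) rfl ?_
        intro a b _ _ hs
        simp at hs
      have h4 := h3 x hc
      rw [h4] at h
      exact (lattice d).loopless.irrefl _ h
    · intro hs
      exact Con.step h (by exact_mod_cast hs)
  rw [h2, PE, Pr_all _ subset_rfl]
  simp

lemma tau_pos (h0 : 0 < p) (h1 : p ≤ 1) (x : V d) : 0 < tau p x := by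
  -- walk along the coordinate directions
  have step : ∀ (i : Fin d) (y : V d), 0 < tau p y →
      0 < tau p (y + uv i) ∧ 0 < tau p (y - uv i) := by
    intro i y hy
    have a1 : p ≤ tau p (uv i : V d) := tau_adj h0.le h1 (by
      have := adj_add (0 : V d) i
      rwa [zero_add] at this)
    have a2 : p ≤ tau p (-uv i : V d) := by
      rw [tau_neg h0.le h1]
      exact a1
    constructor
    · exact lt_of_lt_of_le (mul_pos hy (h0.trans_le a1)) (tau_mul_le h0.le h1 y (uv i))
    · rw [sub_eq_add_neg]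
      exact lt_of_lt_of_le (mul_pos hy (h0.trans_le a2)) (tau_mul_le h0.le h1 y (-uv i))
  have base : 0 < tau p (0 : V d) := by
    rw [tau_zero h0.le h1]
    exact one_pos
  have line : ∀ (i : Fin d) (n : ℕ) (y : V d), 0 < tau p y →
      0 < tau p (y + (n : ℤ) • uv i) ∧ 0 < tau p (y - (n : ℤ) • uv i) := by
    intro i n
    induction n with
    | zero =>
      intro y hy
      simpa using hy
    | succ n ih =>
      intro y hy
      have h3 := ih y hy
      constructor
      · have := (step i _ h3.1).1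
        convert this using 2
        push_cast
        rw [add_smul, one_smul, add_assoc]
      · have := (step i _ h3.2).2
        convert this using 2
        push_cast
        rw [add_smul, one_smul, sub_sub]
  have lineZ : ∀ (i : Fin d) (z : ℤ) (y : V d), 0 < tau p y → 0 < tau p (y + z • uv i) := by
    intro i z y hy
    rcases Int.natAbs_eq z with h | h
    · rw [h]
      exact (line i _ y hy).1
    · rw [h, neg_smul, ← sub_eq_add_neg]
      exact (line i _ y hy).2
  have key : ∀ s : Finset (Fin d), 0 < tau p (∑ i ∈ s, x i • uv i : V d) := by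
    classical
    intro s
    induction s using Finset.induction_on with
    | empty => simpa using base
    | insert i s hi ih =>
      rw [sum_insert hi, add_comm]
      exact lineZ i (x i) _ ih
  have h2 : (∑ i, x i • uv i : V d) = x := by
    ext j
    rw [Finset.sum_apply, Finset.sum_eq_single j]
    · rw [Pi.smul_apply, uv_same, smul_eq_mul, mul_one]
    · intro i _ hij
      rw [Pi.smul_apply, uv_ne hij.symm, smul_zero]
    · intro h
      exact absurd (mem_univ j) h
  have := key univ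
  rwa [h2] at this

end Pool.Agent.Lib.MP_06caae_pr
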