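import Pool.Agent.Lib.MP_06caae_pr.Q.LaneP
import Pool.Agent.Lib.MP_06caae_pr.Tau

/-!
# The incipient infinite cluster: ratio limit, transfer, mass transport

D1 `tau_ratio`: `tau (x - w) / tau x → 1`. D2 `transfer0`, D3 `transport`.
-/

open Finset SimpleGraph MeasureTheory Filter Topology
open Pool.Agent.Lib.MP_566bac_pr.Zd
open Pool.Agent.Lib.IICQ

namespace Pool.Agent.Lib.MP_06caae_pr

variable {d : ℕ}

/-- `ν` is the law of the incipient infinite cluster -/
structure IsIIC (p : unitInterval) (ν : Measure (Set (Ed d))) : Prop where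
  prob : IsProbabilityMeasure ν
  lim : ∀ K : Set (Set (Ed d)), Loc K → Tendsto (fun x : V d =>
    (perc p).real (K ∩ {S | Con S 0 x}) / (perc p).real {S : Set (Ed d) | Con S 0 x}) cofinite (𝓝 (ν.real K))

/-! ### local events -/

lemma loc_rch (x : V d) (r : ℕ) (y : V d) : Loc {S : Set (Ed d) | Rch S x r y} :=
  ⟨Ein (Lam x r), lat_Ein _, det_Rch x r y⟩

lemma loc_univ : Loc (Set.univ : Set (Set (Ed d))) := ⟨∅, by intro e he; exact absurd he (notMem_empty _),
  fun _ _ _ _ => trivial⟩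

lemma meas_con (x y : V d) : MeasurableSet {S : Set (Ed d) | Con S x y} := by
  have h : {S : Set (Ed d) | Con S x y} = ⋃ r : ℕ, {S | Rch S x r y} := by
    ext S
    simp only [Set.mem_setOf_eq, Set.mem_iUnion]
    exact con_iff
  rw [h]
  exact MeasurableSet.iUnion fun r => (loc_rch x r y).meas

/-- an event which is determined by the exploration up to level `r` and depends only on the open graph is local -/
lemma det_of_bdet {z : V d} {r : ℕ} {K : Set (Set (Ed d))} (hB : BDet z r K)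
    (hG : ∀ S S' : Set (Ed d), openGraph S = openGraph S' → S ∈ K → S' ∈ K) : Det (Ein (Lam z (r + 1))) K := by
  intro S S' h hS
  have h1 : S ∩ (lattice d).edgeSet ∈ K := hG _ _ (openGraph_lat S).symm hS
  refine hG _ _ (openGraph_lat S') ?_
  have h2 : Agree (tb z r (S ∩ (lattice d).edgeSet)) (S ∩ (lattice d).edgeSet) (S' ∩ (lattice d).edgeSet) := by
    intro e he
    obtain ⟨k, hk, v, hv, hve⟩ := he
    have hvL : v ∈ (Lam z k : Finset (V d)) := ball_sub_Lam _ z k hv
    by_cases hlat : e ∈ (lattice d).edgeSet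
    · have he1 : e ∈ Ein (Lam z (r + 1) : Finset (V d)) := by
        induction e using Sym2.ind with
        | _ a b =>
          rw [SimpleGraph.mem_edgeSet] at hlat
          rw [Sym2.mem_iff] at hve
          have hsub : (Lam z (k + 1) : Finset (V d)) ⊆ Lam z (r + 1) := Lam_mono z (by omega)
          have hsub' : (Lam z k : Finset (V d)) ⊆ Lam z (r + 1) := Lam_mono z (by omega)
          rcases hve with h1 | h1
          · subst h1
            exact mem_Ein.2 ⟨hsub' hvL, hsub (dst_of_adj_mem hvL hlat), hlat⟩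
          · subst h1
            exact mem_Ein.2 ⟨hsub (dst_of_adj_mem hvL hlat.symm), hsub' hvL, hlat⟩
      simp only [Set.mem_inter_iff, h e he1]
    · simp only [Set.mem_inter_iff, hlat, and_false]
  have h3 := bdet_iff.1 hB _ _ h2
  exact (iff_of_eq h3).2 h1

lemma loc_of_bdet {z : V d} {r : ℕ} {K : Set (Set (Ed d))} (hB : BDet z r K)
    (hG : ∀ S S' : Set (Ed d), openGraph S = openGraph S' → S ∈ K → S' ∈ K) : Loc K :=
  ⟨_, lat_Ein _, det_of_bdet hB hG⟩

/-! ### infinite volume -/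

section
variable (p : unitInterval)

lemma perc_loc {A : Set (Set (Ed d))} {E : Finset (Ed d)} (hE : Lat E) (hA : Det E A) :
    (perc p).real A = PE (p : ℝ) E A := perc_det p hE hA

/-- continuity from below -/
lemma perc_con_le {K : Set (Set (Ed d))} {x y : V d} {c : ℝ} (hc : 0 ≤ c)
    (h : ∀ r, (perc p).real (K ∩ {S | Rch S x r y}) ≤ c) :
    (perc p).real (K ∩ {S | Con S x y}) ≤ c := by
  have h1 : K ∩ {S : Set (Ed d) | Con S x y} = ⋃ r : ℕ, (K ∩ {S | Rch S x r y}) := by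
    rw [← Set.inter_iUnion]
    congr 1
    ext S
    simp only [Set.mem_setOf_eq, Set.mem_iUnion]
    exact con_iff
  have hmono : Monotone fun r : ℕ => K ∩ {S : Set (Ed d) | Rch S x r y} := by
    intro i j hij S hS
    exact ⟨hS.1, Rch.mono hS.2 subset_rfl hij⟩
  have h2 : (perc p) (K ∩ {S : Set (Ed d) | Con S x y}) ≤ ENNReal.ofReal c := by
    rw [h1, hmono.measure_iUnion]
    refine iSup_le fun r => ?_
    rw [← ENNReal.ofReal_toReal (measure_ne_top (perc p) _)]
    exact ENNReal.ofReal_le_ofReal (h r)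
  exact ENNReal.toReal_le_of_le_ofReal hc h2

/-- the two-point function -/
lemma perc_con0 (x : V d) : (perc p).real {S : Set (Ed d) | Con S 0 x} = tau (p : ℝ) x := by
  apply le_antisymm
  · have h1 := perc_con_le p (K := Set.univ) (x := (0 : V d)) (y := x) (c := tau (p : ℝ) x)
      (tau_nonneg p.2.1 p.2.2 x) fun r => by
        rw [Set.univ_inter, perc_loc p (lat_Ein _) (det_Rch 0 r x)]
        exact ppi_le_tau p.2.1 p.2.2 r x
    rwa [Set.univ_inter] at h1
  · apply le_of_forall_pos_le_add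
    intro ε hε
    obtain ⟨N, hN⟩ := tau_le_ppi p.2.1 p.2.2 x hε
    have h1 := hN N le_rfl
    have h2 : ppi (p : ℝ) N x ≤ (perc p).real {S : Set (Ed d) | Con S 0 x} := by
      rw [ppi, ← perc_loc p (lat_Ein _) (det_Rch 0 N x)]
      exact perc_mono p fun S hS => Rch.con hS
    linarith

/-! ### D1 -/

/-- the reflection `z ↦ w - z` -/
lemma isAuto_sub (w : V d) : IsAuto (Equiv.subLeft w) := by
  intro x y
  rw [lattice_adj, lattice_adj]
  have h1 : ∑ i, |(Equiv.subLeft w) x i - (Equiv.subLeft w) y i| = ∑ i, |x i - y i| := by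
    refine sum_congr rfl fun i _ => ?_
    show |(w - x) i - (w - y) i| = |x i - y i|
    rw [Pi.sub_apply, Pi.sub_apply, abs_sub_comm (x i)]
    congr 1
    ring
  rw [h1]

lemma refl_id (n : ℕ) (w x : V d) : (perc p).real ({S : Set (Ed d) | Rch S 0 n w} ∩ {S | Con S 0 x}) =
    (perc p).real ({S : Set (Ed d) | Rch S 0 n w} ∩ {S | Con S 0 (w - x)}) := by
  have h1 := perc_pull (isAuto_sub w) p (A := {S : Set (Ed d) | Rch S 0 n w} ∩ {S | Con S 0 (w - x)})
    ((loc_rch 0 n w).meas.inter (meas_con 0 (w - x)))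
  rw [← h1]
  congr 1
  ext S
  simp only [Set.mem_inter_iff, Set.mem_setOf_eq, Set.mem_preimage]
  rw [rch_pull (isAuto_sub w), con_pull (isAuto_sub w)]
  have e1 : (Equiv.subLeft w) 0 = w := by simp
  have e2 : (Equiv.subLeft w) w = 0 := by simp
  have e3 : (Equiv.subLeft w) (w - x) = x := by simp
  rw [e1, e2, e3]
  constructor
  · rintro ⟨h2, h3⟩
    exact ⟨h2.symm, (Con.symm h2.con).trans h3⟩
  · rintro ⟨h2, h3⟩
    exact ⟨h2.symm, (Con.symm h2.con).trans h3⟩

lemma fkg_con {A : Set (Set (Ed d))} (hA : Loc A) (hA' : Inc A) (x : V d) :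
    (perc p).real A * tau (p : ℝ) x ≤ (perc p).real (A ∩ {S | Con S 0 x}) := by
  apply le_of_forall_pos_le_add
  intro ε hε
  obtain ⟨N, hN⟩ := tau_le_ppi p.2.1 p.2.2 x hε
  have h1 := hN N le_rfl
  have h2 := perc_fkg p hA (loc_rch 0 N x) hA' (inc_Rch 0 N x)
  have h3 : ppi (p : ℝ) N x = (perc p).real {S : Set (Ed d) | Rch S 0 N x} := by
    rw [ppi, ← perc_loc p (lat_Ein _) (det_Rch 0 N x)]
  have h4 : (perc p).real (A ∩ {S | Rch S 0 N x}) ≤ (perc p).real (A ∩ {S | Con S 0 x}) :=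
    perc_mono p fun S hS => ⟨hS.1, Rch.con hS.2⟩
  have h5 : (perc p).real A ≤ 1 := measureReal_le_one
  have h6 : 0 ≤ (perc p).real A := measureReal_nonneg
  nlinarith

lemma infinite_V (hd : 0 < d) : Infinite (V d) := by
  refine Infinite.of_injective (fun n : ℤ => (fun _ => n : V d)) fun a b h => ?_
  exact congrFun h ⟨0, hd⟩

lemma tendsto_sub_left (w : V d) : Tendsto (fun x : V d => w - x) cofinite cofinite :=
  (sub_right_injective (b := w)).tendsto_cofinite

lemma tendsto_sub_right (z : V d) : Tendsto (fun x : V d => x - z) cofinite cofinite :=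
  (sub_left_injective (b := z)).tendsto_cofinite

variable {p} {ν : Measure (Set (Ed d))}

/-- D1, the ratio limit -/
theorem tau_ratio (hν : IsIIC p ν) (hp : 0 < (p : ℝ)) (hd : 0 < d) (w : V d) :
    Tendsto (fun x : V d => tau (p : ℝ) (x - w) / tau (p : ℝ) x) cofinite (𝓝 1) := by
  have := infinite_V hd
  have hτ : ∀ x : V d, 0 < tau (p : ℝ) x := fun x => tau_pos hp p.2.2 x
  -- a radius for which `K` has positive probability
  obtain ⟨N, hN⟩ := tau_le_ppi p.2.1 p.2.2 w (show 0 < tau (p : ℝ) w / 2 from half_pos (hτ w))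
  have hc : 0 < ppi (p : ℝ) N w := by
    have := hN N le_rfl
    linarith [hτ w]
  set K : Set (Set (Ed d)) := {S | Rch S 0 N w} with hK
  have hKc : (perc p).real K = ppi (p : ℝ) N w := by
    rw [ppi, ← perc_loc p (lat_Ein _) (det_Rch 0 N w)]
  have hlim := hν.lim K (loc_rch 0 N w)
  simp only [perc_con0] at hlim
  have hk : 0 < ν.real K := by
    refine lt_of_lt_of_le hc (ge_of_tendsto hlim (Eventually.of_forall fun x => ?_))
    rw [le_div_iff₀ (hτ x), ← hKc]
    exact fkg_con p (loc_rch 0 N w) (inc_Rch 0 N w) x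
  have hlim2 := hlim.comp (tendsto_sub_left w)
  have h1 := hlim.div hlim2 hk.ne'
  rw [div_self hk.ne'] at h1
  refine h1.congr fun x => ?_
  show (perc p).real (K ∩ {S | Con S 0 x}) / tau (p : ℝ) x /
    ((perc p).real (K ∩ {S | Con S 0 (w - x)}) / tau (p : ℝ) (w - x)) = tau (p : ℝ) (x - w) / tau (p : ℝ) x
  have h2 := refl_id p N w x
  rw [← hK] at h2
  rw [h2, tau_sub_comm p.2.1 p.2.2 x w]
  have h3 : 0 < (perc p).real (K ∩ {S | Con S 0 (w - x)}) := by
    refine lt_of_lt_of_le (mul_pos (by rw [hKc]; exact hc) (hτ (w - x))) (fkg_con p (loc_rch 0 N w) (inc_Rch 0 N w) (w - x))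
  have h4 := hτ x
  have h5 := hτ (w - x)
  field_simp

lemma Loc.pull {φ : V d ≃ V d} (hφ : IsAuto φ) {A : Set (Set (Ed d))} (hA : Loc A) :
    Loc (pull φ ⁻¹' A) := by
  classical
  obtain ⟨E, hE, hA⟩ := hA
  refine ⟨E.image (Sym2.map φ), ?_, ?_⟩
  · intro e he
    obtain ⟨f, hf, rfl⟩ := mem_image.1 he
    have h1 := hE f hf
    induction f using Sym2.ind with
    | _ a b =>
      rw [Sym2.map_mk]
      rw [SimpleGraph.mem_edgeSet] at h1 ⊢
      exact (hφ a b).2 h1
  · intro S S' h hS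
    refine hA _ _ (fun e he => ?_) hS
    show Sym2.map φ e ∈ S ↔ Sym2.map φ e ∈ S'
    exact h _ (mem_image_of_mem _ he)

/-- D3, mass transport: shifting the origin to a vertex of the cluster -/
theorem transport (hν : IsIIC p ν) (hp : 0 < (p : ℝ)) (hd : 0 < d) (z : V d) {A : Set (Set (Ed d))} (hA : Loc A)
    (hAz : ∀ T ∈ A, Con T (-z) 0) : ν.real (pull (transE z) ⁻¹' A) = ν.real A := by
  have := infinite_V hd
  have hτ : ∀ x : V d, 0 < tau (p : ℝ) x := fun x => tau_pos hp p.2.2 x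
  have hlim := hν.lim _ (Loc.pull (isAuto_transE z) hA)
  simp only [perc_con0] at hlim
  have hlim2 := (hν.lim A hA).comp (tendsto_sub_right z)
  simp only [perc_con0] at hlim2
  have h1 := hlim2.mul (tau_ratio hν hp hd z)
  rw [mul_one] at h1
  refine tendsto_nhds_unique hlim (h1.congr fun x => ?_)
  have h2 := hτ (x - z)
  have h3 := hτ x
  have h4 : (perc p).real (pull (transE z) ⁻¹' A ∩ {S | Con S 0 x}) = (perc p).real (A ∩ {S | Con S 0 (x - z)}) := by
    rw [← perc_pull (isAuto_transE z) p (A := A ∩ {S | Con S 0 (x - z)}) (hA.meas.inter (meas_con _ _))]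
    congr 1
    ext S
    simp only [Set.mem_inter_iff, Set.mem_setOf_eq, Set.mem_preimage]
    refine and_congr_right fun hS => ?_
    rw [con_pull (isAuto_transE z)]
    have e1 : transE z (0 : V d) = z := by rw [transE_apply, zero_add]
    have e2 : transE z (x - z) = x := by rw [transE_apply, sub_add_cancel]
    rw [e1, e2]
    have h5 := hAz _ hS
    rw [con_pull (isAuto_transE z), e1] at h5
    have e3 : transE z (-z) = 0 := by rw [transE_apply, neg_add_cancel]
    rw [e3] at h5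
    exact ⟨fun h => h5.symm.trans h, fun h => h5.trans h⟩
  show (perc p).real (A ∩ {S | Con S 0 (x - z)}) / tau (p : ℝ) (x - z) * (tau (p : ℝ) (x - z) / tau (p : ℝ) x) =
    (perc p).real (pull (transE z) ⁻¹' A ∩ {S | Con S 0 x}) / tau (p : ℝ) x
  rw [h4]
  field_simp

/-! ### D2 -/

lemma dp_lat_sph (u : V d) (j : ℕ) {S S' : Set (Ed d)} (h : openGraph S = openGraph S') :
    u ∈ sph S 0 j → u ∈ sph S' 0 j := by
  rw [sph_congr h]
  exact id

lemma bdet_sph (x u : V d) (j : ℕ) : BDet x j {S : Set (Ed d) | u ∈ sph S x j} := by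
  rw [bdet_iff]
  exact (rev_sph x le_rfl).comp fun s => u ∈ s

lemma det_sph (x u : V d) (j : ℕ) : Det (Ein (Lam x (j + 1))) {S : Set (Ed d) | u ∈ sph S x j} :=
  det_of_bdet (bdet_sph x u j) fun S S' h hS => by
    show u ∈ sph S' x j
    rw [← sph_congr h]
    exact hS

lemma loc_mem_sph (x u : V d) (j : ℕ) : Loc {S : Set (Ed d) | u ∈ sph S x j} := ⟨_, lat_Ein _, det_sph x u j⟩

lemma bdet_sph_ne (x : V d) (j : ℕ) : BDet x j {S : Set (Ed d) | (sph S x j).Nonempty} := by
  rw [bdet_iff]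
  exact (rev_sph x le_rfl).comp fun s => s.Nonempty

lemma loc_sph_ne (x : V d) (j : ℕ) : Loc {S : Set (Ed d) | (sph S x j).Nonempty} :=
  loc_of_bdet (bdet_sph_ne x j) fun S S' h hS => by
    show (sph S' x j).Nonempty
    rw [← sph_congr h]
    exact hS

lemma BDet.mono {x : V d} {r s : ℕ} {K : Set (Set (Ed d))} (h : BDet x r K) (hrs : r ≤ s) : BDet x s K :=
  fun S S' h1 => h S S' fun k hk => h1 k (by omega)

/-- the finite bound -/
lemma transfer_fin {K : Set (Set (Ed d))} (hK : Loc K) {j : ℕ} (hB : BDet 0 j K) {x : V d}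
    (hx : x ∉ (Lam 0 j : Finset (V d))) : (perc p).real (K ∩ {S | Con S 0 x}) ≤
      ∑ u ∈ (Lam 0 j : Finset (V d)), (perc p).real (K ∩ {S | u ∈ sph S 0 j}) * tau (p : ℝ) (x - u) := by
  classical
  have hτ : ∀ x : V d, 0 ≤ tau (p : ℝ) x := fun x => tau_nonneg p.2.1 p.2.2 x
  refine perc_con_le p (sum_nonneg fun u _ => mul_nonneg measureReal_nonneg (hτ _)) fun r => ?_
  obtain ⟨E0, hE0, hKdet⟩ := hK
  obtain ⟨E, hEdef⟩ : ∃ E, E = E0 ∪ Ein (Lam (0 : V d) (j + 1)) ∪ Ein (Lam (0 : V d) r) := ⟨_, rfl⟩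
  have hE : Lat E := by rw [hEdef]; exact lat_union (lat_union hE0 (lat_Ein _)) (lat_Ein _)
  have d1 : Det E K := det_mono (by rw [hEdef]; exact subset_union_left.trans subset_union_left) hKdet
  have d2 : ∀ u, Det E {S : Set (Ed d) | u ∈ sph S 0 j} := fun u =>
    det_mono (by rw [hEdef]; exact subset_union_right.trans subset_union_left) (det_sph 0 u j)
  have d3 : Det E {S : Set (Ed d) | Rch S 0 r x} :=
    det_mono (by rw [hEdef]; exact subset_union_right) (det_Rch 0 r x)
  rw [perc_loc p hE (det_inter d1 d3)]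
  have h1 : K ∩ {S : Set (Ed d) | Rch S 0 r x} ⊆
      ⋃ u ∈ (Lam 0 j : Finset (V d)), {S | S ∈ K ∩ {S | u ∈ sph S 0 j} ∧ S \ tb 0 j S ∈ {S | Con S u x}} := by
    rintro S ⟨hS, hR⟩
    have h2 : Rch S 0 (j + r) x := Rch.mono hR subset_rfl (by omega)
    rcases rch_rest.mp h2 with ⟨k, h3, h4⟩ | ⟨u, h3, h4⟩
    · exfalso
      apply hx
      rw [mem_Lam, dst_comm]
      exact (rch_dst h4).trans h3.le
    · rw [Set.mem_iUnion₂]
      exact ⟨u, ball_sub_Lam S 0 j (sph_subset S 0 j h3), ⟨hS, h3⟩, h4.con⟩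
  refine (Pr_mono (wt_p p.2.1 p.2.2) h1).trans ((Pr_biUnion_le (wt_p p.2.1 p.2.2) E _ _).trans ?_)
  refine sum_le_sum fun u _ => ?_
  rw [perc_loc p hE (det_inter d1 (d2 u)), mul_comm]
  refine Pr_fresh_le (wt_p p.2.1 p.2.2) E (stop_tb 0 j) (G := K ∩ {S | u ∈ sph S 0 j}) ?_ (Q := fun _ => {S | Con S u x})
    (rev_const _ _) fun S _ E' _ => PE_le_tau p.2.1 p.2.2 E' u x
  intro S S' hSS
  have a1 : (S' ∈ K) = (S ∈ K) := bdet_iff.mp hB S S' hSS
  have a2 : sph S' 0 j = sph S 0 j := rev_sph 0 le_rfl S S' hSS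
  show (S' ∈ K ∧ u ∈ sph S' 0 j) = (S ∈ K ∧ u ∈ sph S 0 j)
  rw [a1, a2]

/-- D2 at one level -/
theorem transfer0 (hν : IsIIC p ν) (hp : 0 < (p : ℝ)) (hd : 0 < d) {K : Set (Set (Ed d))} (hK : Loc K) {j : ℕ}
    (hB : BDet 0 j K) : ν.real K ≤ ∑ u ∈ (Lam 0 j : Finset (V d)), (perc p).real (K ∩ {S | u ∈ sph S 0 j}) := by
  have := infinite_V hd
  have hτ : ∀ x : V d, 0 < tau (p : ℝ) x := fun x => tau_pos hp p.2.2 x
  have hlim := hν.lim K hK
  simp only [perc_con0] at hlim
  have h1 : Tendsto (fun x : V d => ∑ u ∈ (Lam 0 j : Finset (V d)), (perc p).real (K ∩ {S | u ∈ sph S 0 j}) *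
      (tau (p : ℝ) (x - u) / tau (p : ℝ) x)) cofinite
      (𝓝 (∑ u ∈ (Lam 0 j : Finset (V d)), (perc p).real (K ∩ {S | u ∈ sph S 0 j}) * 1)) :=
    tendsto_finsetSum _ fun u _ => (tau_ratio hν hp hd u).const_mul _
  simp only [mul_one] at h1
  refine le_of_tendsto_of_tendsto hlim h1 ?_
  have h2 : ∀ᶠ x : V d in cofinite, x ∉ (Lam 0 j : Finset (V d)) := by
    have := (Lam (0 : V d) j).finite_toSet.compl_mem_cofinite
    filter_upwards [this] with x hx
    exact hx
  filter_upwards [h2] with x hx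
  have h3 := transfer_fin (p := p) hK hB hx
  rw [div_le_iff₀ (hτ x), sum_mul]
  refine h3.trans (le_of_eq (sum_congr rfl fun u _ => ?_))
  have := hτ x
  field_simp

end

end Pool.Agent.Lib.MP_06caae_pr
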