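import Pool.Agent.Lib.MP_06caae_pr.GhDefs

/-!
# The sum over the boxes
-/

open Finset SimpleGraph
open Pool.Agent.Lib.MP_566bac_pr.Zd

namespace Pool.Agent.Lib.MP_06caae_pr

variable {d : ℕ} {p g : ℝ}

lemma card_Ein_le (W : Finset (V d)) : (Ein W).card ≤ W.card * W.card := by
  classical
  unfold Ein
  refine (card_filter_le _ _).trans (card_image_le.trans ?_)
  rw [card_product]

/-- the coordinates of the edges inside `Q` -/
def inC (Q : Finset (V d)) : Set (Gh d) := {q | ∃ e ∈ Ein Q, q = Sum.inl e}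

lemma dp_pre (Q : Finset (V d)) (a : V d) :
    Dp (inC Q)ᶜ {T : Set (Gh d) | Pre (ed T) (gr T) Q a} := by
  intro T T' h
  apply pre_congr
  · ext e
    constructor
    · rintro ⟨h1, h2⟩
      exact ⟨(h (Sum.inl e) (by
        rintro ⟨f, hf, hef⟩
        rw [Sum.inl.injEq] at hef
        subst hef
        exact h2 hf)).mp h1, h2⟩
    · rintro ⟨h1, h2⟩
      exact ⟨(h (Sum.inl e) (by
        rintro ⟨f, hf, hef⟩
        rw [Sum.inl.injEq] at hef
        subst hef
        exact h2 hf)).mpr h1, h2⟩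
  · ext v
    refine h (Sum.inr v) ?_
    rintro ⟨f, _, hf⟩
    cases hf

lemma dp_opn (Q : Finset (V d)) : Dp (inC Q) {T : Set (Gh d) | Opn (ed T) Q} := by
  intro T T' h
  refine forall₂_congr fun e he => ?_
  exact h (Sum.inl e) ⟨e, he, rfl⟩

lemma Pr_opn {U : Finset (Gh d)} {Q : Finset (V d)} (hU : ∀ e ∈ Ein Q, Sum.inl e ∈ U) :
    Pr (gw p g) U {T | Opn (ed T) Q} = p ^ (Ein Q).card := by
  have h1 : (Ein Q).map Function.Embedding.inl ⊆ U := by
    intro q hq
    obtain ⟨e, he, rfl⟩ := Finset.mem_map.mp hq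
    exact hU e he
  have h2 := Pr_all (gw p g) h1
  rw [Finset.prod_map] at h2
  have h3 : ∏ e ∈ Ein Q, gw p g (Function.Embedding.inl e : Gh d) = p ^ (Ein Q).card := by
    rw [← prod_const]
    rfl
  rw [h3] at h2
  rw [← h2]
  congr 1
  ext T
  simp [Opn, ed]

/-- **The sum over the boxes.** -/
theorem box_sum (h0 : 0 ≤ p) (h1 : p ≤ 1) (g0 : 0 ≤ g) (g1 : g ≤ 1) {U : Finset (Gh d)} {k : ℕ}
    (W : Finset (V d)) (hW : ∀ v ∈ W, ∀ e ∈ Ein (Lam v k), Sum.inl e ∈ U) (a : V d) :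
    p ^ ((2 * k + 1) ^ d * (2 * k + 1) ^ d) *
        ∑ v ∈ W, Pr (gw p g) U {T | Pre (ed T) (gr T) (Lam v k) a} ≤
      (4 * k + 1) ^ d * Pr (gw p g) U {T | Hit T a} := by
  classical
  have hw := wt_gw (d := d) h0 h1 g0 g1
  have step : ∀ v ∈ W, p ^ ((2 * k + 1) ^ d * (2 * k + 1) ^ d) *
      Pr (gw p g) U {T | Pre (ed T) (gr T) (Lam v k) a} ≤
      Ex (gw p g) U (fun T => ind (Pre (ed T) (gr T) (Lam v k) a ∧ Opn (ed T) (Lam v k))) := by
    intro v hv
    have e1 := Pr_indepS (gw p g) U (disjoint_compl_left (a := inC (Lam v k)))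
      (dp_pre (Lam v k) a) (dp_opn (Lam v k))
    rw [Pr_opn (hW v hv)] at e1
    have e2 : p ^ ((2 * k + 1) ^ d * (2 * k + 1) ^ d) ≤ p ^ (Ein (Lam v k)).card := by
      refine pow_le_pow_of_le_one h0 h1 ?_
      have := card_Ein_le (Lam v k)
      rwa [card_Lam] at this
    have e3 := Ex_ind (gw p g) U ({T | Pre (ed T) (gr T) (Lam v k) a} ∩
      {T | Opn (ed T) (Lam v k)})
    refine le_trans ?_ (le_of_eq e3.symm)
    rw [e1, mul_comm]
    exact mul_le_mul_of_nonneg_left e2 (Pr_nonneg hw U _)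
  rw [mul_sum]
  refine (sum_le_sum step).trans ?_
  rw [← Ex_sum, ← Ex_ind, ← Ex_mul]
  apply Ex_mono hw
  intro T
  have e4 : ∑ v ∈ W, ind (Pre (ed T) (gr T) (Lam v k) a ∧ Opn (ed T) (Lam v k)) =
      ((W.filter fun v => Pre (ed T) (gr T) (Lam v k) a ∧ Opn (ed T) (Lam v k)).card : ℝ) := by
    rw [Finset.card_filter]
    push_cast
    apply sum_congr rfl
    intro v _
    by_cases h : Pre (ed T) (gr T) (Lam v k) a ∧ Opn (ed T) (Lam v k)
    · rw [ind_true h, if_pos h]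
    · rw [ind_false h, if_neg h]
  rw [e4]
  set W' := W.filter fun v => Pre (ed T) (gr T) (Lam v k) a ∧ Opn (ed T) (Lam v k) with hW'
  rcases W'.eq_empty_or_nonempty with h2 | ⟨v, hv⟩
  · rw [h2, card_empty, Nat.cast_zero]
    exact mul_nonneg (by positivity) (ind_nonneg _)
  · have h3 := (mem_filter.mp hv).2
    obtain ⟨y, hy, hay⟩ := good_hit h3.1 h3.2
    have h4 : Hit T a := ⟨y, hy, hay⟩
    rw [ind_true (P := T ∈ {T : Set (Gh d) | Hit T a}) h4, mul_one]
    have h5 := good_card (S := ed T) (g := gr T) (k := k) (a := a) W' fun v hv =>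
      (mem_filter.mp hv).2
    exact_mod_cast h5

end Pool.Agent.Lib.MP_06caae_pr
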