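import Pool.Agent.Lib.MP_06caae_pr.GhLow
import Pool.Agent.Lib.MP_06caae_pr.GhBox

/-!
# Green vertices in large boxes
-/

open Finset SimpleGraph
open Pool.Agent.Lib.MP_566bac_pr.Zd

namespace Pool.Agent.Lib.MP_06caae_pr

variable {d : ℕ} {p g : ℝ}

/-- the bijection of the coordinates given by a bijection of the vertices -/
def ghEquiv (φ : V d ≃ V d) : Gh d ≃ Gh d := Equiv.sumCongr (edgeEquiv φ) φ

lemma hit_pull {φ : V d ≃ V d} (hφ : IsAuto φ) (T : Set (Gh d)) (x : V d) :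
    Hit (ghEquiv φ ⁻¹' T) x ↔ Hit T (φ x) := by
  have h1 : ed (ghEquiv φ ⁻¹' T) = pull φ (ed T) := rfl
  constructor
  · rintro ⟨y, hy, hc⟩
    rw [h1, con_pull hφ] at hc
    exact ⟨φ y, hy, hc⟩
  · rintro ⟨y, hy, hc⟩
    refine ⟨φ.symm y, ?_, ?_⟩
    · change φ (φ.symm y) ∈ gr T
      rw [φ.apply_symm_apply]
      exact hy
    · rw [h1, con_pull hφ, φ.apply_symm_apply]
      exact hc

lemma Pr_hit_auto {φ : V d ≃ V d} (hφ : IsAuto φ) (U : Finset (Gh d)) (x : V d) :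
    Pr (gw p g) (U.map (ghEquiv φ).toEmbedding) {T | Hit T (φ x)} =
      Pr (gw p g) U {T | Hit T x} := by
  have h := Ex_map (ghEquiv φ) (gw p g) U (fun T => ind (T ∈ {T | Hit T x}))
  have hw : (fun i => gw p g (ghEquiv φ i)) = (gw p g : Gh d → ℝ) := by
    ext i
    rcases i with e | v <;> rfl
  rw [hw, Ex_ind] at h
  rw [← h, ← Ex_ind]
  congr 1
  ext T
  have := hit_pull hφ T x
  simp only [Set.mem_ofPred_eq, this]

/-- the event depends on the lattice edges and the vertices -/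
lemma dp_hit (x : V d) : Dp {q : Gh d | ∀ e, q = Sum.inl e → e ∈ (lattice d).edgeSet}
    {T : Set (Gh d) | Hit T x} := by
  have key : ∀ T T' : Set (Gh d), (∀ q ∈ {q : Gh d | ∀ e, q = Sum.inl e →
      e ∈ (lattice d).edgeSet}, (q ∈ T ↔ q ∈ T')) → Hit T x → Hit T' x := by
    rintro T T' h ⟨y, hy, hc⟩
    refine ⟨y, (h (Sum.inr y) (fun e he => by cases he)).mp hy, ?_⟩
    refine con_induct hc (fun b => Con (ed T') x b) (Con.refl _ _) ?_
    intro a b ha hab hs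
    refine ha.trans (Con.step hab ((h (Sum.inl s(a, b)) ?_).mp hs))
    intro e he
    cases he
    exact hab
  intro T T' h
  exact ⟨key T T' h, key T' T fun e he => (h e he).symm⟩

/-- the large volumes -/
noncomputable def UN (d N : ℕ) : Finset (Gh d) := vol2 (Ein (Lam 0 N)) (Lam 0 N)

/-- the probability of a green vertex in the cluster of the origin in a large box -/
noncomputable def MN (d : ℕ) (p g : ℝ) (N : ℕ) : ℝ := Pr (gw p g) (UN d N) {T | Hit T 0}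

/-- the limit -/
noncomputable def MG (d : ℕ) (p g : ℝ) : ℝ := ⨆ N : ℕ, MN d p g N

lemma UN_mono {m n : ℕ} (h : m ≤ n) : UN d m ⊆ UN d n :=
  vol2_mono (Ein_mono (Lam_mono 0 h)) (Lam_mono 0 h)

lemma MN_mono (h0 : 0 ≤ p) (h1 : p ≤ 1) (g0 : 0 ≤ g) (g1 : g ≤ 1) {m n : ℕ} (h : m ≤ n) :
    MN d p g m ≤ MN d p g n := Pr_mono_E (wt_gw h0 h1 g0 g1) (UN_mono h) (inc_Hit 0)

lemma MN_nonneg (h0 : 0 ≤ p) (h1 : p ≤ 1) (g0 : 0 ≤ g) (g1 : g ≤ 1) (n : ℕ) :
    0 ≤ MN d p g n := Pr_nonneg (wt_gw h0 h1 g0 g1) _ _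

lemma MN_le_one (h0 : 0 ≤ p) (h1 : p ≤ 1) (g0 : 0 ≤ g) (g1 : g ≤ 1) (n : ℕ) :
    MN d p g n ≤ 1 := Pr_le_one (wt_gw h0 h1 g0 g1) _ _

lemma MN_le_MG (h0 : 0 ≤ p) (h1 : p ≤ 1) (g0 : 0 ≤ g) (g1 : g ≤ 1) (n : ℕ) :
    MN d p g n ≤ MG d p g :=
  le_ciSup (f := fun N => MN d p g N)
    ⟨1, by rintro _ ⟨N, rfl⟩; exact MN_le_one h0 h1 g0 g1 N⟩ n

lemma MG_le_one (h0 : 0 ≤ p) (h1 : p ≤ 1) (g0 : 0 ≤ g) (g1 : g ≤ 1) : MG d p g ≤ 1 :=
  ciSup_le fun n => MN_le_one h0 h1 g0 g1 n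

lemma MG_nonneg (h0 : 0 ≤ p) (h1 : p ≤ 1) (g0 : 0 ≤ g) (g1 : g ≤ 1) : 0 ≤ MG d p g :=
  (MN_nonneg h0 h1 g0 g1 0).trans (MN_le_MG h0 h1 g0 g1 0)

lemma MG_approx {ε : ℝ} (h0 : 0 ≤ p) (h1 : p ≤ 1) (g0 : 0 ≤ g) (g1 : g ≤ 1) (hε : 0 < ε) :
    ∃ N, ∀ n ≥ N, MG d p g - ε ≤ MN d p g n := by
  obtain ⟨N, hN⟩ := exists_lt_of_lt_ciSup
    (show MG d p g - ε < ⨆ N : ℕ, MN d p g N by change MG d p g - ε < MG d p g; linarith)
  exact ⟨N, fun n hn => hN.le.trans (MN_mono h0 h1 g0 g1 hn)⟩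

/-- the hypothesis of the previous files -/
theorem hit_le_MG (h0 : 0 ≤ p) (h1 : p ≤ 1) (g0 : 0 ≤ g) (g1 : g ≤ 1) (U : Finset (Gh d))
    (x : V d) : Pr (gw p g) U {T | Hit T x} ≤ MG d p g := by
  classical
  have hw := wt_gw (d := d) h0 h1 g0 g1
  have h2 := Pr_hit_auto (p := p) (g := g) (isAuto_transE (-x)) U x
  have h3 : transE (-x) x = 0 := by rw [transE_apply]; abel
  rw [h3] at h2
  rw [← h2]
  set U' := U.map (ghEquiv (transE (-x))).toEmbedding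
  -- a box which contains everything
  obtain ⟨N1, hN1⟩ := exists_box U'.toLeft (0 : V d)
  set N2 := U'.toRight.sup fun v => dst v 0 with hN2
  set N := max N1 N2 with hN
  refine le_trans ?_ (MN_le_MG h0 h1 g0 g1 N)
  refine (Pr_mono_E hw (subset_union_left (s₂ := UN d N)) (inc_Hit 0)).trans (le_of_eq ?_)
  rw [MN, ← Ex_ind, ← Ex_ind]
  refine Ex_eq_of_dp subset_union_right (dpF_ind (dp_hit 0)) ?_
  intro q hq hl
  rcases Finset.mem_union.mp hq with h | h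
  · rcases q with e | v
    · rw [UN, mem_vol2_inl]
      exact Ein_mono (Lam_mono 0 (le_max_left _ _))
        (hN1 e (Finset.mem_toLeft.mpr h) (hl e rfl))
    · rw [UN, mem_vol2_inr, mem_Lam]
      have : dst v 0 ≤ N2 := Finset.le_sup (f := fun v => dst v 0) (Finset.mem_toRight.mpr h)
      exact this.trans (le_max_right _ _)
  · exact h

lemma dst_transE (x c : V d) : dst (transE x c) x = dst c 0 := by
  unfold dst
  congr 1
  ext i
  rw [transE_apply]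
  simp

/-- every vertex deep inside the box sees almost the limit -/
theorem MN_le_hit (h0 : 0 ≤ p) (h1 : p ≤ 1) (g0 : 0 ≤ g) (g1 : g ≤ 1) {n N : ℕ} {x : V d}
    (h : n + dst x 0 ≤ N) : MN d p g n ≤ Pr (gw p g) (UN d N) {T | Hit T x} := by
  have h2 := Pr_hit_auto (p := p) (g := g) (isAuto_transE x) (UN d n) 0
  have h3 : transE x 0 = x := by rw [transE_apply, zero_add]
  rw [h3] at h2
  rw [MN, ← h2]
  refine Pr_mono_E (wt_gw h0 h1 g0 g1) ?_ (inc_Hit x)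
  have key : ∀ c : V d, c ∈ (Lam 0 n : Finset (V d)) → transE x c ∈ (Lam 0 N : Finset (V d)) := by
    intro c hc
    rw [mem_Lam] at hc ⊢
    have h5 := dst_tri (transE x c) x 0
    have h6 := dst_transE x c
    omega
  intro q hq
  obtain ⟨q', hq', rfl⟩ := Finset.mem_map.mp hq
  rcases q' with e | v
  · rw [UN, mem_vol2_inl] at hq'
    change (Sum.inl (Sym2.map (transE x) e) : Gh d) ∈ UN d N
    rw [UN, mem_vol2_inl]
    induction e using Sym2.ind with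
    | _ a b =>
      rw [mem_Ein] at hq'
      rw [Sym2.map_mk, mem_Ein, isAuto_transE x a b]
      exact ⟨key a hq'.1, key b hq'.2.1, hq'.2.2⟩
  · rw [UN, mem_vol2_inr] at hq'
    change (Sum.inr (transE x v) : Gh d) ∈ UN d N
    rw [UN, mem_vol2_inr]
    exact key v hq'

/-! ### the green vertices integrated out -/

/-- the expectation of the size of the cluster, free of green vertices -/
noncomputable def XN (d : ℕ) (p g : ℝ) (N : ℕ) : ℝ :=
  ∑ z ∈ (Lam 0 N : Finset (V d)), Pr (gw p g) (UN d N) {T | Con (ed T) z 0 ∧ ¬ Hit T z}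

lemma XN_nonneg (h0 : 0 ≤ p) (h1 : p ≤ 1) (g0 : 0 ≤ g) (g1 : g ≤ 1) (n : ℕ) :
    0 ≤ XN d p g n := sum_nonneg fun _ _ => Pr_nonneg (wt_gw h0 h1 g0 g1) _ _

lemma MN_eq (N : ℕ) : MN d p g N =
    1 - EE p (Ein (Lam 0 N)) (fun S => (1 - g) ^ cc (Lam (0 : V d) N) S 0) := by
  have h := Ex_free (p := p) (g := g) (Ein (Lam 0 N)) (Lam (0 : V d) N) 0 (fun _ => 1)
  simp only [one_mul] at h
  rw [← h, MN, UN]
  have h2 := Ex_ind (gw p g) (vol2 (Ein (Lam 0 N)) (Lam (0 : V d) N)) {T | Hit T 0}ᶜ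
  have h3 : Ex (gw p g) (vol2 (Ein (Lam 0 N)) (Lam (0 : V d) N)) (fun T => ind (¬ Hit T 0)) =
      Pr (gw p g) (vol2 (Ein (Lam 0 N)) (Lam (0 : V d) N)) {T | Hit T 0}ᶜ := h2
  rw [h3, Pr_compl]
  ring

lemma sum_ind_cc (L : Finset (V d)) (S : Set (Ed d)) (x : V d) :
    ∑ z ∈ L, ind (Con S x z) = (cc L S x : ℝ) := by
  classical
  unfold cc
  rw [Finset.card_filter]
  push_cast
  apply sum_congr rfl
  intro z _
  by_cases h : Con S x z
  · rw [ind_true h, if_pos h]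
  · rw [ind_false h, if_neg h]

lemma XN_eq (N : ℕ) : XN d p g N =
    EE p (Ein (Lam 0 N)) (fun S => (cc (Lam (0 : V d) N) S 0 : ℝ) *
      (1 - g) ^ cc (Lam (0 : V d) N) S 0) := by
  have h := Ex_free (p := p) (g := g) (Ein (Lam 0 N)) (Lam (0 : V d) N) 0
    (fun S => (cc (Lam (0 : V d) N) S 0 : ℝ))
  rw [← h, XN, UN]
  have h2 : ∀ T : Set (Gh d), (cc (Lam (0 : V d) N) (ed T) 0 : ℝ) * ind (¬ Hit T 0) =
      ∑ z ∈ (Lam 0 N : Finset (V d)), ind (T ∈ {T | Con (ed T) z 0 ∧ ¬ Hit T z}) := by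
    intro T
    rw [← sum_ind_cc, sum_mul]
    apply sum_congr rfl
    intro z _
    by_cases h3 : Con (ed T) z 0
    · rw [ind_true h3.symm, one_mul]
      have h4 := hit_congr h3
      by_cases h5 : Hit T 0
      · rw [ind_false fun h => h h5, ind_false]
        exact fun h => h.2 (h4.mpr h5)
      · rw [ind_true h5, ind_true]
        exact ⟨h3, fun h => h5 (h4.mp h)⟩
    · rw [ind_false (P := Con (ed T) 0 z) fun h => h3 h.symm, zero_mul, ind_false]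
      exact fun h => h3 h.1
  simp only [h2]
  rw [Ex_sum]
  apply sum_congr rfl
  intro z _
  rw [Ex_ind]

end Pool.Agent.Lib.MP_06caae_pr
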