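import Pool.Agent.Lib.MP_06caae_pr.GhDefs

/-!
# Disjoint occurrence with green vertices
-/

open Finset SimpleGraph
open Pool.Agent.Lib.MP_566bac_pr.Zd

namespace Pool.Agent.Lib.MP_06caae_pr

variable {d : ℕ} {p g : ℝ}

/-- the coordinates which touch `A` -/
def tchG (A : Set (V d)) : Set (Gh d) := {q | (∃ e ∈ tch A, q = Sum.inl e) ∨ ∃ v ∈ A, q = Sum.inr v}

lemma inl_mem_tchG {A : Set (V d)} {e : Ed d} : (Sum.inl e : Gh d) ∈ tchG A ↔ e ∈ tch A := by
  constructor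
  · rintro (⟨f, hf, h⟩ | ⟨v, _, h⟩)
    · cases h
      exact hf
    · cases h
  · intro h
    exact Or.inl ⟨e, h, rfl⟩

lemma inr_mem_tchG {A : Set (V d)} {v : V d} : (Sum.inr v : Gh d) ∈ tchG A ↔ v ∈ A := by
  constructor
  · rintro (⟨f, _, h⟩ | ⟨u, hu, h⟩)
    · cases h
    · cases h
      exact hu
  · intro h
    exact Or.inr ⟨v, h, rfl⟩

lemma ed_sdiff (T : Set (Gh d)) (A : Set (V d)) : ed (T \ tchG A) = ed T \ tch A := by
  ext e
  constructor
  · rintro ⟨h1, h2⟩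
    exact ⟨h1, fun h => h2 (inl_mem_tchG.mpr h)⟩
  · rintro ⟨h1, h2⟩
    exact ⟨h1, fun h => h2 (inl_mem_tchG.mp h)⟩

lemma gr_sdiff (T : Set (Gh d)) (A : Set (V d)) : gr (T \ tchG A) = gr T \ A := by
  ext v
  constructor
  · rintro ⟨h1, h2⟩
    exact ⟨h1, fun h => h2 (inr_mem_tchG.mpr h)⟩
  · rintro ⟨h1, h2⟩
    exact ⟨h1, fun h => h2 (inr_mem_tchG.mp h)⟩

lemma ed_inl (I : Set (Ed d)) (X : Set (Gh d)) : I ⊆ ed (Sum.inl '' I ∪ X) :=
  fun e he => Or.inl ⟨e, he, rfl⟩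

lemma ed_inl' (I : Set (Ed d)) : ed (Sum.inl '' I : Set (Gh d)) = I := by
  ext e
  constructor
  · rintro ⟨f, hf, h⟩
    cases h
    exact hf
  · intro h
    exact ⟨e, h, rfl⟩

/-- disjoint occurrence of events about the edges -/
lemma box_ed {T : Set (Gh d)} {A B : Set (Set (Ed d))} (h : ed T ∈ Box A B) :
    T ∈ Box {T : Set (Gh d) | ed T ∈ A} {T | ed T ∈ B} := by
  obtain ⟨I, J, h1, h2, h3, h4, h5⟩ := h
  refine ⟨Sum.inl '' I, Sum.inl '' J, ?_, ?_, ?_, ?_, ?_⟩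
  · rintro _ ⟨e, he, rfl⟩
    exact h1 he
  · rintro _ ⟨e, he, rfl⟩
    exact h2 he
  · rw [Set.disjoint_left]
    rintro _ ⟨e, he, rfl⟩ ⟨f, hf, h⟩
    cases h
    exact Set.disjoint_left.mp h3 he hf
  · rw [Set.mem_ofPred_eq, ed_inl']
    exact h4
  · rw [Set.mem_ofPred_eq, ed_inl']
    exact h5

/-- (I) the connection to green uses `A` or not -/
lemma hit_cases {T : Set (Gh d)} {x : V d} (h : Hit T x) (A : Set (V d)) :
    Hit (T \ tchG A) x ∨ ∃ b ∈ A, Con (ed T) x b ∧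
      T ∈ Box {T : Set (Gh d) | Con (ed T) x b} {T | Hit T b} := by
  classical
  obtain ⟨y, hy, hxy⟩ := h
  obtain ⟨r, hr⟩ := con_iff.mp hxy
  obtain ⟨w, hw, _⟩ := exists_path hr
  by_cases hA : ∃ b ∈ w.support, b ∈ A
  · right
    obtain ⟨b, hb, hbA⟩ := hA
    have hd : ∀ e ∈ (w.takeUntil b hb).edges, e ∉ (w.dropUntil b hb).edges :=
      path_split_disj hw (Walk.take_spec w hb)
    refine ⟨b, hbA, ⟨w.takeUntil b hb⟩, Sum.inl '' {e | e ∈ (w.takeUntil b hb).edges},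
      Sum.inl '' {e | e ∈ (w.dropUntil b hb).edges} ∪ {Sum.inr y}, ?_, ?_, ?_, ?_, ?_⟩
    · rintro _ ⟨e, he, rfl⟩
      exact edges_mem _ he
    · rintro q (⟨e, he, rfl⟩ | hq)
      · exact edges_mem _ he
      · rw [Set.mem_singleton_iff] at hq
        subst hq
        exact hy
    · rw [Set.disjoint_left]
      rintro _ ⟨e, he, rfl⟩ (⟨f, hf, h⟩ | h)
      · cases h
        exact hd e he hf
      · cases h
    · rw [Set.mem_ofPred_eq, ed_inl']
      exact (rch_edges _).con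
    · refine ⟨y, Or.inr rfl, ?_⟩
      exact (rch_edges _).con.mono (ed_inl _ _)
  · left
    push Not at hA
    refine ⟨y, ?_, ?_⟩
    · rw [gr_sdiff]
      exact ⟨hy, hA y w.end_mem_support⟩
    · rw [ed_sdiff]
      refine (rch_edges w).con.mono ?_
      intro e he
      refine ⟨edges_mem w he, ?_⟩
      rintro ⟨z, hz, hze⟩
      rw [Set.mem_ofPred_eq] at he
      induction e using Sym2.ind with
      | _ a b =>
        rw [Sym2.mem_iff] at hze
        rcases hze with rfl | rfl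
        · exact hA z (w.fst_mem_support_of_mem_edges he) hz
        · exact hA z (w.snd_mem_support_of_mem_edges he) hz

/-- (II) a tree with one green leaf -/
lemma box_con_hit {T : Set (Gh d)} {x b : V d} (h1 : Con (ed T) x b) (h2 : Hit T x) :
    ∃ z, Con (ed T) x z ∧ T ∈ Box (Box {T : Set (Gh d) | Con (ed T) x z} {T | Con (ed T) z b})
      {T | Hit T z} := by
  classical
  obtain ⟨r, hr⟩ := con_iff.mp h1
  obtain ⟨p, hp, _⟩ := exists_path hr
  obtain ⟨y, hy, ⟨q⟩⟩ := h2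
  rcases walk_last (X := {v | v ∈ p.support}) q with h3 | ⟨u, h3, q2, _, _, h6⟩
  · exact absurd p.start_mem_support (h3 x q.start_mem_support)
  have hd : ∀ e ∈ (p.takeUntil u h3).edges, e ∉ (p.dropUntil u h3).edges :=
    path_split_disj hp (Walk.take_spec p h3)
  have hsub : ∀ e, (e ∈ (p.takeUntil u h3).edges ∨ e ∈ (p.dropUntil u h3).edges) →
      e ∈ p.edges := by
    intro e he
    rw [← Walk.take_spec p h3, Walk.edges_append, List.mem_append]
    exact he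
  refine ⟨u, ⟨p.takeUntil u h3⟩,
    Sum.inl '' {e | e ∈ (p.takeUntil u h3).edges ∨ e ∈ (p.dropUntil u h3).edges},
    Sum.inl '' {e | e ∈ q2.edges} ∪ {Sum.inr y}, ?_, ?_, ?_, ?_, ?_⟩
  · rintro _ ⟨e, he, rfl⟩
    exact edges_mem p (hsub e he)
  · rintro s (⟨e, he, rfl⟩ | hs)
    · exact edges_mem _ he
    · rw [Set.mem_singleton_iff] at hs
      subst hs
      exact hy
  · rw [Set.disjoint_left]
    rintro _ ⟨e, he, rfl⟩ (⟨f, hf, h⟩ | h)
    · cases h
      obtain ⟨v, hv, hve⟩ := h6 e hf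
      apply hv
      have hep := hsub e he
      induction e using Sym2.ind with
      | _ b c =>
        rw [Sym2.mem_iff] at hve
        rcases hve with rfl | rfl
        · exact p.fst_mem_support_of_mem_edges hep
        · exact p.snd_mem_support_of_mem_edges hep
    · cases h
  · refine ⟨Sum.inl '' {e | e ∈ (p.takeUntil u h3).edges},
      Sum.inl '' {e | e ∈ (p.dropUntil u h3).edges}, ?_, ?_, ?_, ?_, ?_⟩
    · rintro _ ⟨e, he, rfl⟩
      exact ⟨e, Or.inl he, rfl⟩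
    · rintro _ ⟨e, he, rfl⟩
      exact ⟨e, Or.inr he, rfl⟩
    · rw [Set.disjoint_left]
      rintro _ ⟨e, he, rfl⟩ ⟨f, hf, h⟩
      cases h
      exact hd e he hf
    · rw [Set.mem_ofPred_eq, ed_inl']
      exact (rch_edges _).con
    · rw [Set.mem_ofPred_eq, ed_inl']
      exact (rch_edges _).con
  · refine ⟨y, Or.inr rfl, ?_⟩
    exact (rch_edges _).con.mono (ed_inl _ _)

/-- (III) a tree with three leaves -/
lemma box_con_con {T : Set (Gh d)} {x a w : V d} (h1 : Con (ed T) x a) (h2 : Con (ed T) x w) :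
    ∃ z, Con (ed T) x z ∧ T ∈ Box (Box {T : Set (Gh d) | Con (ed T) x z} {T | Con (ed T) z w})
      {T | Con (ed T) z a} := by
  obtain ⟨r, hr⟩ := con_iff.mp h2
  obtain ⟨m, hm⟩ := con_iff.mp h1
  obtain ⟨u, i, j, _, h3⟩ := box_tree hr hm
  have h4 := box_ed h3
  refine ⟨u, ?_, box_mono ?_ (fun T hT => Rch.con hT) h4⟩
  · obtain ⟨I, _, hI, _, _, ⟨A, _, hA, _, _, hA', _⟩, _⟩ := h3
    exact (hA'.mono (hA.trans hI) le_rfl).con
  · intro T hT
    exact box_mono (fun T hT => Rch.con hT) (fun T hT => Rch.con hT) (box_ed hT)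

/-! ### probabilities -/

/-- clusters stay in the volume -/
lemma con_mem {L : Finset (V d)} {S : Set (Ed d)} (hS : S ⊆ (Ein L : Set (Ed d))) {x y : V d}
    (hx : x ∈ L) (h : Con S x y) : y ∈ L := by
  refine con_induct h (fun b => b ∈ L) hx ?_
  intro a b _ _ hs
  exact (mem_Ein.mp (hS hs)).2.1

lemma ed_sub {L : Finset (V d)} {U ω : Finset (Gh d)} (hU : U ⊆ vol2 (Ein L) L) (hω : ω ⊆ U) :
    ed (ω : Set (Gh d)) ⊆ (Ein L : Set (Ed d)) := by
  intro e he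
  exact mem_vol2_inl.mp (hU (hω he))

/-- connections in every volume -/
lemma Pr_con_le (h0 : 0 ≤ p) (h1 : p ≤ 1) (g0 : 0 ≤ g) (g1 : g ≤ 1) (U : Finset (Gh d))
    (x y : V d) : Pr (gw p g) U {T | Con (ed T) x y} ≤ tau p (y - x) := by
  classical
  set E : Finset (Ed d) := U.toLeft with hE
  have hU : U ⊆ vol2 E U.toRight := by
    intro q hq
    rcases q with e | v
    · rw [mem_vol2_inl, hE, Finset.mem_toLeft]
      exact hq
    · rw [mem_vol2_inr, Finset.mem_toRight]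
      exact hq
  refine (Pr_mono_E (wt_gw h0 h1 g0 g1) hU (inc_ed (inc_Con x y))).trans ?_
  have := Pr_ed (p := p) (g := g) E U.toRight {S : Set (Ed d) | Con S x y}
  exact this.le.trans (PE_le_tau h0 h1 E x y)

variable {M : ℝ}

/-- (I) -/
theorem hit_off_ge (h0 : 0 ≤ p) (h1 : p ≤ 1) (g0 : 0 ≤ g) (g1 : g ≤ 1) {L : Finset (V d)}
    {U : Finset (Gh d)} (hU : U ⊆ vol2 (Ein L) L)
    (hM : ∀ (U' : Finset (Gh d)) (x : V d), Pr (gw p g) U' {T | Hit T x} ≤ M)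
    {x : V d} (hx : x ∈ L) (A : Set (V d)) :
    Pr (gw p g) U {T | Hit T x} - M * ∑ b ∈ L, ind (b ∈ A) * tau p (b - x) ≤
      Pr (gw p g) U {T | Hit (T \ tchG A) x} := by
  classical
  have hw := wt_gw (d := d) h0 h1 g0 g1
  have h2 : Pr (gw p g) U {T | Hit T x} ≤ Pr (gw p g) U ({T | Hit (T \ tchG A) x} ∪
      ⋃ b ∈ L.filter (fun b => b ∈ A), Box {T : Set (Gh d) | Con (ed T) x b} {T | Hit T b}) := by
    refine Pr_mono' hw fun ω hω hT => ?_
    rcases hit_cases hT A with h | ⟨b, hb, hc, hB⟩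
    · exact Or.inl h
    · right
      rw [Set.mem_iUnion₂]
      exact ⟨b, mem_filter.mpr ⟨con_mem (ed_sub hU hω) hx hc, hb⟩, hB⟩
  have h3 := (h2.trans (Pr_union_le hw U _ _)).trans
    (add_le_add_right (Pr_biUnion_le hw U (L.filter fun b => b ∈ A) _) _)
  have h4 : ∑ b ∈ L.filter (fun b => b ∈ A), Pr (gw p g) U
      (Box {T : Set (Gh d) | Con (ed T) x b} {T | Hit T b}) ≤
      ∑ b ∈ L.filter (fun b => b ∈ A), tau p (b - x) * M := by
    apply sum_le_sum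
    intro b _
    refine (bk hw U (inc_ed (inc_Con x b)) (inc_Hit b)).trans ?_
    exact mul_le_mul (Pr_con_le h0 h1 g0 g1 U x b) (hM U b) (Pr_nonneg hw _ _)
      (tau_nonneg h0 h1 _)
  have h5 : ∑ b ∈ L.filter (fun b => b ∈ A), tau p (b - x) * M =
      M * ∑ b ∈ L, ind (b ∈ A) * tau p (b - x) := by
    rw [sum_filter, mul_sum]
    apply sum_congr rfl
    intro b _
    unfold ind
    split_ifs <;> ring
  linarith

/-- (II) -/
theorem con_hit_le (h0 : 0 ≤ p) (h1 : p ≤ 1) (g0 : 0 ≤ g) (g1 : g ≤ 1) {L : Finset (V d)}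
    {U : Finset (Gh d)} (hU : U ⊆ vol2 (Ein L) L)
    (hM : ∀ (U' : Finset (Gh d)) (x : V d), Pr (gw p g) U' {T | Hit T x} ≤ M)
    {x : V d} (hx : x ∈ L) (b : V d) :
    Pr (gw p g) U {T | Con (ed T) x b ∧ Hit T x} ≤
      M * ∑ z ∈ L, tau p (z - x) * tau p (b - z) := by
  classical
  have hw := wt_gw (d := d) h0 h1 g0 g1
  have h2 : Pr (gw p g) U {T | Con (ed T) x b ∧ Hit T x} ≤ Pr (gw p g) U
      (⋃ z ∈ L, Box (Box {T : Set (Gh d) | Con (ed T) x z} {T | Con (ed T) z b})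
        {T | Hit T z}) := by
    refine Pr_mono' hw fun ω hω hT => ?_
    obtain ⟨z, hz, hB⟩ := box_con_hit hT.1 hT.2
    rw [Set.mem_iUnion₂]
    exact ⟨z, con_mem (ed_sub hU hω) hx hz, hB⟩
  refine (h2.trans (Pr_biUnion_le hw U L _)).trans ?_
  rw [mul_sum]
  apply sum_le_sum
  intro z _
  refine (bk hw U (box_inc _ _) (inc_Hit z)).trans ?_
  rw [mul_comm M]
  apply mul_le_mul _ (hM U z) (Pr_nonneg hw _ _)
    (mul_nonneg (tau_nonneg h0 h1 _) (tau_nonneg h0 h1 _))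
  refine (bk hw U (inc_ed (inc_Con x z)) (inc_ed (inc_Con z b))).trans ?_
  exact mul_le_mul (Pr_con_le h0 h1 g0 g1 U x z) (Pr_con_le h0 h1 g0 g1 U z b)
    (Pr_nonneg hw _ _) (tau_nonneg h0 h1 _)

/-- (III) -/
theorem con_con_free_le (h0 : 0 ≤ p) (h1 : p ≤ 1) (g0 : 0 ≤ g) (g1 : g ≤ 1) {L : Finset (V d)}
    {U : Finset (Gh d)} (hU : U ⊆ vol2 (Ein L) L) {x : V d} (hx : x ∈ L) (a w : V d) :
    Pr (gw p g) U {T | Con (ed T) x a ∧ Con (ed T) x w ∧ ¬ Hit T x} ≤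
      ∑ z ∈ L, tau p (z - x) * tau p (w - z) *
        Pr (gw p g) U {T | Con (ed T) z a ∧ ¬ Hit T z} := by
  classical
  have hw := wt_gw (d := d) h0 h1 g0 g1
  have h2 : Pr (gw p g) U {T | Con (ed T) x a ∧ Con (ed T) x w ∧ ¬ Hit T x} ≤ Pr (gw p g) U
      (⋃ z ∈ L, (Box (Box {T : Set (Gh d) | Con (ed T) x z} {T | Con (ed T) z w})
        {T | Con (ed T) z a} ∩ {T | ¬ Hit T z})) := by
    refine Pr_mono' hw fun ω hω hT => ?_
    obtain ⟨z, hz, hB⟩ := box_con_con hT.1 hT.2.1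
    rw [Set.mem_iUnion₂]
    refine ⟨z, con_mem (ed_sub hU hω) hx hz, hB, ?_⟩
    intro h3
    exact hT.2.2 (hit_of_con hz h3)
  refine (h2.trans (Pr_biUnion_le hw U L _)).trans ?_
  apply sum_le_sum
  intro z _
  refine (bk_dec hw U (box_inc _ _) (inc_ed (inc_Con z a)) ?_).trans ?_
  · intro T T' hTT h3 h4
    apply h3
    intro h5
    exact h4 (inc_Hit z T T' hTT h5)
  · apply mul_le_mul _ le_rfl (Pr_nonneg hw _ _)
      (mul_nonneg (tau_nonneg h0 h1 _) (tau_nonneg h0 h1 _))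
    refine (bk hw U (inc_ed (inc_Con x z)) (inc_ed (inc_Con z w))).trans ?_
    exact mul_le_mul (Pr_con_le h0 h1 g0 g1 U x z) (Pr_con_le h0 h1 g0 g1 U z w)
      (Pr_nonneg hw _ _) (tau_nonneg h0 h1 _)

end Pool.Agent.Lib.MP_06caae_pr
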