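import Pool.Agent.Lib.MP_06caae_pr.GhMult
import Pool.Agent.Lib.MP_06caae_pr.Dec

/-!
# Percolation with green vertices

The coordinates are the edges and the vertices; every vertex is green with probability `g`.
-/

open Finset SimpleGraph
open Pool.Agent.Lib.MP_566bac_pr.Zd

namespace Pool.Agent.Lib.MP_06caae_pr

variable {d : ℕ} {p g : ℝ}

/-- edges and vertices -/
abbrev Gh (d : ℕ) : Type := Ed d ⊕ V d

/-- the open edges -/
def ed (T : Set (Gh d)) : Set (Ed d) := {e | Sum.inl e ∈ T}

/-- the green vertices -/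
def gr (T : Set (Gh d)) : Set (V d) := {v | Sum.inr v ∈ T}

/-- the weights -/
def gw (p g : ℝ) : Gh d → ℝ := Sum.elim (fun _ => p) (fun _ => g)

/-- the cluster of `x` contains a green vertex -/
def Hit (T : Set (Gh d)) (x : V d) : Prop := ∃ y ∈ gr T, Con (ed T) x y

lemma wt_gw (h0 : 0 ≤ p) (h1 : p ≤ 1) (g0 : 0 ≤ g) (g1 : g ≤ 1) : Wt (gw p g : Gh d → ℝ) := by
  rintro (e | v)
  · exact ⟨h0, h1⟩
  · exact ⟨g0, g1⟩

lemma ed_mono {T T' : Set (Gh d)} (h : T ⊆ T') : ed T ⊆ ed T' := fun _ he => h he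

lemma gr_mono {T T' : Set (Gh d)} (h : T ⊆ T') : gr T ⊆ gr T' := fun _ he => h he

lemma inc_Hit (x : V d) : Inc {T : Set (Gh d) | Hit T x} := by
  rintro T T' h ⟨y, hy, hc⟩
  exact ⟨y, gr_mono h hy, hc.mono (ed_mono h)⟩

lemma inc_ed {A : Set (Set (Ed d))} (hA : Inc A) : Inc {T : Set (Gh d) | ed T ∈ A} :=
  fun _ _ h h1 => hA _ _ (ed_mono h) h1

lemma hit_of_con {T : Set (Gh d)} {x y : V d} (h : Con (ed T) x y) (hy : Hit T y) : Hit T x := by
  obtain ⟨z, hz, hc⟩ := hy
  exact ⟨z, hz, h.trans hc⟩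

lemma hit_congr {T : Set (Gh d)} {x y : V d} (h : Con (ed T) x y) : Hit T x ↔ Hit T y :=
  ⟨hit_of_con h.symm, hit_of_con h⟩

/-- a volume: edges and vertices -/
noncomputable def vol2 (E : Finset (Ed d)) (L : Finset (V d)) : Finset (Gh d) :=
  E.map Function.Embedding.inl ∪ L.map Function.Embedding.inr

lemma mem_vol2_inl {E : Finset (Ed d)} {L : Finset (V d)} {e : Ed d} :
    (Sum.inl e : Gh d) ∈ vol2 E L ↔ e ∈ E := by
  simp [vol2]

lemma mem_vol2_inr {E : Finset (Ed d)} {L : Finset (V d)} {v : V d} :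
    (Sum.inr v : Gh d) ∈ vol2 E L ↔ v ∈ L := by
  simp [vol2]

lemma vol2_mono {E E' : Finset (Ed d)} {L L' : Finset (V d)} (hE : E ⊆ E') (hL : L ⊆ L') :
    vol2 E L ⊆ vol2 E' L' :=
  Finset.union_subset_union (Finset.map_subset_map.mpr hE) (Finset.map_subset_map.mpr hL)

/-- the parts of a configuration in `vol2` -/
lemma Ex_inl (E : Finset (Ed d)) (f : Set (Gh d) → ℝ) :
    Ex (gw p g) (E.map Function.Embedding.inl) f =
      Ex (fun _ => p) E (fun S => f (Sum.inl '' S)) := by
  unfold Ex
  symm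
  refine Finset.sum_nbij (fun ω => ω.map Function.Embedding.inl) ?_ ?_ ?_ ?_
  · intro ω hω
    rw [mem_powerset] at hω ⊢
    exact Finset.map_subset_map.mpr hω
  · intro ω _ ω' _ h
    exact Finset.map_injective _ h
  · intro ω hω
    rw [Finset.mem_coe, mem_powerset] at hω
    obtain ⟨u, hu, rfl⟩ := Finset.subset_map_iff.mp hω
    exact ⟨u, by simpa using hu, rfl⟩
  · intro ω _
    have h1 : wt (gw p g) (E.map Function.Embedding.inl) (ω.map Function.Embedding.inl) =
        wt (fun _ => p) E ω := by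
      rw [wt_eq, wt_eq, Finset.prod_map]
      have : E.map (Function.Embedding.inl : Ed d ↪ Gh d) \ ω.map Function.Embedding.inl =
          (E \ ω).map Function.Embedding.inl := by
        ext x
        rcases x with e | v
        · simp
        · simp
      rw [this, Finset.prod_map]
      rfl
    rw [h1]
    have h2 : ((ω.map Function.Embedding.inl : Finset (Gh d)) : Set (Gh d)) = Sum.inl '' (ω : Set (Ed d)) := by
      ext x
      simp
    rw [h2]

lemma Ex_inr (L : Finset (V d)) (f : Set (Gh d) → ℝ) :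
    Ex (gw p g) (L.map Function.Embedding.inr) f =
      Ex (fun _ => g) L (fun S => f (Sum.inr '' S)) := by
  unfold Ex
  symm
  refine Finset.sum_nbij (fun ω => ω.map Function.Embedding.inr) ?_ ?_ ?_ ?_
  · intro ω hω
    rw [mem_powerset] at hω ⊢
    exact Finset.map_subset_map.mpr hω
  · intro ω _ ω' _ h
    exact Finset.map_injective _ h
  · intro ω hω
    rw [Finset.mem_coe, mem_powerset] at hω
    obtain ⟨u, hu, rfl⟩ := Finset.subset_map_iff.mp hω
    exact ⟨u, by simpa using hu, rfl⟩
  · intro ω _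
    have h1 : wt (gw p g) (L.map Function.Embedding.inr) (ω.map Function.Embedding.inr) =
        wt (fun _ => g) L ω := by
      rw [wt_eq, wt_eq, Finset.prod_map]
      have : L.map (Function.Embedding.inr : V d ↪ Gh d) \ ω.map Function.Embedding.inr =
          (L \ ω).map Function.Embedding.inr := by
        ext x
        rcases x with e | v
        · simp
        · simp
      rw [this, Finset.prod_map]
      rfl
    rw [h1]
    have h2 : ((ω.map Function.Embedding.inr : Finset (Gh d)) : Set (Gh d)) = Sum.inr '' (ω : Set (V d)) := by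
      ext x
      simp
    rw [h2]

/-- first the edges, then the green vertices -/
theorem Ex_vol2 (E : Finset (Ed d)) (L : Finset (V d)) (f : Set (Ed d) → Set (V d) → ℝ) :
    Ex (gw p g) (vol2 E L) (fun T => f (ed T) (gr T)) =
      Ex (fun _ => p) E (fun S => Ex (fun _ => g) L (fun R => f S R)) := by
  have hd : Disjoint (E.map (Function.Embedding.inl : Ed d ↪ Gh d))
      (L.map Function.Embedding.inr) := by
    rw [Finset.disjoint_left]
    intro x hx hx'
    obtain ⟨e, _, rfl⟩ := Finset.mem_map.mp hx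
    obtain ⟨v, _, hv⟩ := Finset.mem_map.mp hx'
    simp at hv
  rw [vol2, Ex_union' hd, Ex_inl]
  apply Ex_congr
  intro ω hω
  rw [Ex_inr]
  apply Ex_congr
  intro η hη
  congr 1
  · ext e
    simp only [ed, Set.mem_ofPred_eq, Set.mem_union, Set.mem_inter_iff, Set.mem_image,
      Finset.mem_coe, Finset.mem_map, Function.Embedding.inl_apply, Function.Embedding.inr_apply]
    constructor
    · rintro (⟨⟨x, hx, hxe⟩, _⟩ | ⟨⟨x, hx, hxe⟩, _⟩)
      · cases hxe
        exact hx
      · cases hxe
    · intro he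
      exact Or.inl ⟨⟨e, he, rfl⟩, e, hω he, rfl⟩
  · ext v
    simp only [gr, Set.mem_ofPred_eq, Set.mem_union, Set.mem_inter_iff, Set.mem_image,
      Finset.mem_coe, Finset.mem_map, Function.Embedding.inl_apply, Function.Embedding.inr_apply]
    constructor
    · rintro (⟨⟨x, hx, hxe⟩, _⟩ | ⟨⟨x, hx, hxe⟩, _⟩)
      · cases hxe
      · cases hxe
        exact hx
    · intro he
      exact Or.inr ⟨⟨v, he, rfl⟩, v, hη he, rfl⟩

/-- events about the edges -/
lemma Pr_ed (E : Finset (Ed d)) (L : Finset (V d)) (A : Set (Set (Ed d))) :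
    Pr (gw p g) (vol2 E L) {T | ed T ∈ A} = PE p E A := by
  have h := Ex_vol2 (p := p) (g := g) E L (fun S _ => ind (S ∈ A))
  simp only [Ex_const] at h
  rw [Ex_ind] at h
  rw [PE, ← h, ← Ex_ind]
  rfl

open Classical in
/-- the number of vertices of the cluster in `L` -/
noncomputable def cc (L : Finset (V d)) (S : Set (Ed d)) (x : V d) : ℕ :=
  (L.filter fun y => Con S x y).card

open Classical in
/-- the probability that a set has no green vertex -/
lemma Pr_free (L : Finset (V d)) (C : Set (V d)) :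
    Pr (fun _ => g) L {R | ∀ y ∈ R, y ∉ C} = (1 - g) ^ (L.filter fun y => y ∈ C).card := by
  rw [← prod_const, ← Pr_none (fun _ => g) (filter_subset (fun y => y ∈ C) L)]
  apply Pr_congr
  intro ω hω
  simp only [Set.mem_ofPred_eq, Finset.mem_coe, mem_filter]
  constructor
  · rintro h e ⟨_, he⟩ h2
    exact h e h2 he
  · intro h y hy hyC
    exact h y ⟨hω hy, hyC⟩ hy

/-- **The green vertices integrated out.** -/
theorem Ex_free (E : Finset (Ed d)) (L : Finset (V d)) (x : V d) (F : Set (Ed d) → ℝ) :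
    Ex (gw p g) (vol2 E L) (fun T => F (ed T) * ind (¬ Hit T x)) =
      EE p E (fun S => F S * (1 - g) ^ cc L S x) := by
  classical
  have h := Ex_vol2 (p := p) (g := g) E L (fun S R => F S * ind (∀ y ∈ R, y ∉ clu S x))
  have h2 : (fun T : Set (Gh d) => F (ed T) * ind (¬ Hit T x)) =
      fun T => F (ed T) * ind (∀ y ∈ gr T, y ∉ clu (ed T) x) := by
    ext T
    congr 1
    have : (¬ Hit T x) ↔ ∀ y ∈ gr T, y ∉ clu (ed T) x := by
      unfold Hit
      push Not
      rfl
    rw [this]
  rw [h2, h, EE]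
  apply Ex_congr
  intro ω _
  rw [Ex_mul]
  congr 1
  have h3 := Ex_ind (fun _ => g) L {R : Set (V d) | ∀ y ∈ R, y ∉ clu (ω : Set (Ed d)) x}
  rw [Pr_free] at h3
  unfold cc
  refine h3.trans ?_
  rfl

end Pool.Agent.Lib.MP_06caae_pr
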