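import Pool.Agent.Lib.MP_06caae_pr.GhBk

/-!
# Lower bounds by exploration of clusters
-/

open Finset SimpleGraph
open Pool.Agent.Lib.MP_566bac_pr.Zd

namespace Pool.Agent.Lib.MP_06caae_pr

variable {d : ℕ} {p g M : ℝ}

lemma agree_ed {A : Set (V d)} {T T' : Set (Gh d)} (h : Agree (tchG A) T T') :
    Agree (tch A) (ed T) (ed T') := fun _ he => h _ (inl_mem_tchG.mpr he)

lemma agree_gr {A : Set (V d)} {T T' : Set (Gh d)} (h : Agree (tchG A) T T') {v : V d}
    (hv : v ∈ A) : v ∈ gr T ↔ v ∈ gr T' := h _ (inr_mem_tchG.mpr hv)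

/-- the stopping set of a cluster, with its green vertices -/
def kc (x : V d) (T : Set (Gh d)) : Set (Gh d) := tchG (clu (ed T) x)

lemma kc_clu {x : V d} {T T' : Set (Gh d)} (h : Agree (kc x T) T T') :
    clu (ed T') x = clu (ed T) x := clu_agree (agree_ed h)

lemma stop_kc (x : V d) : Stop (kc x) := by
  intro T T' h
  unfold kc
  rw [kc_clu h]

lemma rev_kc (x : V d) : Rev (kc x) (kc x) := fun T T' h => stop_kc x T T' h

lemma rev_cluG (x : V d) : Rev (kc x) (fun T => clu (ed T) x) := fun _ _ h => kc_clu h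

lemma rev_conG (x a : V d) : Rev (kc x) (fun T => Con (ed T) x a) := by
  intro T T' h
  exact congrArg (fun C : Set (V d) => a ∈ C) (kc_clu h)

lemma rev_hit (x : V d) : Rev (kc x) (fun T => Hit T x) := by
  intro T T' h
  have h1 := kc_clu h
  apply propext
  constructor
  · rintro ⟨y, hy, hc⟩
    have hc' : y ∈ clu (ed T) x := by
      rw [← h1]
      exact hc
    exact ⟨y, (agree_gr h hc').mpr hy, hc'⟩
  · rintro ⟨y, hy, hc⟩
    refine ⟨y, (agree_gr h hc).mp hy, ?_⟩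
    have : y ∈ clu (ed T') x := by
      rw [h1]
      exact hc
    exact this

/-- an event in the rest does not depend on what was revealed -/
lemma dp_rest (K : Set (Gh d)) (Q : Set (Set (Gh d))) : Dp Kᶜ {T : Set (Gh d) | T \ K ∈ Q} := by
  intro T T' h
  have : T \ K = T' \ K := by
    ext e
    constructor
    · rintro ⟨h1, h2⟩
      exact ⟨(h e h2).mp h1, h2⟩
    · rintro ⟨h1, h2⟩
      exact ⟨(h e h2).mpr h1, h2⟩
  simp only [Set.mem_ofPred_eq, this]

/-- **Two clusters with green vertices.** -/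
theorem gh_two_lower (h0 : 0 ≤ p) (h1 : p ≤ 1) (g0 : 0 ≤ g) (g1 : g ≤ 1) (hT : Tri d p)
    {L : Finset (V d)} {U : Finset (Gh d)} (hU : U ⊆ vol2 (Ein L) L)
    (hM : ∀ (U' : Finset (Gh d)) (x : V d), Pr (gw p g) U' {T | Hit T x} ≤ M) (hM0 : 0 ≤ M)
    {x y : V d} (hx : x ∈ L) (hy : y ∈ L) :
    Pr (gw p g) U {T | Hit T x} * Pr (gw p g) U {T | Hit T y} - M ^ 2 * nab p (y - x) ≤
      Pr (gw p g) U {T | Hit T x ∧ Hit T y ∧ ¬ Con (ed T) x y} := by
  classical
  have hw := wt_gw (d := d) h0 h1 g0 g1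
  set α := Pr (gw p g) U {T | Hit T x} with hα
  set β := Pr (gw p g) U {T | Hit T y} with hβ
  have e1 := Pr_stop (gw p g) U (stop_kc x) (G := {T | Hit T x})
    (B := fun T => {T' | T' \ kc x T ∈ {T'' | Hit T'' y}}) (rev_hit x)
    ((rev_kc x).comp fun K => {T' | T' \ K ∈ {T'' | Hit T'' y}})
    (fun T => dp_rest (kc x T) _)
  have e2 : Pr (gw p g) U ({T | Hit T x} ∩ {T | T ∈ {T' | T' \ kc x T ∈ {T'' | Hit T'' y}}}) ≤
      Pr (gw p g) U {T | Hit T x ∧ Hit T y ∧ ¬ Con (ed T) x y} := by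
    apply Pr_mono hw
    rintro T ⟨h2, h3⟩
    have h3' : Hit (T \ tchG (clu (ed T) x)) y := h3
    refine ⟨h2, inc_Hit y _ _ Set.sdiff_subset h3', ?_⟩
    intro h4
    obtain ⟨z, hz, hc⟩ := h3'
    rw [gr_sdiff] at hz
    rw [ed_sdiff] at hc
    exact hz.2 (h4.trans (hc.mono Set.sdiff_subset))
  have e3 : Ex (gw p g) U (fun T => ind (Hit T x) *
      (β - M * ∑ b ∈ L, ind (Con (ed T) x b) * tau p (b - y))) ≤
      Ex (gw p g) U (fun T => ind (T ∈ {T | Hit T x}) *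
        Pr (gw p g) U {T' | T' \ kc x T ∈ {T'' | Hit T'' y}}) := by
    apply Ex_mono hw
    intro T
    exact mul_le_mul_of_nonneg_left (hit_off_ge h0 h1 g0 g1 hU hM hy (clu (ed T) x))
      (ind_nonneg _)
  have e4 : Ex (gw p g) U (fun T => ind (Hit T x) *
      (β - M * ∑ b ∈ L, ind (Con (ed T) x b) * tau p (b - y))) =
      α * β - M * ∑ b ∈ L, tau p (b - y) *
        Pr (gw p g) U {T | Con (ed T) x b ∧ Hit T x} := by
    have f1 : ∀ T : Set (Gh d), ind (Hit T x) *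
        (β - M * ∑ b ∈ L, ind (Con (ed T) x b) * tau p (b - y)) =
        β * ind (T ∈ {T | Hit T x}) + (-M) * ∑ b ∈ L, tau p (b - y) *
          ind (T ∈ {T | Con (ed T) x b ∧ Hit T x}) := by
      intro T
      by_cases h2 : Hit T x
      · rw [ind_true h2, ind_true (P := T ∈ {T | Hit T x}) h2]
        have : ∀ b ∈ L, tau p (b - y) * ind (T ∈ {T | Con (ed T) x b ∧ Hit T x}) =
            ind (Con (ed T) x b) * tau p (b - y) := by
          intro b _
          by_cases h3 : Con (ed T) x b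
          · rw [ind_true h3, ind_true (P := T ∈ {T | Con (ed T) x b ∧ Hit T x}) ⟨h3, h2⟩]
            ring
          · rw [ind_false h3, ind_false (P := T ∈ {T | Con (ed T) x b ∧ Hit T x})
              fun h => h3 h.1]
            ring
        rw [sum_congr rfl this]
        ring
      · rw [ind_false h2, ind_false (P := T ∈ {T | Hit T x}) h2]
        have : ∀ b ∈ L, tau p (b - y) * ind (T ∈ {T | Con (ed T) x b ∧ Hit T x}) = 0 := by
          intro b _
          rw [ind_false (P := T ∈ {T | Con (ed T) x b ∧ Hit T x}) fun h => h2 h.2, mul_zero]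
        rw [sum_eq_zero this]
        ring
    simp only [f1]
    rw [Ex_add, Ex_mul, Ex_mul, Ex_sum, Ex_ind]
    have f2 : ∑ b ∈ L, Ex (gw p g) U (fun T => tau p (b - y) *
        ind (T ∈ {T | Con (ed T) x b ∧ Hit T x})) =
        ∑ b ∈ L, tau p (b - y) * Pr (gw p g) U {T | Con (ed T) x b ∧ Hit T x} := by
      apply sum_congr rfl
      intro b _
      rw [Ex_mul, Ex_ind]
    rw [f2]
    ring
  have e5 : ∑ b ∈ L, tau p (b - y) * Pr (gw p g) U {T | Con (ed T) x b ∧ Hit T x} ≤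
      M * nab p (y - x) := by
    have f1 : ∑ b ∈ L, tau p (b - y) * Pr (gw p g) U {T | Con (ed T) x b ∧ Hit T x} ≤
        ∑ b ∈ L, tau p (b - y) * (M * ∑ z ∈ L, tau p (z - x) * tau p (b - z)) := by
      apply sum_le_sum
      intro b _
      exact mul_le_mul_of_nonneg_left (con_hit_le h0 h1 g0 g1 hU hM hx b)
        (tau_nonneg h0 h1 _)
    refine f1.trans ?_
    have f2 : ∑ b ∈ L, tau p (b - y) * (M * ∑ z ∈ L, tau p (z - x) * tau p (b - z)) =
        M * ∑ z ∈ L, ∑ b ∈ L, tau p (z - x) * tau p (b - z) * tau p (y - b) := by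
      rw [sum_comm, mul_sum]
      apply sum_congr rfl
      intro b _
      rw [mul_sum, mul_sum, mul_sum]
      apply sum_congr rfl
      intro z _
      rw [tau_sub_comm h0 h1 b y]
      ring
    rw [f2]
    exact mul_le_mul_of_nonneg_left (sum_le_nab h0 h1 hT L L x y) hM0
  have e6 := mul_le_mul_of_nonneg_left e5 hM0
  rw [e4] at e3
  rw [← e1] at e3
  nlinarith

/-- the sum of the two-point function over a cluster -/
noncomputable def sc (p : ℝ) (L : Finset (V d)) (C : Set (V d)) (x : V d) : ℝ :=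
  ∑ b ∈ L, ind (b ∈ C) * tau p (b - x)

lemma sc_nonneg (h0 : 0 ≤ p) (h1 : p ≤ 1) (L : Finset (V d)) (C : Set (V d)) (x : V d) :
    0 ≤ sc p L C x :=
  sum_nonneg fun _ _ => mul_nonneg (ind_nonneg _) (tau_nonneg h0 h1 _)

lemma arith1 {α β m M s t : ℝ} (hα : 0 ≤ α) (hαM : α ≤ M) (hβ : 0 ≤ β) (hm : 0 ≤ m)
    (hmM : m ≤ M) (hs : 0 ≤ s) (ht : 0 ≤ t) (h1 : m - M * s ≤ α) (h2 : m - M * t ≤ β) :
    m ^ 2 - M ^ 2 * (s + t) ≤ α * β := by
  have hM : 0 ≤ M := hm.trans hmM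
  have e1 : α * (m - M * t) ≤ α * β := mul_le_mul_of_nonneg_left h2 hα
  have e2 : (m - M * s) * m ≤ α * m := mul_le_mul_of_nonneg_right h1 hm
  have e3 : α * (M * t) ≤ M * (M * t) := mul_le_mul_of_nonneg_right hαM (mul_nonneg hM ht)
  have e4 : M * s * m ≤ M * s * M := mul_le_mul_of_nonneg_left hmM (mul_nonneg hM hs)
  nlinarith

/-- **Three clusters.** -/
theorem pre_lower (h0 : 0 ≤ p) (h1 : p ≤ 1) (g0 : 0 ≤ g) (g1 : g ≤ 1) (hT : Tri d p)
    {L : Finset (V d)} {m : ℝ}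
    (hM : ∀ (U' : Finset (Gh d)) (x : V d), Pr (gw p g) U' {T | Hit T x} ≤ M) (hM0 : 0 ≤ M)
    (hm : 0 ≤ m) {v1 v2 v3 : V d} (a : V d) (hv1 : v1 ∈ L) (hv2 : v2 ∈ L) (hv3 : v3 ∈ L)
    (hm2 : m ≤ Pr (gw p g) (vol2 (Ein L) L) {T | Hit T v2})
    (hm3 : m ≤ Pr (gw p g) (vol2 (Ein L) L) {T | Hit T v3}) :
    (m ^ 2 - M ^ 2 * nab p (v3 - v2)) *
        Pr (gw p g) (vol2 (Ein L) L) {T | Con (ed T) v1 a ∧ ¬ Hit T v1} -
      M ^ 2 * ∑ w ∈ L, ∑ z ∈ L, (tau p (w - v2) + tau p (w - v3)) *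
        (tau p (z - v1) * tau p (w - z) *
          Pr (gw p g) (vol2 (Ein L) L) {T | Con (ed T) z a ∧ ¬ Hit T z}) ≤
      Pr (gw p g) (vol2 (Ein L) L) {T | Con (ed T) v1 a ∧ ¬ Hit T v1 ∧ Hit T v2 ∧ Hit T v3 ∧
        ¬ Con (ed T) v2 v3} := by
  classical
  have hw := wt_gw (d := d) h0 h1 g0 g1
  set U := vol2 (Ein L) L with hU
  set Q : Set (Set (Gh d)) := {T | Hit T v2 ∧ Hit T v3 ∧ ¬ Con (ed T) v2 v3} with hQ
  set G : Set (Set (Gh d)) := {T | Con (ed T) v1 a ∧ ¬ Hit T v1} with hG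
  have e1 := Pr_stop (gw p g) U (stop_kc v1) (G := G)
    (B := fun T => {T' | T' \ kc v1 T ∈ Q})
    ((rev_conG v1 a).comp2 (rev_hit v1) fun A B => A ∧ ¬ B)
    ((rev_kc v1).comp fun K => {T' | T' \ K ∈ Q})
    (fun T => dp_rest (kc v1 T) _)
  have e2 : Pr (gw p g) U (G ∩ {T | T ∈ {T' | T' \ kc v1 T ∈ Q}}) ≤
      Pr (gw p g) U {T | Con (ed T) v1 a ∧ ¬ Hit T v1 ∧ Hit T v2 ∧ Hit T v3 ∧
        ¬ Con (ed T) v2 v3} := by
    apply Pr_mono hw
    rintro T ⟨⟨h2, h3⟩, h4, h5, h6⟩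
    have k2 : Hit T v2 := inc_Hit v2 _ _ Set.sdiff_subset h4
    have k3 : Hit T v3 := inc_Hit v3 _ _ Set.sdiff_subset h5
    refine ⟨h2, h3, k2, k3, ?_⟩
    intro h7
    apply h6
    have k4 : ¬ Con (ed T) v1 v2 := fun h => h3 (hit_of_con h k2)
    have k5 := clu_rest k4
    unfold kc
    rw [ed_sdiff]
    have : v3 ∈ clu (ed T \ tch (clu (ed T) v1)) v2 := by
      rw [k5]
      exact h7
    exact this
  have e3 : Ex (gw p g) U (fun T => ind (T ∈ G) *
      (m ^ 2 - M ^ 2 * (sc p L (clu (ed T) v1) v2 + sc p L (clu (ed T) v1) v3) -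
        M ^ 2 * nab p (v3 - v2))) ≤
      Ex (gw p g) U (fun T => ind (T ∈ G) * Pr (gw p g) U {T' | T' \ kc v1 T ∈ Q}) := by
    apply Ex_mono hw
    intro T
    apply mul_le_mul_of_nonneg_left _ (ind_nonneg _)
    have k1 : ∀ Q' : Set (Set (Gh d)), Pr (gw p g) U {T' | T' \ kc v1 T ∈ Q'} =
        Pr (gw p g) (U.filter fun e => e ∉ kc v1 T) Q' := by
      intro Q'
      rw [← Ex_ind, ← Ex_ind]
      exact Ex_sdiff (gw p g) U (kc v1 T) fun T' => ind (T' ∈ Q')
    rw [k1 Q]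
    have k2 := gh_two_lower h0 h1 g0 g1 hT (U := U.filter fun e => e ∉ kc v1 T)
      (filter_subset _ _) hM hM0 hv2 hv3
    refine le_trans ?_ k2
    have k3 := hit_off_ge h0 h1 g0 g1 (U := U) subset_rfl hM hv2 (clu (ed T) v1)
    have k4 := hit_off_ge h0 h1 g0 g1 (U := U) subset_rfl hM hv3 (clu (ed T) v1)
    have k5 := k1 {T | Hit T v2}
    have k6 := k1 {T | Hit T v3}
    have k3' : m - M * sc p L (clu (ed T) v1) v2 ≤
        Pr (gw p g) (U.filter fun e => e ∉ kc v1 T) {T | Hit T v2} := by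
      rw [← k5]
      refine le_trans ?_ k3
      unfold sc
      linarith
    have k4' : m - M * sc p L (clu (ed T) v1) v3 ≤
        Pr (gw p g) (U.filter fun e => e ∉ kc v1 T) {T | Hit T v3} := by
      rw [← k6]
      refine le_trans ?_ k4
      unfold sc
      linarith
    have k7 := arith1 (Pr_nonneg hw (U.filter fun e => e ∉ kc v1 T) {T | Hit T v2})
      (hM _ v2) (Pr_nonneg hw (U.filter fun e => e ∉ kc v1 T) {T | Hit T v3}) hm
      (hm2.trans (hM U v2)) (sc_nonneg h0 h1 L (clu (ed T) v1) v2)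
      (sc_nonneg h0 h1 L (clu (ed T) v1) v3) k3' k4'
    linarith
  have e4 : Ex (gw p g) U (fun T => ind (T ∈ G) *
      (m ^ 2 - M ^ 2 * (sc p L (clu (ed T) v1) v2 + sc p L (clu (ed T) v1) v3) -
        M ^ 2 * nab p (v3 - v2))) =
      (m ^ 2 - M ^ 2 * nab p (v3 - v2)) * Pr (gw p g) U G -
        M ^ 2 * ∑ w ∈ L, (tau p (w - v2) + tau p (w - v3)) *
          Pr (gw p g) U {T | Con (ed T) v1 a ∧ Con (ed T) v1 w ∧ ¬ Hit T v1} := by
    have f1 : ∀ T : Set (Gh d), ind (T ∈ G) *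
        (m ^ 2 - M ^ 2 * (sc p L (clu (ed T) v1) v2 + sc p L (clu (ed T) v1) v3) -
          M ^ 2 * nab p (v3 - v2)) =
        (m ^ 2 - M ^ 2 * nab p (v3 - v2)) * ind (T ∈ G) + (-M ^ 2) *
          ∑ w ∈ L, (tau p (w - v2) + tau p (w - v3)) *
            ind (T ∈ {T | Con (ed T) v1 a ∧ Con (ed T) v1 w ∧ ¬ Hit T v1}) := by
      intro T
      by_cases h2 : T ∈ G
      · rw [ind_true h2]
        have : ∀ w ∈ L, (tau p (w - v2) + tau p (w - v3)) *
            ind (T ∈ {T | Con (ed T) v1 a ∧ Con (ed T) v1 w ∧ ¬ Hit T v1}) =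
            ind (w ∈ clu (ed T) v1) * tau p (w - v2) +
              ind (w ∈ clu (ed T) v1) * tau p (w - v3) := by
          intro w _
          by_cases h3 : Con (ed T) v1 w
          · rw [ind_true (P := w ∈ clu (ed T) v1) h3,
              ind_true (P := T ∈ {T | Con (ed T) v1 a ∧ Con (ed T) v1 w ∧ ¬ Hit T v1})
                ⟨h2.1, h3, h2.2⟩]
            ring
          · rw [ind_false (P := w ∈ clu (ed T) v1) h3,
              ind_false (P := T ∈ {T | Con (ed T) v1 a ∧ Con (ed T) v1 w ∧ ¬ Hit T v1})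
                fun h => h3 h.2.1]
            ring
        rw [sum_congr rfl this, sum_add_distrib]
        unfold sc
        ring
      · rw [ind_false h2]
        have : ∀ w ∈ L, (tau p (w - v2) + tau p (w - v3)) *
            ind (T ∈ {T | Con (ed T) v1 a ∧ Con (ed T) v1 w ∧ ¬ Hit T v1}) = 0 := by
          intro w _
          rw [ind_false (P := T ∈ {T | Con (ed T) v1 a ∧ Con (ed T) v1 w ∧ ¬ Hit T v1})
            fun h => h2 ⟨h.1, h.2.2⟩, mul_zero]
        rw [sum_eq_zero this]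
        ring
    simp only [f1]
    rw [Ex_add, Ex_mul, Ex_mul, Ex_sum, Ex_ind]
    have f2 : ∑ w ∈ L, Ex (gw p g) U (fun T => (tau p (w - v2) + tau p (w - v3)) *
        ind (T ∈ {T | Con (ed T) v1 a ∧ Con (ed T) v1 w ∧ ¬ Hit T v1})) =
        ∑ w ∈ L, (tau p (w - v2) + tau p (w - v3)) *
          Pr (gw p g) U {T | Con (ed T) v1 a ∧ Con (ed T) v1 w ∧ ¬ Hit T v1} := by
      apply sum_congr rfl
      intro b _
      rw [Ex_mul, Ex_ind]
    rw [f2]
    ring
  have e5 : ∑ w ∈ L, (tau p (w - v2) + tau p (w - v3)) *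
      Pr (gw p g) U {T | Con (ed T) v1 a ∧ Con (ed T) v1 w ∧ ¬ Hit T v1} ≤
      ∑ w ∈ L, ∑ z ∈ L, (tau p (w - v2) + tau p (w - v3)) *
        (tau p (z - v1) * tau p (w - z) *
          Pr (gw p g) U {T | Con (ed T) z a ∧ ¬ Hit T z}) := by
    apply sum_le_sum
    intro w _
    rw [← mul_sum]
    apply mul_le_mul_of_nonneg_left _
      (add_nonneg (tau_nonneg h0 h1 _) (tau_nonneg h0 h1 _))
    exact con_con_free_le h0 h1 g0 g1 subset_rfl hv1 a w
  have e6 := mul_le_mul_of_nonneg_left e5 (sq_nonneg M)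
  rw [e4, ← e1] at e3
  linarith

end Pool.Agent.Lib.MP_06caae_pr
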