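import Pool.Agent.Lib.MP_06caae_pr.Lev1

/-!
# Good boxes intersect

`g` is the set of green vertices. A box `Q` is good for `a` if it is open and, when the edges inside
`Q` are removed, the component of `a` meets `Q` and is free of green vertices, and two other
components which meet `Q` contain green vertices.
-/

open Finset SimpleGraph
open Pool.Agent.Lib.MP_566bac_pr.Zd

namespace Pool.Agent.Lib.MP_06caae_pr

variable {d : ℕ}

/-- the configuration without the edges inside `Q` -/
def off (S : Set (Ed d)) (Q : Finset (V d)) : Set (Ed d) := S \ (Ein Q : Set (Ed d))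

lemma off_subset (S : Set (Ed d)) (Q : Finset (V d)) : off S Q ⊆ S := Set.sdiff_subset

/-- the event of a good box, without the condition that the edges inside are open -/
structure Pre (S : Set (Ed d)) (g : Set (V d)) (Q : Finset (V d)) (a : V d) : Prop where
  meet : ∃ b ∈ Q, Con (off S Q) a b
  free : ∀ y ∈ g, ¬ Con (off S Q) a y
  two : ∃ b ∈ Q, ∃ b' ∈ Q, (∃ y ∈ g, Con (off S Q) b y) ∧ (∃ y ∈ g, Con (off S Q) b' y) ∧
    ¬ Con (off S Q) b b'

/-- the edges inside `Q` are open -/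
def Opn (S : Set (Ed d)) (Q : Finset (V d)) : Prop := ∀ e ∈ Ein Q, e ∈ S

/-- a connection avoids the box or reaches it without the edges inside -/
lemma con_off_or {S : Set (Ed d)} {Q : Finset (V d)} {x y : V d} (h : Con S x y) :
    Con (off S Q) x y ∨ ∃ z ∈ Q, Con (off S Q) x z := by
  refine con_induct h (fun b => Con (off S Q) x b ∨ ∃ z ∈ Q, Con (off S Q) x z)
    (Or.inl (Con.refl _ _)) ?_
  rintro a b (ha | ha) hab hs
  · by_cases h2 : s(a, b) ∈ Ein Q
    · exact Or.inr ⟨a, (mem_Ein.mp h2).1, ha⟩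
    · exact Or.inl (ha.trans (Con.step hab ⟨hs, h2⟩))
  · exact Or.inr ha

/-- the last exit from a box -/
lemma con_last {S : Set (Ed d)} {Q : Finset (V d)} {v a : V d} (hv : v ∈ Q) (h : Con S v a) :
    ∃ b ∈ Q, Con (off S Q) b a ∧ Con S v b := by
  refine con_induct h (fun c => ∃ b ∈ Q, Con (off S Q) b c ∧ Con S v b)
    ⟨v, hv, Con.refl _ _, Con.refl _ _⟩ ?_
  rintro x y ⟨b, hb, h1, h2⟩ hxy hs
  by_cases h3 : s(x, y) ∈ Ein Q
  · exact ⟨y, (mem_Ein.mp h3).2.1, Con.refl _ _,
      (h2.trans (h1.mono (off_subset S Q))).trans (Con.step hxy hs)⟩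
  · exact ⟨b, hb, h1.trans (Con.step hxy ⟨hs, h3⟩), h2⟩

/-- boxes are connected -/
lemma box_conn (v : V d) (k : ℕ) {x y : V d} (hx : x ∈ Lam v k) (hy : y ∈ Lam v k) :
    Con ((Ein (Lam v k) : Finset (Ed d)) : Set (Ed d)) x y := by
  have key : ∀ (n : ℕ) (x : V d), x ∈ Lam v k → (∑ i, (x i - v i).natAbs) = n →
      Con ((Ein (Lam v k) : Finset (Ed d)) : Set (Ed d)) x v := by
    intro n
    induction n with
    | zero =>
      intro x _ h
      rw [Finset.sum_eq_zero_iff] at h
      have : x = v := by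
        ext i
        have := h i (mem_univ i)
        omega
      rw [this]
      exact Con.refl _ _
    | succ n ih =>
      intro x hx h
      have h1 : ∃ i, (x i - v i).natAbs ≠ 0 := by
        by_contra hcon
        push Not at hcon
        rw [sum_eq_zero fun i _ => hcon i] at h
        omega
      obtain ⟨i, hi⟩ := h1
      rw [mem_Lam'] at hx
      -- one step in the direction of `v`
      have step : ∀ (z : V d), (lattice d).Adj x z → (∀ j, j ≠ i → z j = x j) →
          (z i - v i).natAbs + 1 = (x i - v i).natAbs →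
          Con ((Ein (Lam v k) : Finset (Ed d)) : Set (Ed d)) x v := by
        intro z hxz hz hzi
        have hzL : z ∈ Lam v k := by
          rw [mem_Lam']
          intro j
          rcases eq_or_ne j i with rfl | hj
          · have := hx j
            omega
          · rw [hz j hj]
            exact hx j
        have hsum : (∑ j, (z j - v j).natAbs) = n := by
          have e1 := Finset.add_sum_erase univ (fun j => (z j - v j).natAbs) (mem_univ i)
          have e2 := Finset.add_sum_erase univ (fun j => (x j - v j).natAbs) (mem_univ i)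
          have e3 : ∑ j ∈ univ.erase i, (z j - v j).natAbs =
              ∑ j ∈ univ.erase i, (x j - v j).natAbs := by
            apply sum_congr rfl
            intro j hj
            rw [hz j (ne_of_mem_erase hj)]
          omega
        refine (Con.step hxz ?_).trans (ih z hzL hsum)
        rw [Finset.mem_coe, mem_Ein]
        exact ⟨mem_Lam'.mpr hx, hzL, hxz⟩
      rcases lt_or_gt_of_ne (show x i ≠ v i by omega) with h2 | h2
      · refine step (x + uv i) (adj_add x i) ?_ ?_
        · intro j hj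
          rw [Pi.add_apply, uv_ne hj, add_zero]
        · rw [Pi.add_apply, uv_same]
          omega
      · refine step (x - uv i) (adj_sub x i) ?_ ?_
        · intro j hj
          rw [Pi.sub_apply, uv_ne hj, sub_zero]
        · rw [Pi.sub_apply, uv_same]
          omega
  exact (key _ x hx rfl).trans (key _ y hy rfl).symm

lemma Opn.conn {S : Set (Ed d)} {v : V d} {k : ℕ} (h : Opn S (Lam v k)) {x y : V d}
    (hx : x ∈ Lam v k) (hy : y ∈ Lam v k) : Con S x y :=
  (box_conn v k hx hy).mono fun e he => h e he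

/-- the box is still connected when the edges inside a disjoint box are removed -/
lemma Opn.conn_off {S : Set (Ed d)} {v : V d} {k : ℕ} (h : Opn S (Lam v k))
    {Q : Finset (V d)} (hd : Disjoint Q (Lam v k)) {x y : V d}
    (hx : x ∈ Lam v k) (hy : y ∈ Lam v k) : Con (off S Q) x y := by
  refine (box_conn v k hx hy).mono fun e he => ⟨h e he, ?_⟩
  intro he2
  induction e using Sym2.ind with
  | _ a b =>
    rw [Finset.mem_coe, mem_Ein] at he he2
    exact Finset.disjoint_left.mp hd he2.1 he.1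

lemma off_off_left {S : Set (Ed d)} (Q Q' : Finset (V d)) : off (off S Q) Q' ⊆ off S Q :=
  off_subset _ _

lemma off_off_right {S : Set (Ed d)} (Q Q' : Finset (V d)) : off (off S Q) Q' ⊆ off S Q' := by
  rintro e ⟨⟨h1, _⟩, h3⟩
  exact ⟨h1, h3⟩

/-- **Two good boxes intersect.** -/
theorem good_meet {S : Set (Ed d)} {g : Set (V d)} {v v' : V d} {k : ℕ} {a : V d}
    (hP : Pre S g (Lam v k) a) (hO : Opn S (Lam v k))
    (hP' : Pre S g (Lam v' k) a) (hO' : Opn S (Lam v' k)) :
    ¬ Disjoint (Lam v k) (Lam v' k) := by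
  intro hd
  set Q := Lam v k with hQ
  set Q' := Lam v' k with hQ'
  have cQ' : ∀ x ∈ Q', ∀ y ∈ Q', Con (off S Q) x y := fun x hx y hy => hO'.conn_off hd hx hy
  have cQ : ∀ x ∈ Q, ∀ y ∈ Q, Con (off S Q') x y := fun x hx y hy => hO.conn_off hd.symm hx hy
  by_cases hcase : ∃ z ∈ Q', Con (off S Q) a z
  · obtain ⟨z, hz, haz⟩ := hcase
    obtain ⟨b2, hb2, b3, hb3, ⟨y2, hy2, h2⟩, ⟨y3, hy3, h3⟩, hne⟩ := hP'.two
    have key : ∀ b ∈ Q', ∀ y ∈ g, Con (off S Q') b y → ∃ w ∈ Q, Con (off S Q') b w := by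
      intro b hb y hy hby
      rcases con_off_or (Q := Q) hby with h4 | ⟨w, hw, h4⟩
      · exfalso
        have h5 : Con (off S Q) b y := h4.mono (off_off_right Q' Q)
        exact hP.free y hy ((haz.trans (cQ' z hz b hb)).trans h5)
      · exact ⟨w, hw, h4.mono (off_off_left Q' Q)⟩
    obtain ⟨w2, hw2, h4⟩ := key b2 hb2 y2 hy2 h2
    obtain ⟨w3, hw3, h5⟩ := key b3 hb3 y3 hy3 h3
    exact hne ((h4.trans (cQ w2 hw2 w3 hw3)).trans h5.symm)
  · push Not at hcase
    obtain ⟨b1, hb1, h1⟩ := hP.meet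
    have h1' : Con (off S Q') a b1 := by
      rcases con_off_or (Q := Q') h1 with h4 | ⟨w, hw, h4⟩
      · exact h4.mono (off_off_right Q Q')
      · exact absurd (h4.mono (off_off_left Q Q')) (hcase w hw)
    obtain ⟨b2, hb2, b3, hb3, ⟨y2, hy2, h2⟩, ⟨y3, hy3, h3⟩, hne⟩ := hP.two
    have key : ∀ b ∈ Q, ∀ y ∈ g, Con (off S Q) b y → ∃ w ∈ Q', Con (off S Q) b w := by
      intro b hb y hy hby
      rcases con_off_or (Q := Q') hby with h4 | ⟨w, hw, h4⟩
      · exfalso
        have h5 : Con (off S Q') b y := h4.mono (off_off_right Q Q')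
        exact hP'.free y hy ((h1'.trans (cQ b1 hb1 b hb)).trans h5)
      · exact ⟨w, hw, h4.mono (off_off_left Q Q')⟩
    obtain ⟨w2, hw2, h4⟩ := key b2 hb2 y2 hy2 h2
    obtain ⟨w3, hw3, h5⟩ := key b3 hb3 y3 hy3 h3
    exact hne ((h4.trans (cQ' w2 hw2 w3 hw3)).trans h5.symm)

/-- the number of good boxes is bounded -/
theorem good_card {S : Set (Ed d)} {g : Set (V d)} {k : ℕ} {a : V d} (W : Finset (V d))
    (hW : ∀ v ∈ W, Pre S g (Lam v k) a ∧ Opn S (Lam v k)) : W.card ≤ (4 * k + 1) ^ d := by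
  rcases W.eq_empty_or_nonempty with rfl | ⟨v0, hv0⟩
  · simp
  · have h1 : W ⊆ Lam v0 (2 * k) := by
      intro v hv
      have h2 := good_meet (hW v0 hv0).1 (hW v0 hv0).2 (hW v hv).1 (hW v hv).2
      rw [Finset.not_disjoint_iff] at h2
      obtain ⟨z, hz1, hz2⟩ := h2
      rw [mem_Lam] at hz1 hz2 ⊢
      have h3 := dst_tri v z v0
      rw [dst_comm v z] at h3
      omega
    refine (card_le_card h1).trans (le_of_eq ?_)
    rw [card_Lam]
    congr 1
    ring

/-- a good box connects `a` to green -/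
lemma good_hit {S : Set (Ed d)} {g : Set (V d)} {v : V d} {k : ℕ} {a : V d}
    (hP : Pre S g (Lam v k) a) (hO : Opn S (Lam v k)) : ∃ y ∈ g, Con S a y := by
  obtain ⟨b1, hb1, h1⟩ := hP.meet
  obtain ⟨b2, hb2, b3, hb3, ⟨y2, hy2, h2⟩, _, _⟩ := hP.two
  exact ⟨y2, hy2, ((h1.mono (off_subset _ _)).trans (hO.conn hb1 hb2)).trans
    (h2.mono (off_subset _ _))⟩

/-- three disjoint clusters give the event `Pre` -/
theorem pre_of {S : Set (Ed d)} {g : Set (V d)} {Q : Finset (V d)} {v1 v2 v3 a : V d}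
    (h1 : v1 ∈ Q) (h2 : v2 ∈ Q) (h3 : v3 ∈ Q) (ha : Con S v1 a) (hf : ∀ y ∈ g, ¬ Con S v1 y)
    (hg2 : ∃ y ∈ g, Con S v2 y) (hg3 : ∃ y ∈ g, Con S v3 y) (hne : ¬ Con S v2 v3) :
    Pre S g Q a := by
  obtain ⟨b1, hb1, c1, c1'⟩ := con_last h1 ha
  obtain ⟨y2, hy2, e2⟩ := hg2
  obtain ⟨y3, hy3, e3⟩ := hg3
  obtain ⟨b2, hb2, c2, c2'⟩ := con_last h2 e2
  obtain ⟨b3, hb3, c3, c3'⟩ := con_last h3 e3
  refine ⟨⟨b1, hb1, c1.symm⟩, ?_, b2, hb2, b3, hb3, ⟨y2, hy2, c2⟩, ⟨y3, hy3, c3⟩, ?_⟩
  · intro y hy h4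
    exact hf y hy (ha.trans (h4.mono (off_subset _ _)))
  · intro h4
    exact hne ((c2'.trans (h4.mono (off_subset _ _))).trans c3'.symm)

/-- `Pre` does not depend on the edges inside the box -/
lemma pre_congr {S S' : Set (Ed d)} {g g' : Set (V d)} {Q : Finset (V d)} {a : V d}
    (hS : off S Q = off S' Q) (hg : g = g') : Pre S g Q a ↔ Pre S' g' Q a := by
  subst hg
  constructor
  · rintro ⟨h1, h2, h3⟩
    rw [hS] at h1 h2 h3
    exact ⟨h1, h2, h3⟩
  · rintro ⟨h1, h2, h3⟩
    rw [← hS] at h1 h2 h3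
    exact ⟨h1, h2, h3⟩

end Pool.Agent.Lib.MP_06caae_pr
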