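import Pool.Agent.Lib.MP_06caae_pr.GhAut

/-!
# The inequality of the ghost surgery
-/

open Finset SimpleGraph
open Pool.Agent.Lib.MP_566bac_pr.Zd

namespace Pool.Agent.Lib.MP_06caae_pr

variable {d : ℕ} {p g : ℝ}

/-- the error terms, summed over the boxes -/
lemma sum3 (h0 : 0 ≤ p) (h1 : p ≤ 1) (hT : Tri d p) (L W : Finset (V d)) (e1 e2 z : V d) :
    ∑ v ∈ W, ∑ w ∈ L, tau p (w - (v + e2)) * (tau p (z - (v + e1)) * tau p (w - z)) ≤
      nab p (e2 - e1) := by
  classical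
  have h2 : ∑ v ∈ W, ∑ w ∈ L, tau p (w - (v + e2)) * (tau p (z - (v + e1)) * tau p (w - z)) =
      ∑ w ∈ L, ∑ y ∈ W.image (fun v => v + e2),
        tau p (w - z) * tau p (y - w) * tau p ((z + (e2 - e1)) - y) := by
    rw [sum_comm]
    apply sum_congr rfl
    intro w _
    rw [sum_image fun a _ b _ h => add_right_cancel h]
    apply sum_congr rfl
    intro v _
    rw [tau_sub_comm h0 h1 w (v + e2), show z + (e2 - e1) - (v + e2) = z - (v + e1) by abel]
    ring
  rw [h2]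
  have h3 := sum_le_nab h0 h1 hT L (W.image fun v => v + e2) z (z + (e2 - e1))
  rwa [add_sub_cancel_left] at h3

/-- far points need large clusters -/
lemma far_cc {L : Finset (V d)} {S : Set (Ed d)} (hS : S ⊆ (Ein L : Set (Ed d)))
    (h0L : (0 : V d) ∈ L) {z : V d} (h : Con S 0 z) : dst z 0 + 1 ≤ cc L S 0 := by
  classical
  have key : ∀ j ≤ dst z 0, ∃ y, Con S 0 y ∧ dst y 0 = j := by
    refine (con_induct h (fun b => Con S 0 b ∧ ∀ j ≤ dst b 0, ∃ y, Con S 0 y ∧ dst y 0 = j)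
      ⟨Con.refl _ _, ?_⟩ ?_).2
    · intro j hj
      rw [dst_self] at hj
      exact ⟨0, Con.refl _ _, by rw [dst_self]; omega⟩
    · rintro a b ⟨ha, ih⟩ hab hs
      have hb : Con S 0 b := ha.trans (Con.step hab hs)
      refine ⟨hb, fun j hj => ?_⟩
      rcases le_or_gt j (dst a 0) with h2 | h2
      · exact ih j h2
      · refine ⟨b, hb, ?_⟩
        have h3 := dst_tri b a 0
        have h4 := dst_adj hab.symm
        omega
  have h2 : range (dst z 0 + 1) ⊆ (L.filter fun y => Con S 0 y).image fun y => dst y 0 := by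
    intro j hj
    rw [mem_range] at hj
    obtain ⟨y, hy, rfl⟩ := key j (by omega)
    exact mem_image.mpr ⟨y, mem_filter.mpr ⟨con_mem hS h0L hy, hy⟩, rfl⟩
  have h3 := (card_le_card h2).trans card_image_le
  rw [card_range] at h3
  exact h3

/-- the contribution of the far points -/
lemma far_le (h0 : 0 ≤ p) (h1 : p ≤ 1) (g1 : g ≤ 1) {N R : ℕ} {ε : ℝ} (hε0 : 0 ≤ ε)
    (hε : ∀ j : ℕ, R < j → (j : ℝ) * (1 - g) ^ j ≤ ε) (F : Finset (V d))
    (hF : F ⊆ Lam 0 N) (hF2 : ∀ z ∈ F, R ≤ dst z 0) :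
    ∑ z ∈ F, Pr (gw p g) (UN d N) {T | Con (ed T) z 0 ∧ ¬ Hit T z} ≤ ε := by
  classical
  have h := Ex_free (p := p) (g := g) (Ein (Lam 0 N)) (Lam (0 : V d) N) 0
    (fun S => ∑ z ∈ F, ind (Con S 0 z))
  have h2 : ∑ z ∈ F, Pr (gw p g) (UN d N) {T | Con (ed T) z 0 ∧ ¬ Hit T z} =
      Ex (gw p g) (vol2 (Ein (Lam 0 N)) (Lam (0 : V d) N))
        (fun T => (∑ z ∈ F, ind (Con (ed T) 0 z)) * ind (¬ Hit T 0)) := by
    have h3 : ∀ T : Set (Gh d), (∑ z ∈ F, ind (Con (ed T) 0 z)) * ind (¬ Hit T 0) =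
        ∑ z ∈ F, ind (T ∈ {T | Con (ed T) z 0 ∧ ¬ Hit T z}) := by
      intro T
      rw [sum_mul]
      apply sum_congr rfl
      intro z _
      by_cases h3 : Con (ed T) z 0
      · rw [ind_true h3.symm, one_mul]
        have h4 := hit_congr h3
        by_cases h5 : Hit T 0
        · rw [ind_false fun h => h h5, ind_false]
          exact fun h => h.2 (h4.mpr h5)
        · rw [ind_true h5, ind_true]
          exact ⟨h3, fun h => h5 (h4.mp h)⟩
      · rw [ind_false (P := Con (ed T) 0 z) fun h => h3 h.symm, zero_mul, ind_false]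
        exact fun h => h3 h.1
    simp only [h3]
    rw [Ex_sum]
    apply sum_congr rfl
    intro z _
    rw [Ex_ind]
    rfl
  rw [h2, h]
  rw [← Ex_const (fun _ : Ed d => p) (Ein (Lam (0 : V d) N)) ε]
  refine Ex_mono' (wt_p h0 h1) fun ω hω => ?_
  have hS : (ω : Set (Ed d)) ⊆ (Ein (Lam (0 : V d) N) : Set (Ed d)) := by exact_mod_cast hω
  set c := cc (Lam (0 : V d) N) (ω : Set (Ed d)) 0 with hc
  have g1' : 0 ≤ 1 - g := by linarith
  by_cases hne : ∃ z ∈ F, Con (ω : Set (Ed d)) 0 z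
  · obtain ⟨z, hz, hcz⟩ := hne
    have h5 := far_cc hS (self_mem_Lam 0 N) hcz
    have h6 := hF2 z hz
    have h7 : ∑ z ∈ F, ind (Con (ω : Set (Ed d)) 0 z) ≤ (c : ℝ) := by
      rw [hc, ← sum_ind_cc]
      exact sum_le_sum_of_subset_of_nonneg hF fun _ _ _ => ind_nonneg _
    refine (mul_le_mul_of_nonneg_right h7 (pow_nonneg g1' _)).trans ?_
    exact hε c (by omega)
  · push Not at hne
    rw [sum_eq_zero fun z hz => ind_false (hne z hz), zero_mul]
    exact hε0

/-- **The inequality of the ghost surgery**, in a box. -/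
theorem surgery (h0 : 0 < p) (h1 : p ≤ 1) (g0 : 0 ≤ g) (g1 : g ≤ 1) (hT : Tri d p)
    {k n R : ℕ} (hR : R + k ≤ n) {e1 e2 e3 : V d} (he1 : e1 ∈ Lam 0 k) (he2 : e2 ∈ Lam 0 k)
    (he3 : e3 ∈ Lam 0 k) (n12 : nab p (e2 - e1) ≤ 1 / 8) (n13 : nab p (e3 - e1) ≤ 1 / 8)
    (n23 : nab p (e3 - e2) ≤ 1 / 8) {ε : ℝ} (hε0 : 0 ≤ ε)
    (hε : ∀ j : ℕ, R < j → (j : ℝ) * (1 - g) ^ j ≤ ε)
    (hm : 7 / 8 * MG d p g ^ 2 ≤ MN d p g n ^ 2) :
    p ^ ((2 * k + 1) ^ d * (2 * k + 1) ^ d) *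
        (MG d p g ^ 2 * (1 / 2 * XN d p g (2 * n + k) - ε)) ≤
      (4 * k + 1) ^ d * MG d p g := by
  classical
  have hw := wt_gw (d := d) h0.le h1 g0 g1
  set M := MG d p g with hMdef
  have hM0 : 0 ≤ M := MG_nonneg h0.le h1 g0 g1
  set m := MN d p g n with hmdef
  have hm0 : 0 ≤ m := MN_nonneg h0.le h1 g0 g1 n
  have hmM : m ≤ M := MN_le_MG h0.le h1 g0 g1 n
  set N := 2 * n + k with hN
  set L := (Lam 0 N : Finset (V d)) with hL
  set W := (Lam 0 n : Finset (V d)) with hW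
  have hUL : UN d N = vol2 (Ein L) L := rfl
  have tri : ∀ (v e : V d), v ∈ W → e ∈ (Lam 0 k : Finset (V d)) → dst (v + e) 0 ≤ n + k := by
    intro v e hv he
    rw [mem_Lam] at hv he
    have a1 := dst_tri (v + e) e 0
    have a2 : dst (v + e) e = dst v 0 := dst_transE e v
    omega
  have memL : ∀ (v e : V d), v ∈ W → e ∈ (Lam 0 k : Finset (V d)) → v + e ∈ L := by
    intro v e hv he
    rw [hL, mem_Lam]
    have := tri v e hv he
    omega
  set P : V d → ℝ := fun z => Pr (gw p g) (UN d N) {T | Con (ed T) z 0 ∧ ¬ Hit T z} with hP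
  have hP0 : ∀ z, 0 ≤ P z := fun z => Pr_nonneg hw _ _
  have hX : XN d p g N = ∑ z ∈ L, P z := rfl
  -- the boxes
  have b1 := box_sum h0.le h1 g0 g1 (U := UN d N) (k := k) W (by
    intro v hv e he
    rw [UN, mem_vol2_inl]
    induction e using Sym2.ind with
    | _ a b =>
      rw [mem_Ein] at he ⊢
      rw [hW, mem_Lam] at hv
      have key : ∀ c : V d, c ∈ Lam v k → c ∈ (Lam 0 N : Finset (V d)) := by
        intro c hc
        rw [mem_Lam] at hc ⊢
        have := dst_tri c v 0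
        omega
      exact ⟨key a he.1, key b he.2.1, he.2.2⟩) 0
  have b2 : ∑ v ∈ W, Pr (gw p g) (UN d N) {T | Con (ed T) (v + e1) 0 ∧ ¬ Hit T (v + e1) ∧
      Hit T (v + e2) ∧ Hit T (v + e3) ∧ ¬ Con (ed T) (v + e2) (v + e3)} ≤
      ∑ v ∈ W, Pr (gw p g) (UN d N) {T | Pre (ed T) (gr T) (Lam v k) 0} := by
    apply sum_le_sum
    intro v _
    apply Pr_mono hw
    rintro T ⟨c1, c2, c3, c4, c5⟩
    have key : ∀ e ∈ (Lam 0 k : Finset (V d)), v + e ∈ Lam v k := by
      intro e he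
      rw [mem_Lam] at he ⊢
      have := dst_transE v e
      rw [transE_apply, add_comm] at this
      omega
    refine pre_of (key e1 he1) (key e2 he2) (key e3 he3) c1 ?_ c3 c4 c5
    intro y hy hc
    exact c2 ⟨y, hy, hc⟩
  -- the lower bound
  have b3 : ∀ v ∈ W, (m ^ 2 - M ^ 2 * (1 / 8)) * P (v + e1) -
      M ^ 2 * ∑ w ∈ L, ∑ z ∈ L, (tau p (w - (v + e2)) + tau p (w - (v + e3))) *
        (tau p (z - (v + e1)) * tau p (w - z) * P z) ≤
      Pr (gw p g) (UN d N) {T | Con (ed T) (v + e1) 0 ∧ ¬ Hit T (v + e1) ∧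
        Hit T (v + e2) ∧ Hit T (v + e3) ∧ ¬ Con (ed T) (v + e2) (v + e3)} := by
    intro v hv
    have c1 := pre_lower h0.le h1 g0 g1 hT (L := L) (m := m)
      (hit_le_MG h0.le h1 g0 g1) hM0 hm0 (v1 := v + e1) (v2 := v + e2) (v3 := v + e3) 0
      (memL v e1 hv he1) (memL v e2 hv he2) (memL v e3 hv he3)
      (MN_le_hit h0.le h1 g0 g1 (by have := tri v e2 hv he2; omega))
      (MN_le_hit h0.le h1 g0 g1 (by have := tri v e3 hv he3; omega))
    rw [add_sub_add_left_eq_sub] at c1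
    have c1' : (m ^ 2 - M ^ 2 * nab p (e3 - e2)) * P (v + e1) -
        M ^ 2 * ∑ w ∈ L, ∑ z ∈ L, (tau p (w - (v + e2)) + tau p (w - (v + e3))) *
        (tau p (z - (v + e1)) * tau p (w - z) * P z) ≤
      Pr (gw p g) (UN d N) {T | Con (ed T) (v + e1) 0 ∧ ¬ Hit T (v + e1) ∧
        Hit T (v + e2) ∧ Hit T (v + e3) ∧ ¬ Con (ed T) (v + e2) (v + e3)} := c1
    have c2 : (m ^ 2 - M ^ 2 * (1 / 8)) * P (v + e1) ≤
        (m ^ 2 - M ^ 2 * nab p (e3 - e2)) * P (v + e1) := by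
      apply mul_le_mul_of_nonneg_right _ (hP0 _)
      have := mul_le_mul_of_nonneg_left n23 (sq_nonneg M)
      linarith
    linarith
  have b4 := (sum_le_sum b3).trans b2
  rw [sum_sub_distrib, ← mul_sum, ← mul_sum] at b4
  -- the error terms
  have b5 : ∑ v ∈ W, ∑ w ∈ L, ∑ z ∈ L, (tau p (w - (v + e2)) + tau p (w - (v + e3))) *
      (tau p (z - (v + e1)) * tau p (w - z) * P z) ≤ 1 / 4 * XN d p g N := by
    have c1 : ∑ v ∈ W, ∑ w ∈ L, ∑ z ∈ L, (tau p (w - (v + e2)) + tau p (w - (v + e3))) *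
        (tau p (z - (v + e1)) * tau p (w - z) * P z) =
        ∑ z ∈ L, P z * (∑ v ∈ W, ∑ w ∈ L, tau p (w - (v + e2)) *
            (tau p (z - (v + e1)) * tau p (w - z)) +
          ∑ v ∈ W, ∑ w ∈ L, tau p (w - (v + e3)) *
            (tau p (z - (v + e1)) * tau p (w - z))) := by
      calc ∑ v ∈ W, ∑ w ∈ L, ∑ z ∈ L, (tau p (w - (v + e2)) + tau p (w - (v + e3))) *
            (tau p (z - (v + e1)) * tau p (w - z) * P z)
          = ∑ v ∈ W, ∑ z ∈ L, ∑ w ∈ L, (tau p (w - (v + e2)) + tau p (w - (v + e3))) *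
            (tau p (z - (v + e1)) * tau p (w - z) * P z) := by
            apply sum_congr rfl
            intro v _
            rw [sum_comm]
        _ = ∑ z ∈ L, ∑ v ∈ W, ∑ w ∈ L, (tau p (w - (v + e2)) + tau p (w - (v + e3))) *
            (tau p (z - (v + e1)) * tau p (w - z) * P z) := by
            rw [sum_comm]
        _ = _ := by
            apply sum_congr rfl
            intro z _
            rw [← sum_add_distrib, mul_sum]
            apply sum_congr rfl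
            intro v _
            rw [← sum_add_distrib, mul_sum]
            apply sum_congr rfl
            intro w _
            ring
    rw [c1, hX, mul_sum]
    apply sum_le_sum
    intro z _
    have c2 := sum3 h0.le h1 hT L W e1 e2 z
    have c3 := sum3 h0.le h1 hT L W e1 e3 z
    rw [mul_comm (1 / 4 : ℝ)]
    apply mul_le_mul_of_nonneg_left _ (hP0 z)
    linarith
  -- the main term
  have b6 : XN d p g N - ε ≤ ∑ v ∈ W, P (v + e1) := by
    have c1 : ∑ v ∈ W, P (v + e1) = ∑ z ∈ W.image (fun v => v + e1), P z := by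
      rw [sum_image fun a _ b _ h => add_right_cancel h]
    have c2 : W.image (fun v => v + e1) ⊆ L := by
      intro z hz
      obtain ⟨v, hv, rfl⟩ := mem_image.mp hz
      exact memL v e1 hv he1
    have c3 := sum_sdiff (f := P) c2
    have c4 : ∑ z ∈ L \ W.image (fun v => v + e1), P z ≤ ε := by
      refine far_le h0.le h1 g1 hε0 hε _ sdiff_subset ?_
      intro z hz
      rw [mem_sdiff] at hz
      by_contra hcon
      push Not at hcon
      apply hz.2
      refine mem_image.mpr ⟨z - e1, ?_, sub_add_cancel z e1⟩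
      rw [hW, mem_Lam]
      rw [mem_Lam] at he1
      have c5 := dst_tri (z - e1) (-e1) 0
      have c6 : dst (z - e1) (-e1) = dst z 0 := by
        have := dst_transE (-e1) z
        rw [transE_apply, ← sub_eq_add_neg] at this
        exact this
      have c7 : dst (-e1) 0 = dst e1 0 := by
        unfold dst
        congr 1
        ext i
        simp
      omega
    rw [c1, hX]
    linarith
  -- the conclusion
  have hcoef : 3 / 4 * M ^ 2 ≤ m ^ 2 - M ^ 2 * (1 / 8) := by linarith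
  have hcoef0 : 0 ≤ m ^ 2 - M ^ 2 * (1 / 8) := by
    have := sq_nonneg M
    linarith
  have hXN0 : 0 ≤ XN d p g N := XN_nonneg h0.le h1 g0 g1 N
  have hsum0 : 0 ≤ ∑ v ∈ W, P (v + e1) := sum_nonneg fun v _ => hP0 _
  have b7 : M ^ 2 * (1 / 2 * XN d p g N - ε) ≤
      (m ^ 2 - M ^ 2 * (1 / 8)) * ∑ v ∈ W, P (v + e1) -
      M ^ 2 * ∑ v ∈ W, ∑ w ∈ L, ∑ z ∈ L, (tau p (w - (v + e2)) + tau p (w - (v + e3))) *
        (tau p (z - (v + e1)) * tau p (w - z) * P z) := by
    have c1 : 3 / 4 * M ^ 2 * ∑ v ∈ W, P (v + e1) ≤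
        (m ^ 2 - M ^ 2 * (1 / 8)) * ∑ v ∈ W, P (v + e1) :=
      mul_le_mul_of_nonneg_right hcoef hsum0
    have c2 : 3 / 4 * M ^ 2 * (XN d p g N - ε) ≤ 3 / 4 * M ^ 2 * ∑ v ∈ W, P (v + e1) :=
      mul_le_mul_of_nonneg_left b6 (by positivity)
    have c3 := mul_le_mul_of_nonneg_left b5 (sq_nonneg M)
    have c4 : 0 ≤ M ^ 2 * ε := mul_nonneg (sq_nonneg M) hε0
    nlinarith
  have b8 : M ^ 2 * (1 / 2 * XN d p g N - ε) ≤
      ∑ v ∈ W, Pr (gw p g) (UN d N) {T | Pre (ed T) (gr T) (Lam v k) 0} := b7.trans b4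
  have b9 : p ^ ((2 * k + 1) ^ d * (2 * k + 1) ^ d) * (M ^ 2 * (1 / 2 * XN d p g N - ε)) ≤
      (4 * k + 1) ^ d * Pr (gw p g) (UN d N) {T | Hit T 0} :=
    (mul_le_mul_of_nonneg_left b8 (by positivity)).trans b1
  refine b9.trans ?_
  exact mul_le_mul_of_nonneg_left (MN_le_MG h0.le h1 g0 g1 N) (by positivity)

end Pool.Agent.Lib.MP_06caae_pr
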