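import Pool.Agent.Lib.MP_06caae_pr.Defs

/-!
# Open paths, intrinsic balls, disjoint occurrence of connections
-/

open Finset SimpleGraph
open Pool.Agent.Lib.MP_566bac_pr.Zd

namespace Pool.Agent.Lib.MP_06caae_pr

variable {d : ℕ}

/-! ### basic properties -/

lemma Rch.refl (S : Set (Ed d)) (x : V d) (r : ℕ) : Rch S x r x := ⟨Walk.nil, Nat.zero_le _⟩

lemma Rch.symm {S : Set (Ed d)} {x y : V d} {r : ℕ} (h : Rch S x r y) : Rch S y r x := by
  obtain ⟨w, hw⟩ := h
  exact ⟨w.reverse, by rwa [Walk.length_reverse]⟩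

lemma rch_comm {S : Set (Ed d)} {x y : V d} {r : ℕ} : Rch S x r y ↔ Rch S y r x :=
  ⟨Rch.symm, Rch.symm⟩

lemma Rch.trans {S : Set (Ed d)} {x y z : V d} {r s : ℕ} (h : Rch S x r y) (h' : Rch S y s z) :
    Rch S x (r + s) z := by
  obtain ⟨w, hw⟩ := h
  obtain ⟨w', hw'⟩ := h'
  exact ⟨w.append w', by rw [Walk.length_append]; omega⟩

lemma Rch.mono {S S' : Set (Ed d)} {x y : V d} {r s : ℕ} (h : Rch S x r y) (hS : S ⊆ S')
    (hrs : r ≤ s) : Rch S' x s y := by
  obtain ⟨w, hw⟩ := h
  refine ⟨w.mapLe (openGraph_mono hS), ?_⟩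
  rw [Walk.length_map]
  omega

lemma Rch.con {S : Set (Ed d)} {x y : V d} {r : ℕ} (h : Rch S x r y) : Con S x y := ⟨h.choose⟩

lemma con_iff {S : Set (Ed d)} {x y : V d} : Con S x y ↔ ∃ r, Rch S x r y := by
  constructor
  · rintro ⟨w⟩
    exact ⟨w.length, w, le_rfl⟩
  · rintro ⟨r, h⟩
    exact h.con

lemma Con.refl (S : Set (Ed d)) (x : V d) : Con S x x := Reachable.refl _

lemma Con.symm {S : Set (Ed d)} {x y : V d} (h : Con S x y) : Con S y x := Reachable.symm h

lemma con_comm {S : Set (Ed d)} {x y : V d} : Con S x y ↔ Con S y x := ⟨Con.symm, Con.symm⟩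

lemma Con.trans {S : Set (Ed d)} {x y z : V d} (h : Con S x y) (h' : Con S y z) : Con S x z :=
  Reachable.trans h h'

lemma Con.mono {S S' : Set (Ed d)} {x y : V d} (h : Con S x y) (hS : S ⊆ S') : Con S' x y :=
  Reachable.mono (openGraph_mono hS) h

lemma Con.step {S : Set (Ed d)} {x y : V d} (h : (lattice d).Adj x y) (hS : s(x, y) ∈ S) :
    Con S x y := SimpleGraph.Adj.reachable (G := openGraph S) ⟨h, hS⟩

lemma Rch.step {S : Set (Ed d)} {x y : V d} (h : (lattice d).Adj x y) (hS : s(x, y) ∈ S) :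
    Rch S x 1 y := ⟨Walk.cons (show (openGraph S).Adj x y from ⟨h, hS⟩) Walk.nil, by simp⟩

lemma rch_zero {S : Set (Ed d)} {x y : V d} : Rch S x 0 y ↔ x = y := by
  constructor
  · rintro ⟨w, hw⟩
    exact Walk.eq_of_length_eq_zero (Nat.le_zero.mp hw)
  · rintro rfl
    exact Rch.refl _ _ _

/-- the last step of a path -/
lemma rch_succ {S : Set (Ed d)} {x y : V d} {r : ℕ} :
    Rch S x (r + 1) y ↔ x = y ∨ ∃ z, Rch S x r z ∧ (lattice d).Adj z y ∧ s(z, y) ∈ S := by
  constructor
  · intro h
    obtain ⟨w, hw⟩ := h.symm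
    cases w with
    | nil => exact Or.inl rfl
    | @cons _ z _ hadj w' =>
      right
      rw [Walk.length_cons] at hw
      exact ⟨z, Rch.symm ⟨w', by omega⟩, hadj.1.symm, by rw [Sym2.eq_swap]; exact hadj.2⟩
  · rintro (rfl | ⟨z, h1, h2, h3⟩)
    · exact Rch.refl _ _ _
    · exact h1.trans (Rch.step h2 h3)

/-- the first step of a path -/
lemma rch_succ' {S : Set (Ed d)} {x y : V d} {r : ℕ} :
    Rch S x (r + 1) y ↔ x = y ∨ ∃ z, (lattice d).Adj x z ∧ s(x, z) ∈ S ∧ Rch S z r y := by
  constructor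
  · rintro ⟨w, hw⟩
    cases w with
    | nil => exact Or.inl rfl
    | @cons _ z _ hadj w' =>
      right
      rw [Walk.length_cons] at hw
      exact ⟨z, hadj.1, hadj.2, w', by omega⟩
  · rintro (rfl | ⟨z, h1, h2, h3⟩)
    · exact Rch.refl _ _ _
    · exact ((Rch.step h1 h2).trans h3).mono subset_rfl (by omega)

/-- a point at every intermediate distance -/
lemma rch_split {S : Set (Ed d)} {x y : V d} {i j : ℕ} (h : Rch S x (i + j) y) :
    ∃ u, Rch S x i u ∧ Rch S u j y := by
  induction j generalizing y with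
  | zero => exact ⟨y, h, Rch.refl _ _ _⟩
  | succ j ih =>
    rw [← add_assoc, rch_succ] at h
    rcases h with rfl | ⟨z, h1, h2, h3⟩
    · exact ⟨x, Rch.refl _ _ _, Rch.refl _ _ _⟩
    · obtain ⟨u, h4, h5⟩ := ih h1
      exact ⟨u, h4, h5.trans (Rch.step h2 h3)⟩

lemma rch_dst {S : Set (Ed d)} {x y : V d} {r : ℕ} (h : Rch S x r y) : dst x y ≤ r := by
  induction r generalizing y with
  | zero =>
    rw [rch_zero] at h
    subst h
    rw [dst_self]
  | succ r ih =>
    rw [rch_succ] at h
    rcases h with rfl | ⟨z, h1, h2, h3⟩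
    · rw [dst_self]
      exact Nat.zero_le _
    · have := ih h1
      have h4 := dst_adj h2
      have h5 := dst_tri x z y
      omega

lemma mem_ball {S : Set (Ed d)} {x y : V d} {r : ℕ} : y ∈ ball S x r ↔ Rch S x r y := by
  classical
  rw [ball, mem_filter, mem_Lam, dst_comm]
  exact ⟨fun h => h.2, fun h => ⟨rch_dst h, h⟩⟩

lemma self_mem_ball (S : Set (Ed d)) (x : V d) (r : ℕ) : x ∈ ball S x r :=
  mem_ball.mpr (Rch.refl _ _ _)

lemma ball_mono {S S' : Set (Ed d)} {x : V d} {r s : ℕ} (hS : S ⊆ S') (h : r ≤ s) :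
    ball S x r ⊆ ball S' x s := by
  intro y
  rw [mem_ball, mem_ball]
  exact fun h1 => h1.mono hS h

lemma mem_sph {S : Set (Ed d)} {x y : V d} {r : ℕ} :
    y ∈ sph S x r ↔ Rch S x r y ∧ ∀ k, Rch S x k y → r ≤ k := by
  classical
  rw [sph, mem_filter, mem_ball]

lemma sph_subset (S : Set (Ed d)) (x : V d) (r : ℕ) : sph S x r ⊆ ball S x r := by
  classical
  exact filter_subset _ _

lemma mem_sph_succ {S : Set (Ed d)} {x y : V d} {r : ℕ} :
    y ∈ sph S x (r + 1) ↔ Rch S x (r + 1) y ∧ ¬ Rch S x r y := by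
  rw [mem_sph]
  constructor
  · rintro ⟨h1, h2⟩
    exact ⟨h1, fun h3 => by have := h2 r h3; omega⟩
  · rintro ⟨h1, h2⟩
    refine ⟨h1, fun k hk => ?_⟩
    by_contra h3
    exact h2 (hk.mono subset_rfl (by omega))

lemma sph_zero (S : Set (Ed d)) (x : V d) : sph S x 0 = {x} := by
  ext y
  rw [mem_sph, rch_zero, mem_singleton]
  constructor
  · rintro ⟨h, _⟩
    exact h.symm
  · rintro rfl
    exact ⟨rfl, fun _ _ => Nat.zero_le _⟩

/-- every vertex of the ball lies on one sphere -/
lemma ball_eq_sph {S : Set (Ed d)} {x y : V d} {r : ℕ} :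
    Rch S x r y ↔ ∃ k, k ≤ r ∧ y ∈ sph S x k := by
  classical
  constructor
  · intro h
    have hex : ∃ k, Rch S x k y := ⟨r, h⟩
    refine ⟨Nat.find hex, Nat.find_min' hex h, ?_⟩
    rw [mem_sph]
    exact ⟨Nat.find_spec hex, fun k hk => Nat.find_min' hex hk⟩
  · rintro ⟨k, hk, h⟩
    exact (mem_sph.mp h).1.mono subset_rfl hk

lemma sph_unique {S : Set (Ed d)} {x y : V d} {j k : ℕ} (hj : y ∈ sph S x j)
    (hk : y ∈ sph S x k) : j = k := by
  rw [mem_sph] at hj hk
  exact le_antisymm (hj.2 k hk.1) (hk.2 j hj.1)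

/-! ### monotone and local -/

lemma inc_Rch (x : V d) (r : ℕ) (y : V d) : Inc {S : Set (Ed d) | Rch S x r y} :=
  fun _ _ h h1 => Rch.mono h1 h le_rfl

lemma inc_Con (x y : V d) : Inc {S : Set (Ed d) | Con S x y} :=
  fun _ _ h h1 => Con.mono h1 h

/-- a path of length `r` from `x` stays in the box of radius `r` around `x` -/
lemma rch_Ein {S : Set (Ed d)} {x y : V d} {r : ℕ} :
    Rch S x r y ↔ Rch (S ∩ (Ein (Lam x r) : Set (Ed d))) x r y := by
  constructor
  · have key : ∀ (k : ℕ) (y : V d), k ≤ r → Rch S x k y →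
        Rch (S ∩ (Ein (Lam x r) : Set (Ed d))) x k y := by
      intro k
      induction k with
      | zero =>
        intro y _ h
        rw [rch_zero] at h ⊢
        exact h
      | succ k ih =>
        intro y hk h
        rw [rch_succ] at h ⊢
        rcases h with rfl | ⟨z, h1, h2, h3⟩
        · exact Or.inl rfl
        · right
          refine ⟨z, ih z (by omega) h1, h2, h3, ?_⟩
          have h4 := rch_dst h1
          have h5 := dst_adj h2
          have h6 := dst_tri x z y
          rw [Finset.mem_coe, mem_Ein, mem_Lam, mem_Lam, dst_comm z x, dst_comm y x]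
          exact ⟨by omega, by omega, h2⟩
    exact fun h => key r y le_rfl h
  · exact fun h => h.mono Set.inter_subset_left le_rfl

lemma det_Rch (x : V d) (r : ℕ) (y : V d) :
    Det (Ein (Lam x r)) {S : Set (Ed d) | Rch S x r y} := by
  intro S S' h h1
  rw [Set.mem_ofPred_eq, rch_Ein] at h1 ⊢
  refine h1.mono ?_ le_rfl
  rintro e ⟨h2, h3⟩
  exact ⟨(h e h3).mp h2, h3⟩

/-! ### disjoint occurrence -/

/-- the open edges of a walk are a certificate -/
lemma rch_edges {S : Set (Ed d)} {x y : V d} (w : (openGraph S).Walk x y) :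
    Rch {e | e ∈ w.edges} x w.length y := by
  refine ⟨w.transfer (openGraph {e | e ∈ w.edges}) ?_, ?_⟩
  · intro e he
    have h1 := w.edges_subset_edgeSet he
    induction e using Sym2.ind with
    | _ a b =>
      rw [SimpleGraph.mem_edgeSet] at h1 ⊢
      exact ⟨h1.1, he⟩
  · rw [Walk.length_transfer]

lemma edges_mem {S : Set (Ed d)} {x y : V d} (w : (openGraph S).Walk x y) {e : Ed d}
    (he : e ∈ w.edges) : e ∈ S := by
  have h1 := w.edges_subset_edgeSet he
  induction e using Sym2.ind with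
  | _ a b =>
    rw [SimpleGraph.mem_edgeSet] at h1
    exact h1.2

/-- a finite certificate for a connection -/
lemma rch_fin {S : Set (Ed d)} {x y : V d} {r : ℕ} (h : Rch S x r y) :
    ∃ I : Finset (Ed d), (I : Set (Ed d)) ⊆ S ∧ Rch (I : Set (Ed d)) x r y := by
  classical
  obtain ⟨w, hw⟩ := h
  refine ⟨w.edges.toFinset, ?_, ?_⟩
  · intro e he
    rw [Finset.mem_coe, List.mem_toFinset] at he
    exact edges_mem w he
  · have := rch_edges w
    refine this.mono ?_ hw
    intro e he
    rw [Finset.mem_coe, List.mem_toFinset]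
    exact he

/-- two walks with no common edge -/
lemma box_walks {S : Set (Ed d)} {x u v y : V d} {i j : ℕ} (p : (openGraph S).Walk x u)
    (q : (openGraph S).Walk v y) (hp : p.length ≤ i) (hq : q.length ≤ j)
    (h : ∀ e ∈ p.edges, e ∉ q.edges) :
    S ∈ Box {S : Set (Ed d) | Rch S x i u} {S | Rch S v j y} := by
  refine ⟨{e | e ∈ p.edges}, {e | e ∈ q.edges}, fun e he => edges_mem p he,
    fun e he => edges_mem q he, ?_, (rch_edges p).mono subset_rfl hp,
    (rch_edges q).mono subset_rfl hq⟩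
  rw [Set.disjoint_left]
  exact fun e he => h e he

/-- a shortest walk -/
lemma exists_path {S : Set (Ed d)} {x y : V d} {r : ℕ} (h : Rch S x r y) :
    ∃ p : (openGraph S).Walk x y, p.IsPath ∧ p.length ≤ r := by
  classical
  obtain ⟨w, hw⟩ := h
  exact ⟨w.bypass, w.bypass_isPath, (w.length_bypass_le_length).trans hw⟩

lemma path_split_disj {S : Set (Ed d)} {x y u : V d} {p : (openGraph S).Walk x y}
    (hp : p.IsPath) {a : (openGraph S).Walk x u} {b : (openGraph S).Walk u y}
    (hab : a.append b = p) : ∀ e ∈ a.edges, e ∉ b.edges := by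
  have h1 := hp.isTrail.edges_nodup
  rw [← hab, Walk.edges_append, List.nodup_append] at h1
  intro e he hb
  exact h1.2.2 e he e hb rfl

/-- **The cut of a geodesic.** If `y` is at distance exactly `i + j` from `x` there is a vertex `u` at
distance exactly `i` from `x`, and the two pieces use different edges. -/
lemma box_cut {S : Set (Ed d)} {x y : V d} {i j : ℕ} (h : y ∈ sph S x (i + j)) :
    ∃ u, u ∈ sph S x i ∧ S ∈ Box {S : Set (Ed d) | Rch S x i u} {S | Rch S u j y} := by
  classical
  obtain ⟨h1, h2⟩ := mem_sph.mp h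
  obtain ⟨p, hp, hl⟩ := exists_path h1
  have hl' : p.length = i + j := le_antisymm hl (h2 _ ⟨p, le_rfl⟩)
  refine ⟨p.getVert i, ?_, ?_⟩
  · rw [mem_sph]
    refine ⟨⟨p.take i, ?_⟩, ?_⟩
    · rw [Walk.take_length]
      exact min_le_left _ _
    · intro k hk
      have h3 : Rch S (p.getVert i) j y := ⟨p.drop i, by rw [Walk.drop_length]; omega⟩
      have := h2 _ (hk.trans h3)
      omega
  · refine box_walks (p.take i) (p.drop i) ?_ ?_ ?_
    · rw [Walk.take_length]
      exact min_le_left _ _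
    · rw [Walk.drop_length]
      omega
    · exact path_split_disj hp (Walk.append_take_drop_eq p i)

/-- the last vertex of a walk in a set -/
lemma walk_last {G : SimpleGraph (V d)} {X : Set (V d)} {a w : V d} (q : G.Walk a w) :
    (∀ v ∈ q.support, v ∉ X) ∨ ∃ u ∈ X, ∃ q2 : G.Walk u w, q2.length ≤ q.length ∧
      (∀ e ∈ q2.edges, e ∈ q.edges) ∧ ∀ e ∈ q2.edges, ∃ v ∉ X, v ∈ e := by
  classical
  induction q with
  | @nil a =>
    by_cases ha : a ∈ X
    · exact Or.inr ⟨a, ha, Walk.nil, le_rfl, by simp, by simp⟩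
    · left
      intro v hv
      rw [Walk.support_nil, List.mem_singleton] at hv
      rwa [hv]
  | @cons a v w hadj q ih =>
    rcases ih with ih | ⟨u, h1, q2, h2, h3, h4⟩
    · by_cases ha : a ∈ X
      · right
        refine ⟨a, ha, Walk.cons hadj q, le_rfl, fun e he => he, ?_⟩
        intro e he
        rw [Walk.edges_cons, List.mem_cons] at he
        rcases he with rfl | he
        · exact ⟨v, ih v q.start_mem_support, Sym2.mem_mk_right _ _⟩
        · induction e using Sym2.ind with
          | _ b c => exact ⟨b, ih b (q.fst_mem_support_of_mem_edges he), Sym2.mem_mk_left _ _⟩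
      · left
        intro z hz
        rw [Walk.support_cons, List.mem_cons] at hz
        rcases hz with rfl | hz
        · exact ha
        · exact ih z hz
    · right
      refine ⟨u, h1, q2, ?_, ?_, h4⟩
      · rw [Walk.length_cons]
        omega
      · intro e he
        rw [Walk.edges_cons]
        exact List.mem_cons_of_mem _ (h3 e he)

/-- **The tree bound, for events.** -/
lemma box_tree {S : Set (Ed d)} {x a w : V d} {r m : ℕ} (h1 : Rch S x r a) (h2 : Rch S x m w) :
    ∃ u, ∃ i j, i + j ≤ r ∧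
      S ∈ Box (Box {S : Set (Ed d) | Rch S x i u} {S | Rch S u j a}) {S | Rch S u m w} := by
  classical
  obtain ⟨p, hp, hl⟩ := exists_path h1
  obtain ⟨q, hq⟩ := h2
  rcases walk_last (X := {v | v ∈ p.support}) q with h3 | ⟨u, h3, q2, h4, h5, h6⟩
  · exact absurd p.start_mem_support (h3 x q.start_mem_support)
  refine ⟨u, (p.takeUntil u h3).length, (p.dropUntil u h3).length, ?_, ?_⟩
  · rw [← Walk.length_append, Walk.take_spec]
    exact hl
  · have hd : ∀ e ∈ (p.takeUntil u h3).edges, e ∉ (p.dropUntil u h3).edges :=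
      path_split_disj hp (Walk.take_spec p h3)
    have hsub : ∀ e, (e ∈ (p.takeUntil u h3).edges ∨ e ∈ (p.dropUntil u h3).edges) →
        e ∈ p.edges := by
      intro e he
      rw [← Walk.take_spec p h3, Walk.edges_append, List.mem_append]
      exact he
    refine ⟨{e | e ∈ (p.takeUntil u h3).edges ∨ e ∈ (p.dropUntil u h3).edges},
      {e | e ∈ q2.edges}, ?_, fun e he => edges_mem q2 he, ?_, ?_, ?_⟩
    · intro e he
      exact edges_mem p (hsub e he)
    · rw [Set.disjoint_left]
      intro e he he2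
      obtain ⟨v, hv, hve⟩ := h6 e he2
      apply hv
      have hep := hsub e he
      induction e using Sym2.ind with
      | _ b c =>
        rw [Sym2.mem_iff] at hve
        rcases hve with rfl | rfl
        · exact p.fst_mem_support_of_mem_edges hep
        · exact p.snd_mem_support_of_mem_edges hep
    · refine ⟨{e | e ∈ (p.takeUntil u h3).edges}, {e | e ∈ (p.dropUntil u h3).edges},
        fun e he => Or.inl he, fun e he => Or.inr he, ?_, rch_edges _, rch_edges _⟩
      rw [Set.disjoint_left]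
      exact fun e he => hd e he
    · exact (rch_edges q2).mono subset_rfl (h4.trans hq)

end Pool.Agent.Lib.MP_06caae_pr
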