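import Pool.Agent.Lib.MP_06caae_pr.Tau

/-!
# The two-point function is positive semidefinite
-/

open Finset SimpleGraph
open Pool.Agent.Lib.MP_566bac_pr.Zd

namespace Pool.Agent.Lib.MP_06caae_pr

variable {d : ℕ} {p : ℝ}

/-- the matrix of an equivalence relation is positive semidefinite -/
lemma psd_rel {α : Type*} (A : Finset α) (R : α → α → Prop) (hR : Equivalence R) (f : α → ℝ) :
    0 ≤ ∑ x ∈ A, ∑ y ∈ A, f x * f y * ind (R x y) := by
  classical
  let s : Setoid α := ⟨R, hR⟩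
  let q : α → Quotient s := Quotient.mk s
  have hq : ∀ x y, R x y ↔ q x = q y := fun x y => (Quotient.eq (r := s)).symm
  have h1 : ∀ x ∈ A, ∀ y ∈ A, f x * f y * ind (R x y) =
      ∑ c ∈ A.image q, (f x * ind (q x = c)) * (f y * ind (q y = c)) := by
    intro x hx y _
    rw [Finset.sum_eq_single (q x)]
    · rw [ind_true rfl]
      by_cases h : R x y
      · rw [ind_true h, ind_true ((hq x y).mp h).symm]
        ring
      · rw [ind_false h, ind_false fun h2 => h ((hq x y).mpr h2.symm)]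
        ring
    · intro c _ hc
      rw [ind_false fun h => hc h.symm]
      ring
    · intro h
      exact absurd (mem_image_of_mem q hx) h
  rw [sum_congr rfl fun x hx => sum_congr rfl fun y hy => h1 x hx y hy]
  have h2 : ∑ x ∈ A, ∑ y ∈ A, ∑ c ∈ A.image q,
      (f x * ind (q x = c)) * (f y * ind (q y = c)) =
      ∑ c ∈ A.image q, (∑ x ∈ A, f x * ind (q x = c)) * ∑ y ∈ A, f y * ind (q y = c) := by
    simp_rw [sum_mul_sum]
    rw [sum_comm]
    calc ∑ x ∈ A, ∑ y ∈ A, ∑ c ∈ A.image q, (f y * ind (q y = c)) * (f x * ind (q x = c))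
        = ∑ x ∈ A, ∑ c ∈ A.image q, ∑ y ∈ A, (f y * ind (q y = c)) * (f x * ind (q x = c)) := by
          apply sum_congr rfl
          intro x _
          rw [sum_comm]
      _ = ∑ c ∈ A.image q, ∑ x ∈ A, ∑ y ∈ A, (f y * ind (q y = c)) * (f x * ind (q x = c)) := by
          rw [sum_comm]
      _ = _ := by
          apply sum_congr rfl
          intro c _
          rw [sum_comm]
  rw [h2]
  exact sum_nonneg fun c _ => mul_self_nonneg _

/-- one finite volume approximates the two-point function on a finite set -/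
lemma exists_vol (h0 : 0 ≤ p) (h1 : p ≤ 1) (A : Finset (V d)) {ε : ℝ} (hε : 0 < ε) :
    ∃ N, ∀ M ≥ N, ∀ x ∈ A, ∀ y ∈ A,
      tau p (y - x) - ε ≤ PE p (Ein (Lam 0 M)) {S | Con S x y} := by
  choose F hF using fun x y : V d => tau_approx h0 h1 x y hε
  refine ⟨A.sup fun x => A.sup fun y => F x y, ?_⟩
  intro M hM x hx y hy
  apply hF
  refine le_trans ?_ hM
  refine le_trans ?_ (Finset.le_sup (f := fun x => A.sup fun y => F x y) hx)
  exact Finset.le_sup (f := fun y => F x y) hy

lemma con_equiv (S : Set (Ed d)) : Equivalence (Con S) :=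
  ⟨Con.refl S, Con.symm, Con.trans⟩

/-- **Aizenman and Newman: positive semidefinite.** -/
theorem psd (h0 : 0 ≤ p) (h1 : p ≤ 1) (A : Finset (V d)) (f : V d → ℝ) :
    0 ≤ ∑ x ∈ A, ∑ y ∈ A, f x * f y * tau p (y - x) := by
  apply le_of_forall_pos_le_add
  intro ε hε
  set C : ℝ := ∑ x ∈ A, ∑ y ∈ A, |f x * f y| with hC
  have hC0 : 0 ≤ C := sum_nonneg fun _ _ => sum_nonneg fun _ _ => abs_nonneg _
  obtain ⟨N, hN⟩ := exists_vol h0 h1 A (show 0 < ε / (C + 1) by positivity)
  set E := Ein (Lam (0 : V d) N)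
  have h2 : 0 ≤ EE p E fun S => ∑ x ∈ A, ∑ y ∈ A, f x * f y * ind (Con S x y) :=
    Ex_nonneg (wt_p h0 h1) fun S => psd_rel A (Con S) (con_equiv S) f
  have h3 : (EE p E fun S => ∑ x ∈ A, ∑ y ∈ A, f x * f y * ind (Con S x y)) =
      ∑ x ∈ A, ∑ y ∈ A, f x * f y * PE p E {S | Con S x y} := by
    rw [EE, Ex_sum]
    apply sum_congr rfl
    intro x _
    rw [Ex_sum]
    apply sum_congr rfl
    intro y _
    rw [Ex_mul]
    congr 1
    exact Ex_ind (fun _ => p) E {S | Con S x y}
  rw [h3] at h2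
  have h4 : ∑ x ∈ A, ∑ y ∈ A, f x * f y * PE p E {S | Con S x y} ≤
      ∑ x ∈ A, ∑ y ∈ A, (f x * f y * tau p (y - x) + |f x * f y| * (ε / (C + 1))) := by
    apply sum_le_sum
    intro x hx
    apply sum_le_sum
    intro y hy
    have a1 := hN N le_rfl x hx y hy
    have a2 := PE_le_tau h0 h1 E x y
    have a3 : |PE p E {S | Con S x y} - tau p (y - x)| ≤ ε / (C + 1) := by
      rw [abs_le]
      constructor <;> linarith
    have a4 : f x * f y * (PE p E {S | Con S x y} - tau p (y - x)) ≤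
        |f x * f y| * (ε / (C + 1)) := by
      refine (le_abs_self _).trans ?_
      rw [abs_mul]
      exact mul_le_mul_of_nonneg_left a3 (abs_nonneg _)
    linarith
  have h5 : ∑ x ∈ A, ∑ y ∈ A, (f x * f y * tau p (y - x) + |f x * f y| * (ε / (C + 1))) =
      ∑ x ∈ A, ∑ y ∈ A, f x * f y * tau p (y - x) + C * (ε / (C + 1)) := by
    simp_rw [sum_add_distrib]
    rw [hC]
    simp_rw [sum_mul]
  have h6 : C * (ε / (C + 1)) ≤ ε := by
    rw [← mul_div_assoc, div_le_iff₀ (by positivity)]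
    nlinarith
  linarith

/-- the bilinear form of the two-point function, on a finite set -/
noncomputable def BB (p : ℝ) (A : Finset (V d)) (f g : V d → ℝ) : ℝ :=
  ∑ x ∈ A, ∑ y ∈ A, f x * g y * tau p (y - x)

lemma BB_nonneg (h0 : 0 ≤ p) (h1 : p ≤ 1) (A : Finset (V d)) (f : V d → ℝ) :
    0 ≤ BB p A f f := psd h0 h1 A f

lemma BB_symm (h0 : 0 ≤ p) (h1 : p ≤ 1) (A : Finset (V d)) (f g : V d → ℝ) :
    BB p A f g = BB p A g f := by
  unfold BB
  rw [sum_comm]
  apply sum_congr rfl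
  intro y _
  apply sum_congr rfl
  intro x _
  rw [tau_sub_comm h0 h1]
  ring

lemma BB_add_left (A : Finset (V d)) (f f' g : V d → ℝ) :
    BB p A (fun x => f x + f' x) g = BB p A f g + BB p A f' g := by
  unfold BB
  rw [← sum_add_distrib]
  apply sum_congr rfl
  intro x _
  rw [← sum_add_distrib]
  apply sum_congr rfl
  intro y _
  ring

lemma BB_add_right (A : Finset (V d)) (f g g' : V d → ℝ) :
    BB p A f (fun x => g x + g' x) = BB p A f g + BB p A f g' := by
  unfold BB
  rw [← sum_add_distrib]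
  apply sum_congr rfl
  intro x _
  rw [← sum_add_distrib]
  apply sum_congr rfl
  intro y _
  ring

lemma BB_mul_left (A : Finset (V d)) (c : ℝ) (f g : V d → ℝ) :
    BB p A (fun x => c * f x) g = c * BB p A f g := by
  unfold BB
  rw [mul_sum]
  apply sum_congr rfl
  intro x _
  rw [mul_sum]
  apply sum_congr rfl
  intro y _
  ring

/-- **Cauchy and Schwarz.** -/
theorem BB_cs (h0 : 0 ≤ p) (h1 : p ≤ 1) (A : Finset (V d)) (f g : V d → ℝ) :
    BB p A f g ^ 2 ≤ BB p A f f * BB p A g g := by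
  have h2 : ∀ t : ℝ, 0 ≤ BB p A g g * (t * t) + 2 * BB p A f g * t + BB p A f f := by
    intro t
    have h3 := BB_nonneg h0 h1 A (fun x => t * g x + f x)
    rw [BB_add_left, BB_mul_left, BB_add_right, BB_symm h0 h1 A g (fun x => t * g x),
      BB_mul_left, BB_add_right, BB_symm h0 h1 A f (fun x => t * g x), BB_mul_left,
      BB_symm h0 h1 A g f] at h3
    nlinarith
  have h4 := discrim_le_zero h2
  unfold discrim at h4
  nlinarith

lemma BB_le_sqrt (h0 : 0 ≤ p) (h1 : p ≤ 1) (A : Finset (V d)) (f g : V d → ℝ) {a b : ℝ}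
    (ha : BB p A f f ≤ a) (hb : BB p A g g ≤ b) : BB p A f g ≤ Real.sqrt (a * b) := by
  apply Real.le_sqrt_of_sq_le
  refine (BB_cs h0 h1 A f g).trans ?_
  exact mul_le_mul ha hb (BB_nonneg h0 h1 A g) ((BB_nonneg h0 h1 A f).trans ha)

end Pool.Agent.Lib.MP_06caae_pr
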